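import Mathlib

/-!
Powers of one half, dyadic multiples, binary digit sums and the domination relation used in the
proof about fusible numbers.
-/

set_option autoImplicit false

namespace Pool.Agent.Lib.MP_67db36_lc

/-- `pw i = 2^{-i}`. -/
def pw (i : ℕ) : ℚ := (1 / 2) ^ i

@[simp] lemma pw_zero : pw 0 = 1 := by simp [pw]

lemma pw_succ (i : ℕ) : pw (i + 1) = pw i / 2 := by
  unfold pw; rw [pow_succ]; ring

lemma pw_two (i : ℕ) : 2 * pw (i + 1) = pw i := by rw [pw_succ]; ring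

lemma pw_one : pw 1 = 1 / 2 := by simp [pw]

lemma pw_pos (i : ℕ) : 0 < pw i := by unfold pw; positivity

lemma pw_add (i j : ℕ) : pw (i + j) = pw i * pw j := by unfold pw; rw [pow_add]

lemma pw_le_pw {i j : ℕ} (h : i ≤ j) : pw j ≤ pw i := by
  unfold pw
  exact pow_le_pow_of_le_one (by norm_num) (by norm_num) h

lemma pw_lt_pw {i j : ℕ} (h : i < j) : pw j < pw i := by
  have h1 := pw_le_pw (Nat.succ_le_of_lt h)
  have h2 := pw_succ i
  have h3 := pw_pos i
  simp only [Nat.succ_eq_add_one] at h1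
  linarith

lemma pw_le_iff {i j : ℕ} : pw j ≤ pw i ↔ i ≤ j := by
  constructor
  · intro h
    by_contra hc
    push Not at hc
    exact absurd h (not_le.mpr (pw_lt_pw hc))
  · exact pw_le_pw

lemma pw_lt_iff {i j : ℕ} : pw j < pw i ↔ i < j := by
  rw [← not_le, ← not_le, pw_le_iff]

lemma pw_inj {i j : ℕ} (h : pw i = pw j) : i = j :=
  le_antisymm (pw_le_iff.mp h.symm.le) (pw_le_iff.mp h.le)

lemma pw_le_one (i : ℕ) : pw i ≤ 1 := by
  have := pw_le_pw (Nat.zero_le i)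
  simpa using this

lemma pw_mul_two_pow (i : ℕ) : pw i * 2 ^ i = 1 := by
  unfold pw
  rw [← mul_pow]; norm_num

lemma exists_pw_lt {r : ℚ} (hr : 0 < r) : ∃ i, pw i < r := by
  obtain ⟨n, hn⟩ := exists_pow_lt_of_lt_one hr (by norm_num : (1 / 2 : ℚ) < 1)
  exact ⟨n, hn⟩

/-- every `c ∈ (0,1]` lies in exactly one `(2^{-(m+1)}, 2^{-m}]`. -/
lemma exists_lead {c : ℚ} (h0 : 0 < c) (h1 : c ≤ 1) : ∃ m, pw (m + 1) < c ∧ c ≤ pw m := by
  classical
  have hex : ∃ i, pw (i + 1) < c := by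
    obtain ⟨i, hi⟩ := exists_pw_lt h0
    exact ⟨i, lt_of_le_of_lt (pw_le_pw (Nat.le_succ i)) hi⟩
  refine ⟨Nat.find hex, Nat.find_spec hex, ?_⟩
  rcases Nat.eq_zero_or_pos (Nat.find hex) with h | h
  · rw [h]; simpa using h1
  · have := Nat.find_min hex (m := Nat.find hex - 1) (by omega)
    push Not at this
    have e : Nat.find hex - 1 + 1 = Nat.find hex := by omega
    rwa [e] at this

lemma lead_unique {c : ℚ} {m n : ℕ} (h1 : pw (m + 1) < c) (h2 : c ≤ pw m)
    (h3 : pw (n + 1) < c) (h4 : c ≤ pw n) : m = n := by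
  have a1 := pw_lt_iff.mp (lt_of_lt_of_le h1 h4)
  have a2 := pw_lt_iff.mp (lt_of_lt_of_le h3 h2)
  omega

lemma lead_ge {c : ℚ} {m i : ℕ} (h1 : pw (m + 1) < c) (h2 : c ≤ pw i) : i ≤ m := by
  have a1 := pw_lt_iff.mp (lt_of_lt_of_le h1 h2)
  omega

/-! ### multiples of `2^{-i}` -/

/-- `g` is an integer multiple of `2^{-i}`. -/
def Mu (i : ℕ) (g : ℚ) : Prop := ∃ k : ℤ, g = k * pw i

lemma Mu.zero (i : ℕ) : Mu i 0 := ⟨0, by simp⟩

lemma Mu.step {i : ℕ} {g : ℚ} (h : Mu i g) : Mu (i + 1) g := by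
  obtain ⟨k, rfl⟩ := h
  refine ⟨2 * k, ?_⟩
  rw [pw_succ]; push_cast; ring

lemma Mu.mono {i j : ℕ} {g : ℚ} (h : Mu i g) (hij : i ≤ j) : Mu j g := by
  induction hij with
  | refl => exact h
  | step _ ih => exact ih.step

lemma Mu.add {i : ℕ} {g h : ℚ} (hg : Mu i g) (hh : Mu i h) : Mu i (g + h) := by
  obtain ⟨k, rfl⟩ := hg
  obtain ⟨l, rfl⟩ := hh
  exact ⟨k + l, by push_cast; ring⟩

lemma Mu.neg {i : ℕ} {g : ℚ} (hg : Mu i g) : Mu i (-g) := by
  obtain ⟨k, rfl⟩ := hg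
  exact ⟨-k, by push_cast; ring⟩

lemma Mu.sub {i : ℕ} {g h : ℚ} (hg : Mu i g) (hh : Mu i h) : Mu i (g - h) := by
  rw [sub_eq_add_neg]; exact hg.add hh.neg

lemma Mu.ofPw {i j : ℕ} (h : j ≤ i) : Mu i (pw j) := Mu.mono ⟨1, by simp⟩ h

lemma Mu.one (i : ℕ) : Mu i 1 := by
  have := Mu.ofPw (Nat.zero_le i)
  simpa using this

lemma Mu.half {i : ℕ} {g : ℚ} (hg : Mu i g) : Mu (i + 1) (g / 2) := by
  obtain ⟨k, rfl⟩ := hg
  refine ⟨k, ?_⟩
  rw [pw_succ]; ring

lemma Mu.double {i : ℕ} {g : ℚ} (hg : Mu (i + 1) g) : Mu i (2 * g) := by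
  obtain ⟨k, rfl⟩ := hg
  refine ⟨k, ?_⟩
  rw [pw_succ]; ring

/-- distinct multiples of `2^{-i}` differ by at least `2^{-i}`. -/
lemma Mu.le_of_lt {i : ℕ} {g h : ℚ} (hg : Mu i g) (hh : Mu i h) (hlt : g < h) :
    g + pw i ≤ h := by
  obtain ⟨k, rfl⟩ := hg
  obtain ⟨l, rfl⟩ := hh
  have hp := pw_pos i
  have : (k : ℚ) < l := lt_of_mul_lt_mul_right hlt hp.le
  have h2 : k + 1 ≤ l := by exact_mod_cast this
  have h3 : (k : ℚ) + 1 ≤ l := by exact_mod_cast h2
  nlinarith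

lemma Mu.not_pw {i j : ℕ} (h : Mu i (pw j)) : j ≤ i := by
  by_contra hc
  push Not at hc
  have h1 : (0 : ℚ) < pw j := pw_pos j
  have := Mu.le_of_lt (Mu.zero i) h h1
  have h2 := pw_lt_pw hc
  linarith

/-- every positive `r` has a least multiple of `2^{-i}` above it. -/
lemma exists_ceil (i : ℕ) (r : ℚ) : ∃ g, Mu i g ∧ r < g ∧ g ≤ r + pw i := by
  have hp := pw_pos i
  refine ⟨(⌊r / pw i⌋ + 1 : ℤ) * pw i, ⟨_, rfl⟩, ?_, ?_⟩
  · have := Int.lt_floor_add_one (r / pw i)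
    rw [div_lt_iff₀ hp] at this
    push_cast
    exact this
  · have := Int.floor_le (r / pw i)
    rw [le_div_iff₀ hp] at this
    push_cast
    linarith

/-! ### binary digit sum -/

/-- the binary digit sum. -/
def pc (n : ℕ) : ℕ := (Nat.digits 2 n).sum

@[simp] lemma pc_zero : pc 0 = 0 := by simp [pc]

lemma pc_eq (n : ℕ) : pc n = n % 2 + pc (n / 2) := by
  rcases Nat.eq_zero_or_pos n with h | h
  · subst h; simp
  · unfold pc
    rw [Nat.digits_def' (by norm_num) h]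
    simp

lemma pc_one : pc 1 = 1 := by rw [pc_eq]; simp

lemma pc_double (n : ℕ) : pc (2 * n) = pc n := by
  rw [pc_eq]; simp

lemma pc_double_add (n : ℕ) : pc (2 * n + 1) = pc n + 1 := by
  rw [pc_eq]
  have h1 : (2 * n + 1) % 2 = 1 := by omega
  have h2 : (2 * n + 1) / 2 = n := by omega
  rw [h1, h2]; ring

lemma pc_half_le (n : ℕ) : pc (n / 2) ≤ pc n := by
  rw [pc_eq n]; omega

lemma pc_pos {n : ℕ} (h : 0 < n) : 1 ≤ pc n := by
  induction n using Nat.strong_induction_on with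
  | _ n ih =>
    rw [pc_eq]
    rcases Nat.eq_zero_or_pos (n / 2) with h2 | h2
    · have : n = 1 := by omega
      subst this; simp
    · have := ih (n / 2) (by omega) h2
      omega

lemma pc_succ_le (n : ℕ) : pc (n + 1) ≤ pc n + 1 := by
  induction n using Nat.strong_induction_on with
  | _ n ih =>
    rw [pc_eq (n + 1), pc_eq n]
    rcases Nat.mod_two_eq_zero_or_one n with h | h
    · have h1 : (n + 1) % 2 = 1 := by omega
      have h2 : (n + 1) / 2 = n / 2 := by omega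
      rw [h1, h2]; omega
    · have h1 : (n + 1) % 2 = 0 := by omega
      have h2 : (n + 1) / 2 = n / 2 + 1 := by omega
      rw [h1, h2]
      have := ih (n / 2) (by omega)
      omega

lemma pc_add_two_pow_le (k n : ℕ) : pc (n + 2 ^ k) ≤ pc n + 1 := by
  induction k generalizing n with
  | zero => simpa using pc_succ_le n
  | succ k ih =>
    rw [pc_eq (n + 2 ^ (k + 1)), pc_eq n]
    have h1 : (n + 2 ^ (k + 1)) % 2 = n % 2 := by rw [pow_succ]; omega
    have h2 : (n + 2 ^ (k + 1)) / 2 = n / 2 + 2 ^ k := by rw [pow_succ]; omega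
    rw [h1, h2]
    have := ih (n / 2)
    omega

lemma pc_split (k a b : ℕ) (hb : b < 2 ^ k) : pc (a * 2 ^ k + b) = pc a + pc b := by
  induction k generalizing b with
  | zero =>
    have : b = 0 := by simpa using hb
    subst this; simp
  | succ k ih =>
    rw [pc_eq (a * 2 ^ (k + 1) + b), pc_eq b]
    have h1 : (a * 2 ^ (k + 1) + b) % 2 = b % 2 := by
      rw [pow_succ, ← mul_assoc]; omega
    have h2 : (a * 2 ^ (k + 1) + b) / 2 = a * 2 ^ k + b / 2 := by
      rw [pow_succ, ← mul_assoc]; omega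
    rw [h1, h2, ih (b / 2) (by rw [pow_succ] at hb; omega)]
    ring

lemma pc_mul_two_pow (k a : ℕ) : pc (a * 2 ^ k) = pc a := by
  have := pc_split k a 0 (by positivity)
  simpa using this

/-! ### digit counts of rationals -/

/-- number of binary digits `1` of `c` at positions `≤ i`. -/
def N (c : ℚ) (i : ℕ) : ℕ := pc ⌊c * 2 ^ i⌋₊

lemma floor_half (x : ℚ) : ⌊x / 2⌋₊ = ⌊x⌋₊ / 2 := by
  have := Nat.floor_div_natCast x 2
  simpa using this

lemma N_succ_floor (c : ℚ) (i : ℕ) : ⌊c * 2 ^ i⌋₊ = ⌊c * 2 ^ (i + 1)⌋₊ / 2 := by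
  rw [← floor_half]
  congr 1
  rw [pow_succ]; ring

lemma N_mono (c : ℚ) (i : ℕ) : N c i ≤ N c (i + 1) := by
  unfold N
  rw [N_succ_floor]
  exact pc_half_le _

lemma N_double (c : ℚ) (i : ℕ) : N (2 * c) i = N c (i + 1) := by
  unfold N
  congr 2
  rw [pow_succ]; ring

lemma N_zero_of_lt {c : ℚ} {k i : ℕ} (h : c < pw k) (hi : i ≤ k) : N c i = 0 := by
  unfold N
  have : ⌊c * 2 ^ i⌋₊ = 0 := by
    rw [Nat.floor_eq_zero]
    have h1 : c < pw i := lt_of_lt_of_le h (pw_le_pw hi)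
    have h2 : (0 : ℚ) < 2 ^ i := by positivity
    calc c * 2 ^ i < pw i * 2 ^ i := mul_lt_mul_of_pos_right h1 h2
      _ = 1 := pw_mul_two_pow i
  rw [this]; simp

lemma N_pos_of_le {c : ℚ} {k i : ℕ} (h : pw k ≤ c) (hi : k ≤ i) : 1 ≤ N c i := by
  unfold N
  apply pc_pos
  rw [Nat.floor_pos]
  have h1 : pw i ≤ c := le_trans (pw_le_pw hi) h
  calc (1 : ℚ) = pw i * 2 ^ i := (pw_mul_two_pow i).symm
    _ ≤ c * 2 ^ i := by
      have : (0 : ℚ) < 2 ^ i := by positivity
      exact mul_le_mul_of_nonneg_right h1 this.le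

lemma pw_mul_pow_of_le {k i : ℕ} (h : k ≤ i) : pw k * 2 ^ i = ((2 ^ (i - k) : ℕ) : ℚ) := by
  obtain ⟨d, rfl⟩ := Nat.exists_eq_add_of_le h
  rw [pow_add, ← mul_assoc, pw_mul_two_pow, one_mul]
  simp

lemma N_pw (k i : ℕ) : N (pw k) i = if k ≤ i then 1 else 0 := by
  split_ifs with h
  · unfold N
    rw [pw_mul_pow_of_le h, Nat.floor_natCast]
    have := pc_mul_two_pow (i - k) 1
    rw [one_mul] at this
    rw [this, pc_one]
  · push Not at h
    exact N_zero_of_lt (k := i) (pw_lt_pw h) le_rfl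

lemma N_add_pw_le {c : ℚ} (hc : 0 ≤ c) (k i : ℕ) : N (c + pw k) i ≤ N c i + 1 := by
  unfold N
  by_cases h : k ≤ i
  · have e : (c + pw k) * 2 ^ i = c * 2 ^ i + ((2 ^ (i - k) : ℕ) : ℚ) := by
      rw [add_mul, pw_mul_pow_of_le h]
    rw [e, Nat.floor_add_natCast (by positivity)]
    exact pc_add_two_pow_le _ _
  · push Not at h
    have h1 : (c + pw k) * 2 ^ i < c * 2 ^ i + 1 := by
      have : pw k * 2 ^ i < 1 := by
        calc pw k * 2 ^ i < pw i * 2 ^ i := by
              have : (0 : ℚ) < 2 ^ i := by positivity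
              exact mul_lt_mul_of_pos_right (pw_lt_pw h) this
          _ = 1 := pw_mul_two_pow i
      rw [add_mul]; linarith
    have h2 : c * 2 ^ i ≤ (c + pw k) * 2 ^ i := by
      have h3 : (0 : ℚ) < 2 ^ i := by positivity
      have h4 := pw_pos k
      nlinarith
    have h3 : ⌊c * 2 ^ i⌋₊ ≤ ⌊(c + pw k) * 2 ^ i⌋₊ := Nat.floor_le_floor h2
    have h4 : ⌊(c + pw k) * 2 ^ i⌋₊ ≤ ⌊c * 2 ^ i⌋₊ + 1 := by
      have : ⌊(c + pw k) * 2 ^ i⌋₊ ≤ ⌊c * 2 ^ i + 1⌋₊ := Nat.floor_le_floor h1.le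
      rw [show c * 2 ^ i + 1 = c * 2 ^ i + ((1 : ℕ) : ℚ) by simp] at this
      rwa [Nat.floor_add_natCast (by positivity)] at this
    rcases Nat.eq_or_lt_of_le h3 with h5 | h5
    · rw [← h5]; omega
    · have : ⌊(c + pw k) * 2 ^ i⌋₊ = ⌊c * 2 ^ i⌋₊ + 1 := by omega
      rw [this]
      exact pc_succ_le _

lemma floor_pow_div (c : ℚ) (i d : ℕ) : ⌊c * 2 ^ i⌋₊ = ⌊c * 2 ^ (i + d)⌋₊ / 2 ^ d := by
  have := Nat.floor_div_natCast (c * 2 ^ (i + d)) (2 ^ d)
  rw [← this]
  congr 1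
  rw [pow_add]
  have h : (0 : ℚ) < 2 ^ d := by positivity
  push_cast
  field_simp

/-- splitting at a dyadic scale. -/
lemma N_split {k : ℕ} {a b : ℚ} (ha : Mu k a) (ha0 : 0 ≤ a) (hb0 : 0 ≤ b) (hb : b < pw k)
    (i : ℕ) : N (a + b) i = N a i + N b i := by
  obtain ⟨z, rfl⟩ := ha
  have hp := pw_pos k
  have hz : 0 ≤ z := by
    have : (0 : ℚ) ≤ z := nonneg_of_mul_nonneg_left ha0 hp
    exact_mod_cast this
  obtain ⟨n, rfl⟩ := Int.eq_ofNat_of_zero_le hz
  have key : ∀ i, k ≤ i → ⌊((n : ℤ) * pw k + b) * 2 ^ i⌋₊ = n * 2 ^ (i - k) + ⌊b * 2 ^ i⌋₊ ∧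
      ⌊((n : ℤ) * pw k : ℚ) * 2 ^ i⌋₊ = n * 2 ^ (i - k) ∧ ⌊b * 2 ^ i⌋₊ < 2 ^ (i - k) := by
    intro i hi
    have e1 : (((n : ℤ) : ℚ) * pw k) * 2 ^ i = ((n * 2 ^ (i - k) : ℕ) : ℚ) := by
      rw [mul_assoc, pw_mul_pow_of_le hi]; push_cast; ring
    refine ⟨?_, ?_, ?_⟩
    · rw [add_mul, e1, add_comm, Nat.floor_add_natCast (by positivity)]
      ring
    · rw [e1, Nat.floor_natCast]
    · rw [Nat.floor_lt (by positivity)]
      rw [← pw_mul_pow_of_le hi]
      exact mul_lt_mul_of_pos_right hb (by positivity)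
  by_cases h : k ≤ i
  · obtain ⟨h1, h2, h3⟩ := key i h
    unfold N
    rw [h1, h2, pc_split _ _ _ h3, pc_mul_two_pow]
  · push Not at h
    have hN : N b i = 0 := N_zero_of_lt hb h.le
    rw [hN]
    obtain ⟨d, rfl⟩ := Nat.exists_eq_add_of_le h.le
    obtain ⟨h1, h2, h3⟩ := key (i + d) le_rfl
    simp only [Nat.sub_self, pow_zero, mul_one, Nat.lt_one_iff] at h1 h2 h3
    unfold N
    rw [floor_pow_div _ i d, floor_pow_div ((n : ℤ) * pw (i + d)) i d, h1, h2, h3]
    simp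

/-! ### domination -/

/-- `c' ⊴ c`: the binary digits of `c'` are later and fewer than those of `c`. -/
def Dm (c' c : ℚ) : Prop := ∀ i, N c' i ≤ N c i

lemma Dm.refl (c : ℚ) : Dm c c := fun _ => le_rfl

lemma Dm.trans {a b c : ℚ} (h1 : Dm a b) (h2 : Dm b c) : Dm a c := fun i => (h1 i).trans (h2 i)

lemma Dm.double {a b : ℚ} (h : Dm a b) : Dm (2 * a) (2 * b) := by
  intro i
  rw [N_double, N_double]
  exact h _

lemma Dm.two_pow_mul {a b : ℚ} (h : Dm a b) (k : ℕ) : Dm (2 ^ k * a) (2 ^ k * b) := by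
  induction k with
  | zero => simpa using h
  | succ k ih =>
    have := ih.double
    rw [pow_succ]
    convert this using 1 <;> ring

lemma Dm.pw_le {k : ℕ} {c : ℚ} (h : pw k ≤ c) : Dm (pw k) c := by
  intro i
  rw [N_pw]
  split_ifs with hi
  · exact N_pos_of_le h hi
  · exact Nat.zero_le _

lemma Dm.half {c : ℚ} : Dm (c / 2) c := by
  intro i
  cases i with
  | zero =>
    have e1 : N (c / 2) 0 = pc (⌊c⌋₊ / 2) := by
      unfold N
      rw [pow_zero, mul_one, floor_half]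
    have e2 : N c 0 = pc ⌊c⌋₊ := by
      unfold N; rw [pow_zero, mul_one]
    rw [e1, e2]
    exact pc_half_le _
  | succ i =>
    have : N (c / 2) (i + 1) = N c i := by
      rw [← N_double]
      congr 1; ring
    rw [this]
    exact N_mono _ _

/-- removing a top part. -/
lemma Dm.top {k : ℕ} {a b : ℚ} (ha : Mu k a) (ha0 : 0 ≤ a) (hb0 : 0 < b) (hb : b ≤ pw k) :
    Dm b (a + b) := by
  rcases lt_or_eq_of_le hb with h | h
  · intro i
    rw [N_split ha ha0 hb0.le h]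
    omega
  · rw [h]
    exact Dm.pw_le (by linarith)

lemma Dm.top' {k : ℕ} {b c : ℚ} (ha : Mu k (c - b)) (ha0 : b ≤ c) (hb0 : 0 < b)
    (hb : b ≤ pw k) : Dm b c := by
  have := Dm.top ha (by linarith) hb0 hb
  have e : c - b + b = c := by ring
  rwa [e] at this

lemma N_lead {c : ℚ} {m : ℕ} (h1 : pw (m + 1) < c) (h2 : c < pw m) (i : ℕ) :
    N c i = (if m + 1 ≤ i then 1 else 0) + N (c - pw (m + 1)) i := by
  have hs := N_split (k := m + 1) (Mu.ofPw le_rfl) (pw_pos _).le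
    (b := c - pw (m + 1)) (by linarith) (by have := pw_two m; linarith) i
  rw [N_pw] at hs
  rw [← hs]
  congr 1; ring

/-- Fact (A): adding a power of two and removing the (strict) leading one. -/
lemma Dm.addA {r : ℚ} {k m : ℕ} (hr : 0 < r) (h1 : pw (m + 1) < r + pw k)
    (h2 : r + pw k ≤ pw m) : Dm (r + pw k - pw (m + 1)) r := by
  rcases lt_or_eq_of_le h2 with h | h
  · intro i
    by_cases hi : m + 1 ≤ i
    · have e := N_lead h1 h i
      rw [if_pos hi] at e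
      have := N_add_pw_le hr.le k i
      omega
    · push Not at hi
      have : r + pw k - pw (m + 1) < pw (m + 1) := by
        have := pw_two m; linarith
      rw [N_zero_of_lt this hi.le]
      omega
  · rw [h]
    have e : pw m - pw (m + 1) = pw (m + 1) := by have := pw_two m; linarith
    rw [e]
    apply Dm.pw_le
    have hk : pw k < pw m := by linarith
    have hk2 := pw_lt_iff.mp hk
    have hk3 := pw_le_pw (Nat.succ_le_of_lt hk2)
    simp only [Nat.succ_eq_add_one] at hk3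
    linarith

/-- `σ(c) ⊴ c`. -/
lemma Dm.sigma {c : ℚ} {m : ℕ} (h1 : pw (m + 1) < c) (h2 : c ≤ pw m) :
    Dm (2 * (c - pw (m + 1))) c := by
  rcases lt_or_eq_of_le h2 with h | h
  · intro i
    have e := N_lead h1 h i
    have hp := pw_two m
    rw [N_double]
    by_cases hi : m + 1 ≤ i
    · rw [if_pos hi] at e
      have hb : c - pw (m + 1) < pw (m + 1) := by linarith
      -- N (c-l) (i+1) ≤ N (c-l) i + 1
      have h3 : N (c - pw (m + 1)) (i + 1) ≤ N (c - pw (m + 1)) i + 1 := by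
        unfold N
        rw [pc_eq ⌊(c - pw (m + 1)) * 2 ^ (i + 1)⌋₊, ← N_succ_floor]
        omega
      omega
    · push Not at hi
      have hb : c - pw (m + 1) < pw (m + 1) := by linarith
      rw [N_zero_of_lt hb (by omega)]
      omega
  · have e : 2 * (c - pw (m + 1)) = c := by rw [h]; have := pw_two m; linarith
    rw [e]
    exact Dm.refl c

/-- `c - lead c ⊴ c`. -/
lemma Dm.flat {c : ℚ} {m : ℕ} (h1 : pw (m + 1) < c) (h2 : c ≤ pw m) :
    Dm (c - pw (m + 1)) c :=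
  Dm.top' (k := m + 1) (by
    have e : c - (c - pw (m + 1)) = pw (m + 1) := by ring
    rw [e]; exact Mu.ofPw le_rfl) (by have := pw_pos (m + 1); linarith) (by linarith)
    (by have := pw_two m; linarith)

/-- the step of domination. -/
lemma Dm.step {c' c : ℚ} {m' m : ℕ} (h : Dm c' c) (h1' : pw (m' + 1) < c') (h2' : c' < pw m')
    (h1 : pw (m + 1) < c) (h2 : c ≤ pw m) :
    m ≤ m' ∧ c < pw m ∧ Dm (c' - pw (m' + 1)) (c - pw (m + 1)) := by
  have hc : c < pw m := by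
    rcases lt_or_eq_of_le h2 with h3 | h3
    · exact h3
    · exfalso
      obtain ⟨k, hk⟩ := exists_pw_lt (show (0 : ℚ) < c' - pw (m' + 1) by linarith)
      have e := N_lead h1' h2' (max k (m' + 1))
      rw [if_pos (le_max_right _ _)] at e
      have e2 := N_pos_of_le hk.le (le_max_left k (m' + 1))
      have e3 := h (max k (m' + 1))
      have e4 : N c (max k (m' + 1)) ≤ 1 := by
        rw [h3, N_pw]; split_ifs <;> omega
      omega
  have hm : m ≤ m' := by
    by_contra hcon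
    push Not at hcon
    have e := h (m' + 1)
    have e1 : 1 ≤ N c' (m' + 1) := N_pos_of_le h1'.le le_rfl
    have e2 : N c (m' + 1) = 0 := N_zero_of_lt hc (by omega)
    omega
  refine ⟨hm, hc, ?_⟩
  intro i
  have e1 := N_lead h1' h2' i
  have e2 := N_lead h1 hc i
  by_cases hi : m' + 1 ≤ i
  · rw [if_pos hi] at e1
    rw [if_pos (by omega)] at e2
    have := h i
    omega
  · push Not at hi
    have : c' - pw (m' + 1) < pw (m' + 1) := by have := pw_two m'; linarith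
    rw [N_zero_of_lt this hi.le]
    omega

lemma Dm.le_pw {c' c : ℚ} {k : ℕ} (h : Dm c' c) (h0 : 0 < c') (h1 : c' ≤ 1) (hc : c ≤ pw k) :
    c' ≤ pw k := by
  obtain ⟨m, hm1, hm2⟩ := exists_lead h0 h1
  by_contra hcon
  push Not at hcon
  have hmk : m < k := by
    have := pw_lt_iff.mp (lt_of_lt_of_le hcon hm2)
    exact this
  have e1 : 1 ≤ N c' (m + 1) := N_pos_of_le hm1.le le_rfl
  have e2 := h (m + 1)
  rcases lt_or_eq_of_le hc with h3 | h3
  · have : N c (m + 1) = 0 := N_zero_of_lt h3 (by omega)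
    omega
  · rw [h3, N_pw] at e2
    split_ifs at e2 with h4
    · have hk : k = m + 1 := by omega
      subst hk
      rcases lt_or_eq_of_le hm2 with h5 | h5
      · obtain ⟨j, hj⟩ := exists_pw_lt (show (0 : ℚ) < c' - pw (m + 1) by linarith)
        have e := N_lead hm1 h5 (max j (m + 1))
        rw [if_pos (le_max_right _ _)] at e
        have e2 := N_pos_of_le hj.le (le_max_left j (m + 1))
        have e3 := h (max j (m + 1))
        have e4 : N c (max j (m + 1)) ≤ 1 := by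
          rw [h3, N_pw]; split_ifs <;> omega
        omega
      · have e5 : 1 ≤ N c' m := N_pos_of_le (by rw [h5]) le_rfl
        have e6 := h m
        rw [h3, N_pw, if_neg (by omega)] at e6
        omega
    · omega

end Pool.Agent.Lib.MP_67db36_lc
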