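import Pool.Agent.Lib.MP_67db36_lc.Core

/-!
The chain of successors above a successor, the chain case, lowering and raising moves.
-/

set_option autoImplicit false

namespace Pool.Agent.Lib.MP_67db36_lc

section below

variable {t : ℚ}

/-- the successor of a real `r`. -/
lemma succ_frame (H : ∀ q, Fus q → q < t → Tm q) {r z : ℚ} (hr : 0 ≤ r) (hz : Fus z)
    (hrz : r < z) (hzt : z < t) :
    ∃ v i, Sc v i ∧ Fus v ∧ v - pw i ≤ r ∧ r < v ∧ v < t ∧ ∀ z, Fus z → r < z → v ≤ z := by
  obtain ⟨v, h1, h2, h3⟩ := Fus.exists_succ r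
  have hvt : v < t := lt_of_le_of_lt (h3 z hz hrz) hzt
  obtain ⟨i, hi⟩ := exists_str H v h1 hvt
  have hpi := pw_pos i
  have hsc : Sc v i := by
    rcases hi.cases h1 with h | h | h
    · subst h; linarith
    · exact h
    · exfalso
      obtain ⟨j, hj⟩ := exists_pw_lt (show (0 : ℚ) < v - r by linarith)
      have a1 := h.2.2 (max i j) (le_max_left _ _)
      have a2 := pw_le_pw (le_max_right i j)
      have a3 := h3 _ a1 (by linarith)
      have a4 := pw_pos (max i j)
      linarith
  refine ⟨v, i, hsc, h1, ?_, h2, hvt, h3⟩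
  by_contra hcon
  push Not at hcon
  have := h3 _ hsc.2.1 hcon
  linarith

/-- the lowering move. -/
lemma lower (H : ∀ q, Fus q → q < t → Tm q) {z y : ℚ} {i k : ℕ} (hz : Tm z) (hzt : z < t)
    (hy : Sc y i) (hik : i ≤ k) (h1 : pw (k + 1) < y + 1 - z) (h2 : y + 1 - z ≤ pw k) :
    Fus (z - pw i + pw (k + 1)) := by
  have e1 := pw_two k
  have e2 := pw_le_one k
  have e3 := pw_pos i
  have e4 := pw_le_pw hik
  have hyz : y < z := by
    have := hy.one_le
    have h5 : pw i ≤ pw 1 := pw_le_pw this
    rw [pw_one] at h5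
    linarith
  have h3 : Tm (y + 1 - (y + 1 - z)) := by
    have e : y + 1 - (y + 1 - z) = z := by ring
    rw [e]; exact hz
  have h4 := crec_dn hy hik h1 h2 h3
  obtain ⟨i', hi'⟩ := exists_str H (y - pw i) hy.2.1 (by linarith)
  have h5 := consec_lv hy.2 hi' hy.1
  have h6 : pw k ≤ pw i' := pw_le_pw (by omega)
  have h7 := dom H hy.2.1 (by linarith) hi' (c' := (2 * (y + 1 - z - pw (k + 1))) / 2)
    (by linarith) (by linarith) Dm.half (by linarith) h4
  have e : y - pw i + 1 - (2 * (y + 1 - z - pw (k + 1))) / 2 = z - pw i + pw (k + 1) := by ring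
  rw [e] at h7
  exact h7.fus

/-- two-bit elements. -/
lemma two_bit (_H : ∀ q, Fus q → q < t → Tm q) {g : ℚ} {i k l : ℕ} (hg : Fus g) (h0 : 0 < g)
    (hgt : g < t) (hi : Str g i) (hik : i ≤ k) (hkl : k + 2 ≤ l) :
    Fus (g + 1 - (pw (k + 1) + pw l)) := by
  have e0 := pw_pos l
  have e1 : pw l ≤ pw (k + 2) := pw_le_pw hkl
  have e2 := pw_two k
  have e3 := pw_two (k + 1)
  rcases hi.cases hg with h | h | h
  · subst h; exact absurd h0 (lt_irrefl _)
  · apply crec_up h hik (k := k) (by linarith) (by linarith)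
    obtain ⟨l, rfl⟩ : ∃ l', l = l' + 1 := ⟨l - 1, by omega⟩
    have e4 := pw_two l
    have e : g - pw i + 1 - 2 * (pw (k + 1) + pw (l + 1) - pw (k + 1)) =
      g - pw i + 1 - pw l := by linarith
    rw [e]
    exact h.2.1.add_one_sub_pw l
  · have h1 := (h.2.2 (k + 1) (by omega)).add_one_sub_pw l
    have e : g - pw (k + 1) + 1 - pw l = g + 1 - (pw (k + 1) + pw l) := by ring
    rwa [e] at h1

/-- the fusible numbers in `[Y, Y + (Y - Y^-))` form the chain of successors. -/
theorem chain_form (H : ∀ q, Fus q → q < t → Tm q) :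
    ∀ Y, Fus Y → Y < t → ∀ i, Sc Y i → ∀ z, Fus z → z < t → Y ≤ z → z < Y + pw i →
      ∃ j, i ≤ j ∧ z = Y + pw i - pw j := by
  apply Fus.strong_induction
  intro g hg ih hgt i hi w hw hwt hgw hwg
  have hT := H g hg hgt
  have hpi := pw_pos i
  have hsc := hi
  cases hT with
  | base k =>
    have hk := (str_base k).lv.unique hi.1.lv
    subst hk
    obtain ⟨j, rfl⟩ := hw.lt_one (by linarith)
    refine ⟨j, pw_le_iff.mp (by linarith), by ring⟩
  | @step x y z n hc hs hz h1 h2 =>
    have hm : 0 < y - x := by linarith [hc.2.2.1]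
    have hx0 := hc.nonneg
    have hgap := hc.gap_le
    have hp := pw_pos n
    have hp1 := pw_le_one n
    have hb : (y - x) * pw n ≤ y - x := by nlinarith
    have hgx : x + 1 ≤ (2 * y - x - (y - x) * pw n + z + 1) / 2 := by linarith
    obtain ⟨ix, hx⟩ := exists_str H x hc.1 (by linarith)
    obtain ⟨iy, hy⟩ := exists_str H y hc.2.1 (by linarith)
    obtain ⟨iz, hz'⟩ := exists_str H z hz.fus (by linarith)
    have hyx := consec_gap hc hy
    have hscy := sc_of_consec hc hy
    have hlv := consec_lv hc hx hy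
    have hprod : (y - x) * pw n = pw (iy + n) := by rw [hyx, pw_add]
    have hprod2 : (y - x) * pw (n + 1) = pw (iy + n + 1) := by
      rw [hyx, show iy + n + 1 = iy + (n + 1) by ring, pw_add iy]
    rw [hprod] at h1 hs hgx hgt hg hi hgw hwg hsc ih ⊢
    have hmx : Mu (iy + n) x := hx.lv.mu.mono (by omega)
    have hpp := pw_pos (iy + n)
    have hpn := pw_two (iy + n)
    rcases eq_or_lt_of_le h1 with h1 | h1
    · exfalso
      have hgeq : (2 * y - x - pw (iy + n) + z + 1) / 2 = y + 1 - pw (iy + n) := by linarith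
      rw [hgeq] at hi
      -- find a fusible number just below `g`
      obtain ⟨j, hj⟩ := exists_pw_lt hpi
      cases n with
      | zero =>
        have e : y + 1 - pw (iy + 0) = x + 1 := by simp only [add_zero]; linarith
        rw [e] at hi
        exact hi.2.2.2.2 _ (hc.1.add_one_sub_pw j) ⟨by linarith, by linarith [pw_pos j]⟩
      | succ n =>
        have := two_bit H (k := iy + n) (l := max (iy + n + 2) j) hc.2.1
          (by linarith) (by linarith) hy (by omega) (le_max_left _ _)
        have a1 := pw_le_pw (le_max_right (iy + n + 2) j)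
        have a2 := pw_pos (max (iy + n + 2) j)
        rw [show iy + (n + 1) = iy + n + 1 by ring] at hi
        exact hi.2.2.2.2 _ this ⟨by linarith, by linarith⟩
    · -- interior
      have hmz := hz'.lv.mu
      have hA : Mu (iy + n) (x + 1 - pw (iy + n)) := (hmx.add (Mu.one _)).sub (Mu.ofPw le_rfl)
      have hB : Mu (iy + n) (x + 1) := hmx.add (Mu.one _)
      have hiz : iy + n + 1 ≤ iz := by
        by_contra hcon
        have hz2 : Mu (iy + n) z := hmz.mono (by omega)
        have := hA.le_of_lt hz2 h1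
        linarith
      have hz1 : x + 1 - pw (iy + n) ≤ z - pw iz := by
        have := (hA.mono (show iy + n ≤ iz by omega)).le_of_lt hmz h1
        linarith
      have hz2 : z + pw iz ≤ x + 1 :=
        hmz.le_of_lt (hB.mono (show iy + n ≤ iz by omega)) h2
      have hz0 : 0 < z := by
        have e4 : pw (iy + n) ≤ pw 1 := pw_le_pw (by omega)
        rw [pw_one] at e4
        linarith
      have hpiz := pw_pos iz
      have hpz1 := pw_two iz
      have hpy1 : pw iy ≤ pw 1 := pw_le_pw (by omega)
      rw [pw_one] at hpy1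
      have hpyn : pw (iy + n) ≤ pw iy := pw_le_pw (by omega)
      -- `z` is of successor type
      have hscz : Sc z iz := by
        rcases hz'.cases hz.fus with h | h | h
        · exact absurd h hz0.ne'
        · exact h
        · exfalso
          obtain ⟨j, hj⟩ := exists_pw_lt hpi
          have a1 := h.2.2 (max iz j) (le_max_left _ _)
          have a2 := pw_le_pw (le_max_right iz j)
          have a3 := pw_pos (max iz j)
          have a4 := pw_le_pw (le_max_left iz j)
          have a5 : Fus ((2 * y - x - pw (iy + n) + z + 1) / 2 - pw (max iz j) / 2) :=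
            Fus.fuse' hs a1 (by linarith) (by linarith) (by ring)
          exact hi.2.2.2.2 _ a5 ⟨by linarith, by linarith⟩
      -- levels
      have hii : i = iz + 1 := by
        have a1 : Fus ((2 * y - x - pw (iy + n) + z + 1) / 2 - pw (iz + 1)) :=
          Fus.fuse' hs hscz.2.1 (by linarith) (by linarith) (by linarith)
        have a2 := hi.2.le_of_lt' a1 (by linarith [pw_pos (iz + 1)])
        apply pw_inj
        by_contra hne
        have a3 : pw i < pw (iz + 1) := lt_of_le_of_ne (by linarith) hne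
        have a4 := H _ hi.2.1 (by linarith)
        have a5 := a4.inv (n := n) hc (by rw [hprod]; linarith) (by rw [hprod2]; linarith)
        rw [hprod] at a5
        exact hscz.2.2.2.2 _ a5.fus ⟨by linarith, by linarith⟩
      subst hii
      have hTw := H w hw hwt
      have a5 := hTw.inv (n := n) hc (by rw [hprod]; linarith) (by rw [hprod2]; linarith)
      rw [hprod] at a5
      obtain ⟨j, hj1, hj2⟩ := ih z hz.fus (by linarith) (by linarith) iz hscz _ a5.fus
        (by linarith) (by linarith) (by linarith)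
      refine ⟨j + 1, by omega, ?_⟩
      have := pw_two j
      linarith

end below

namespace Ctx

variable {t a b X Y : ℚ} {iY : ℕ}

lemma scY (C : Ctx t a b X Y iY) : Sc Y iY := sc_of_consec C.hc C.sY

lemma at' (C : Ctx t a b X Y iY) : a + 1 / 2 ≤ t := by
  have := C.ab
  have := C.ht
  linarith

lemma bt (C : Ctx t a b X Y iY) : b < t := by
  have := C.hba
  have := C.ht
  linarith

lemma ta (C : Ctx t a b X Y iY) : t - 1 < a := by
  have := C.hba
  have := C.ht
  linarith

/-- the chain case is impossible. -/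
lemma ge (C : Ctx t a b X Y iY) : Y + pw iY ≤ a := by
  by_contra hcon
  push Not at hcon
  have hX := C.hX
  have hY := C.hY
  have hYX := C.hYX
  have hYt := C.Yt
  have hat := C.at'
  have hbt := C.bt
  have hta := C.ta
  have ht := C.ht
  have hpY := pw_pos iY
  obtain ⟨j, hj1, hj2⟩ := chain_form C.H Y C.YF (by linarith) iY C.scY a C.ha (by linarith)
    (C.Yle C.ha hta) hcon
  have hpj := pw_pos j
  have hpj2 := pw_le_pw hj1
  have hTb := C.H b C.hb hbt
  obtain ⟨k, hk1, hk2⟩ := exists_lead (c := Y + 1 - t) (by linarith)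
    (by have := pw_le_one iY; linarith)
  have hkY := lead_ge hk1 (show Y + 1 - t ≤ pw iY by linarith)
  by_cases hα : pw j < 2 * (Y + 1 - t)
  · obtain ⟨iX, hiX⟩ := exists_str C.H X C.XF (by linarith)
    have h1 := consec_lv C.hc hiX C.sY
    have h2 : 2 * pw iY ≤ pw iX := by
      have := pw_two iX
      have h3 := pw_le_pw h1
      linarith
    apply C.nT
    have hgoal : Tm (Y - pw iY + 1 - 2 * (Y + 1 - t - pw (k + 1))) := by
      have e1 : Y - pw iY = X := by linarith
      rw [e1]
      have hk0 : 1 ≤ k := le_trans C.iY1 hkY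
      obtain ⟨k, rfl⟩ : ∃ k', k = k' + 1 := ⟨k - 1, by omega⟩
      have e2 := pw_two (k + 1)
      have e3 := pw_two k
      have e4 := pw_le_one (k + 1)
      have hA := Dm.addA (r := 2 * (Y + 1 - t) - pw j) (k := j) (m := k) (by linarith)
        (by linarith) (by linarith)
      have e5 : 2 * (Y + 1 - t) - pw j + pw j - pw (k + 1) =
        2 * (Y + 1 - t - pw (k + 1 + 1)) := by linarith
      rw [e5] at hA
      have e6 : b = X + 1 - (2 * (Y + 1 - t) - pw j) := by linarith
      rw [e6] at hTb
      exact dom C.H C.XF (by linarith) hiX (by linarith) (by linarith) hA (by linarith) hTb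
    have := crec_upT C.scY hkY hk1 hk2 hgoal
    have e : Y + 1 - (Y + 1 - t) = t := by ring
    rwa [e] at this
  · push Not at hα
    have e6 : b = Y + 1 - (pw iY - pw j + 2 * (Y + 1 - t)) := by linarith
    rw [e6] at hTb
    refine C.SC0 C.YF le_rfl C.sY (by linarith) hTb ?_
    have d1 : Dm (Y + 1 - t) (2 * (Y + 1 - t)) := by
      have := Dm.half (c := 2 * (Y + 1 - t))
      have e : 2 * (Y + 1 - t) / 2 = Y + 1 - t := by ring
      rwa [e] at this
    refine d1.trans (Dm.top' (k := j) ?_ (by linarith) (by linarith) hα)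
    have e : pw iY - pw j + 2 * (Y + 1 - t) - 2 * (Y + 1 - t) = pw iY - pw j := by ring
    rw [e]
    exact (Mu.ofPw hj1).sub (Mu.ofPw le_rfl)

lemma gap2 (C : Ctx t a b X Y iY) : b - 1 + 2 * pw iY < a := by
  have := C.ge
  have := C.hY
  have := C.ht
  linarith

lemma one_le_a (C : Ctx t a b X Y iY) : 1 ≤ a := by
  by_contra hcon
  push Not at hcon
  have h1 := C.ge
  have h2 := pw_pos iY
  obtain ⟨k, hk⟩ := C.YF.lt_one (by linarith)
  have h3 : k = iY := by
    have := C.sY.lv
    rw [hk] at this
    exact (str_base k).lv.unique this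
  subst h3
  linarith

lemma one_le_b (C : Ctx t a b X Y iY) : 1 ≤ b := C.one_le_a.trans C.ab

/-- bound for the gap at `t - 1`. -/
lemma sandwich (C : Ctx t a b X Y iY) {z1 z2 : ℚ} {l : ℕ} (h1 : Fus z1) (h2 : Fus z2)
    (h3 : z1 ≤ t - 1) (h4 : t - 1 < z2) (h5 : z2 - z1 ≤ pw l) : l ≤ iY := by
  have h6 := C.Yle h2 h4
  have h7 := C.leX h1 (lt_of_le_of_lt h3 C.hY)
  have h8 := C.hYX
  exact pw_le_iff.mp (by linarith)

end Ctx

end Pool.Agent.Lib.MP_67db36_lc
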