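import Pool.Agent.Lib.MP_67db36_lc.DomMono

/-!
The context of a minimal counterexample and the success criteria.
-/

set_option autoImplicit false

namespace Pool.Agent.Lib.MP_67db36_lc

/-- A minimal non-tame fusible number `t = a ~ b` with `a` minimal, and the consecutive pair
`X < Y` around `t - 1`. -/
structure Ctx (t a b X Y : ℚ) (iY : ℕ) : Prop where
  H : ∀ q, Fus q → q < t → Tm q
  nT : ¬ Tm t
  ha : Fus a
  hb : Fus b
  hab : a - b < 1
  hba : b - a < 1
  ht : 2 * t = a + b + 1
  hmin : ∀ a' b', Fus a' → Fus b' → a' + b' = a + b → a' - b' < 1 → b' - a' < 1 → a ≤ a'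
  hc : Consec X Y
  hX : X ≤ t - 1
  hY : t - 1 < Y
  sY : Str Y iY

namespace Ctx

variable {t a b X Y : ℚ} {iY : ℕ}

lemma hYX (C : Ctx t a b X Y iY) : Y - X = pw iY := consec_gap C.hc C.sY

lemma Yt (C : Ctx t a b X Y iY) : Y + 1 / 2 ≤ t := by
  have := C.hc.gap_le
  have := C.hX
  linarith

lemma YF (C : Ctx t a b X Y iY) : Fus Y := C.hc.2.1

lemma XF (C : Ctx t a b X Y iY) : Fus X := C.hc.1

lemma iY1 (C : Ctx t a b X Y iY) : 1 ≤ iY := (sc_of_consec C.hc C.sY).one_le

/-- every fusible number above `t - 1` is at least `Y`. -/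
lemma Yle (C : Ctx t a b X Y iY) {z : ℚ} (hz : Fus z) (h : t - 1 < z) : Y ≤ z :=
  C.hc.le_of_lt hz (lt_of_le_of_lt C.hX h)

lemma leX (C : Ctx t a b X Y iY) {z : ℚ} (hz : Fus z) (h : z < Y) : z ≤ X :=
  C.hc.le_of_lt' hz h

lemma ab (C : Ctx t a b X Y iY) : a ≤ b :=
  C.hmin b a C.hb C.ha (by ring) C.hba C.hab

lemma X0 (C : Ctx t a b X Y iY) : 0 ≤ X := C.XF.nonneg

/-- Success criterion: domination by a known element of `C_ζ`, `ζ ≤ Y`. -/
lemma SC0 (C : Ctx t a b X Y iY) {ζ c : ℚ} {iζ : ℕ} (hζ : Fus ζ) (hζY : ζ ≤ Y)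
    (hS : Str ζ iζ) (hc : c ≤ pw iζ) (hT : Tm (ζ + 1 - c)) (hd : Dm (Y + 1 - t) c) : False := by
  have h1 := C.hYX
  have h2 := C.hX
  have h3 := C.hY
  have h4 := C.Yt
  have h5 := pw_le_one iY
  have h6 := dom C.H hζ (by linarith) hS (c' := Y + 1 - t) (by linarith) (by linarith) hd hc hT
  rcases eq_or_lt_of_le hζY with h7 | h7
  · apply C.nT
    rw [h7] at h6
    have e : Y + 1 - (Y + 1 - t) = t := by ring
    rwa [e] at h6
  · have h8 := hd.le_pw (by linarith) (by linarith) hc
    have h9 := mono C.H C.YF (by linarith) C.sY hζ h7 hS (c := Y + 1 - t) (by linarith) h8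
      (by linarith) h6
    apply C.nT
    have e : Y + 1 - (Y + 1 - t) = t := by ring
    rwa [e] at h9

/-- the multiple of `2^{-l}` just above `t - 1`, for `2^{-l} > Y - X`. -/
lemma nu (C : Ctx t a b X Y iY) {l : ℕ} (hl1 : 1 ≤ l) (hl : l < iY) :
    ∃ ν, Fus ν ∧ Mu l ν ∧ t - 1 < ν ∧ ν ≤ t - 1 + pw l ∧ Y < ν ∧ Fus (ν - pw l) := by
  have h1 := pw_le_pw hl1
  rw [pw_one] at h1
  have hX := C.hX
  have hY := C.hY
  have hX0 := C.X0
  obtain ⟨ν, h2, h3, h4, h5⟩ := anc C.H (r := t - 1) (by linarith) C.YF hY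
    (fun z hz hz2 => C.Yle hz hz2) C.sY hl.le (by linarith)
  have h6 : Y ≤ ν := C.Yle h2 h4
  have h7 : Y ≠ ν := by
    rintro rfl
    have := (C.sY.lv l).mp h3
    omega
  have h8 : Y < ν := lt_of_le_of_ne h6 h7
  refine ⟨ν, h2, h3, h4, h5, h8, ?_⟩
  obtain ⟨i, hi⟩ := exists_str C.H ν h2 (by linarith)
  have h9 := (hi.lv l).mp h3
  have h10 := pw_le_pw h9
  have h11 := lm_of_between hi h2 C.YF (by linarith) h8
  exact h11.2.2 l h9

lemma SC1a (C : Ctx t a b X Y iY) {l : ℕ} (hl1 : 1 ≤ l) (hl : l ≤ iY)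
    (h : Fus (t - pw l)) : False := by
  have hX := C.hX
  have hY := C.hY
  have hYX := C.hYX
  have hYt := C.Yt
  have hpl := pw_pos l
  have hTl := C.H _ h (by linarith)
  rcases Nat.eq_or_lt_of_le hl with hl2 | hl2
  · subst hl2
    obtain ⟨iX, hiX⟩ := exists_str C.H X C.XF (by linarith)
    have h1 := consec_lv C.hc hiX C.sY
    have h2 : pw l ≤ pw iX := pw_le_pw (by omega)
    have e : t - pw l = X + 1 - (Y + 1 - t) := by linarith
    rw [e] at hTl
    exact C.SC0 C.XF (by linarith) hiX (by linarith) hTl (Dm.refl _)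
  · obtain ⟨ν, h2, h3, h4, h5, h6, h7⟩ := C.nu hl1 hl2
    obtain ⟨iζ, hiζ⟩ := exists_str C.H _ h7 (by
      have := pw_le_pw hl1
      rw [pw_one] at this
      linarith)
    have h8 : Mu l (ν - pw l) := h3.sub (Mu.ofPw le_rfl)
    have h9 := (hiζ.lv l).mp h8
    have h10 := pw_le_pw h9
    have e : t - pw l = ν - pw l + 1 - (ν + 1 - t) := by ring
    rw [e] at hTl
    refine C.SC0 h7 (by linarith) hiζ (by linarith) hTl ?_
    refine Dm.top' (k := iY) ?_ (by linarith) (by linarith) (by linarith)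
    have e2 : ν + 1 - t - (Y + 1 - t) = ν - Y := by ring
    rw [e2]
    exact (h3.mono (by omega)).sub C.sY.lv.mu

lemma SC1b (C : Ctx t a b X Y iY) {l l' : ℕ} (hl1 : 1 ≤ l) (hll : l < l')
    (h : Fus (t - pw l + pw l')) (hor : l < iY ∨ Y + 1 - t ≤ pw l') : False := by
  have hX := C.hX
  have hY := C.hY
  have hYX := C.hYX
  have hYt := C.Yt
  have hpl := pw_pos l
  have hpl' := pw_pos l'
  have hplt := pw_lt_pw hll
  have hl2 := pw_le_pw hl1
  rw [pw_one] at hl2
  have hT0 := C.H _ h (by linarith)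
  by_cases hlY : l < iY
  · obtain ⟨ν, h2, h3, h4, h5, h6, h7⟩ := C.nu hl1 hlY
    obtain ⟨iζ, hiζ⟩ := exists_str C.H _ h7 (by linarith)
    have h8 : Mu l (ν - pw l) := h3.sub (Mu.ofPw le_rfl)
    have h9 := (hiζ.lv l).mp h8
    have h10 := pw_le_pw h9
    have hνY : Mu iY (ν - Y) := (h3.mono (by omega)).sub C.sY.lv.mu
    have hνY2 : Y + pw iY ≤ ν := C.sY.lv.mu.le_of_lt (h3.mono (by omega)) h6
    have hpY := pw_pos iY
    by_cases hcν : pw l' < ν + 1 - t
    · -- `c_ν > p'`
      obtain ⟨m, hm1, hm2⟩ := exists_lead (c := ν + 1 - t) (by linarith)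
        (by have := pw_le_one l; linarith)
      have hmY : m < iY := pw_lt_iff.mp (show pw iY < pw m by linarith)
      have e : t - pw l + pw l' = ν - pw l + 1 - (ν + 1 - t - pw l') := by ring
      rw [e] at hT0
      refine C.SC0 h7 (by linarith) hiζ (by linarith) hT0 ?_
      have d1 : Dm (ν + 1 - t - pw (m + 1)) (ν + 1 - t - pw l') := by
        have := Dm.addA (r := ν + 1 - t - pw l') (k := l') (m := m) (by linarith) (by linarith)
          (by linarith)
        have e : ν + 1 - t - pw l' + pw l' - pw (m + 1) = ν + 1 - t - pw (m + 1) := by ring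
        rwa [e] at this
      refine Dm.trans ?_ d1
      have hMu : Mu iY (ν - Y - pw (m + 1)) := hνY.sub (Mu.ofPw (by omega))
      refine Dm.top' (k := iY) ?_ ?_ (by linarith) (by linarith)
      · have e : ν + 1 - t - pw (m + 1) - (Y + 1 - t) = ν - Y - pw (m + 1) := by ring
        rw [e]; exact hMu
      · by_contra hcon
        push Not at hcon
        have h11 : ν - Y - pw (m + 1) < 0 := by linarith
        have h12 := hMu.le_of_lt (Mu.zero _) h11
        linarith
    · -- `c_ν ≤ p'`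
      push Not at hcν
      have hζ0 := h7.nonneg
      have hpl2' : 2 * pw l' ≤ pw l := by
        have a1 := pw_le_pw (Nat.succ_le_of_lt hll)
        have a2 := pw_two l
        simp only [Nat.succ_eq_add_one] at a1
        linarith
      have hdν : Dm (Y + 1 - t) (ν + 1 - t) := by
        refine Dm.top' (k := iY) ?_ (by linarith) (by linarith) (by linarith)
        have e2 : ν + 1 - t - (Y + 1 - t) = ν - Y := by ring
        rw [e2]; exact hνY
      -- `r0 = t0 - 1`
      set r0 := t - pw l + pw l' - 1 with hr0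
      have hr0' : r0 = ν - pw l + pw l' - (ν + 1 - t) := by rw [hr0]; ring
      obtain ⟨Y0, hY0, hrY0, hmin0⟩ := Fus.exists_succ r0
      have hY0Y : Y0 ≤ Y := hmin0 _ C.YF (by linarith)
      obtain ⟨i0, hi0⟩ := exists_str C.H Y0 hY0 (by linarith)
      by_cases hi0l : l' ≤ i0
      · obtain ⟨κ, k1, k2, k3, k4⟩ := anc C.H (r := r0) (by linarith) hY0 hrY0 hmin0 hi0 hi0l
          (by linarith)
        have hκ : κ = ν - pw l + pw l' := by
          have m1 : Mu l' (ν - pw l + pw l') :=
            ((h3.mono hll.le).sub (Mu.ofPw hll.le)).add (Mu.ofPw le_rfl)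
          rcases lt_trichotomy κ (ν - pw l + pw l') with h | h | h
          · have := k2.le_of_lt m1 h
            linarith
          · exact h
          · have := m1.le_of_lt k2 h
            linarith
        obtain ⟨iκ, hiκ⟩ := exists_str C.H κ k1 (by linarith)
        have h12 := pw_le_pw ((hiκ.lv _).mp k2)
        have e : t - pw l + pw l' = κ + 1 - (ν + 1 - t) := by rw [hκ]; ring
        rw [e] at hT0
        exact C.SC0 k1 (by linarith) hiκ (by linarith) hT0 hdν
      · push Not at hi0l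
        have hY0pos : 0 < Y0 := by linarith
        have hX0F := hi0.dn hY0pos
        have hX0r : Y0 - pw i0 ≤ r0 := by
          by_contra hcon
          push Not at hcon
          have := hmin0 _ hX0F hcon
          linarith [pw_pos i0]
        have hcons : Consec (Y0 - pw i0) Y0 := by
          refine ⟨hX0F, hY0, by linarith [pw_pos i0], ?_⟩
          rintro z hz ⟨hz1, hz2⟩
          rcases hi0.ty hY0pos with hty | hty
          · obtain ⟨j, hj⟩ := exists_pw_lt (show (0 : ℚ) < Y0 - r0 by linarith)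
            have a1 := hty (max i0 j) (le_max_left _ _)
            have a2 := pw_le_pw (le_max_right i0 j)
            have a3 := hmin0 _ a1 (by linarith)
            have a4 := pw_pos (max i0 j)
            linarith
          · exact hty z hz ⟨hz1, hz2⟩
        have hζX0 : ν - pw l ≤ Y0 - pw i0 := hcons.le_of_lt' h7 (by linarith)
        have hY0ν : Y0 ≤ ν := hmin0 _ h2 (by linarith)
        have hpi0 := pw_lt_pw hi0l
        have hX0eq : Y0 - pw i0 = ν - pw l := by
          by_contra hne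
          have hlt : ν - pw l < Y0 - pw i0 := lt_of_le_of_ne hζX0 (Ne.symm hne)
          have m2 : Mu i0 (Y0 - pw i0) := hi0.lv.mu.sub (Mu.ofPw le_rfl)
          by_cases hli : l ≤ i0
          · have := (h8.mono hli).le_of_lt m2 hlt
            linarith
          · push Not at hli
            have := pw_lt_pw hli
            linarith
        have e : t - pw l + pw l' = Y0 + 1 - (pw i0 - pw l' + (ν + 1 - t)) := by linarith
        rw [e] at hT0
        refine C.SC0 hY0 hY0Y hi0 (by linarith) hT0 ?_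
        refine hdν.trans ?_
        refine Dm.top' (k := l') ?_ (by linarith) (by linarith) hcν
        have e2 : pw i0 - pw l' + (ν + 1 - t) - (ν + 1 - t) = pw i0 - pw l' := by ring
        rw [e2]
        exact (Mu.ofPw hi0l.le).sub (Mu.ofPw le_rfl)
  · have hct : Y + 1 - t ≤ pw l' := by
      rcases hor with h | h
      · exact absurd h hlY
      · exact h
    push Not at hlY
    have h1 := pw_le_pw hlY
    have e : t - pw l + pw l' = Y + 1 - (Y + 1 - t + pw l - pw l') := by ring
    rw [e] at hT0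
    refine C.SC0 C.YF le_rfl C.sY (by linarith) hT0 ?_
    refine Dm.top' (k := l') ?_ (by linarith) (by linarith) hct
    have e2 : Y + 1 - t + pw l - pw l' - (Y + 1 - t) = pw l - pw l' := by ring
    rw [e2]
    exact (Mu.ofPw hll.le).sub (Mu.ofPw le_rfl)

/-- pair version of `SC1a`. -/
lemma scA (C : Ctx t a b X Y iY) {a0 b0 : ℚ} (h1 : Fus a0) (h2 : Fus b0) (h3 : a0 - b0 < 1)
    (h4 : b0 - a0 < 1) {l : ℕ} (hl1 : 1 ≤ l) (hs : a0 + b0 = a + b - 2 * pw l)
    (hl : l ≤ iY) : False := by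
  apply C.SC1a hl1 hl
  have := C.ht
  exact Fus.fuse' h1 h2 h3 h4 (by linarith)

/-- pair version of `SC1b`. -/
lemma scB (C : Ctx t a b X Y iY) {a0 b0 : ℚ} (h1 : Fus a0) (h2 : Fus b0) (h3 : a0 - b0 < 1)
    (h4 : b0 - a0 < 1) {l l' : ℕ} (hl1 : 1 ≤ l) (hll : l < l')
    (hs : a0 + b0 = a + b - 2 * (pw l - pw l'))
    (hl : l < iY ∨ Y + 1 - t ≤ pw l') : False := by
  apply C.SC1b hl1 hll _ hl
  have := C.ht
  exact Fus.fuse' h1 h2 h3 h4 (by linarith)

/-- exchange contradicts minimality of `a`. -/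
lemma exch (C : Ctx t a b X Y iY) {d : ℚ} (hd : 0 < d) (h1 : Fus (a - d)) (h2 : Fus (b + d))
    (h3 : b - 1 + d < a - d) : False := by
  have hab := C.ab
  have := C.hmin (a - d) (b + d) h1 h2 (by ring) (by linarith) (by linarith)
  linarith

end Ctx

end Pool.Agent.Lib.MP_67db36_lc
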