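import Pool.Agent.Lib.MP_67db36_lc.Tame

/-!
Ancestors, the recursion for `C_g`, the domination lemma and the monotonicity lemma.
-/

set_option autoImplicit false

namespace Pool.Agent.Lib.MP_67db36_lc

/-- `g` is of successor type (with level `i`). -/
def Sc (g : ℚ) (i : ℕ) : Prop := Str g i ∧ Consec (g - pw i) g

/-- `g` is of limit type (with level `i`). -/
def Lm (g : ℚ) (i : ℕ) : Prop := Str g i ∧ 0 < g ∧ ∀ j, i ≤ j → Fus (g - pw j)

lemma Str.cases {g : ℚ} {i : ℕ} (h : Str g i) (hg : Fus g) : g = 0 ∨ Sc g i ∨ Lm g i := by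
  rcases eq_or_lt_of_le hg.nonneg with h0 | h0
  · left; exact h0.symm
  · right
    rcases h.ty h0 with h1 | h1
    · right; exact ⟨h, h0, h1⟩
    · left; exact ⟨h, h.dn h0, hg, by linarith [pw_pos i], h1⟩

lemma Sc.one_le {g : ℚ} {i : ℕ} (h : Sc g i) : 1 ≤ i := by
  have h1 := h.2.gap_le
  have h2 : pw i ≤ pw 1 := by rw [pw_one]; linarith
  exact pw_le_iff.mp h2

lemma sc_of_consec {x y : ℚ} {i : ℕ} (hc : Consec x y) (hy : Str y i) : Sc y i := by
  have := consec_gap hc hy
  have e : y - pw i = x := by linarith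
  exact ⟨hy, by rw [e]; exact hc⟩

lemma Sc.not_lm {g : ℚ} {i j : ℕ} (h : Sc g i) (h' : Lm g j) : False := by
  have e := h.1.lv.unique h'.1.lv
  subst e
  have h1 := h'.2.2 (i + 1) (by omega)
  have h2 := pw_two i
  have h3 := pw_pos (i + 1)
  exact h.2.2.2.2 _ h1 ⟨by linarith, by linarith⟩

lemma crec_up {g c : ℚ} {i k : ℕ} (hg : Sc g i) (hk : i ≤ k) (h1 : pw (k + 1) < c)
    (h2 : c ≤ pw k) (h : Fus (g - pw i + 1 - 2 * (c - pw (k + 1)))) : Fus (g + 1 - c) := by
  have hi := hg.one_le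
  have e1 := pw_two k
  have e2 : pw i ≤ pw 1 := pw_le_pw hi
  rw [pw_one] at e2
  have e3 := pw_le_pw hk
  have e4 := pw_pos k
  exact Fus.fuse' (hg.1.upl k hk) h (by linarith) (by linarith) (by linarith)

lemma crec_upT {g c : ℚ} {i k : ℕ} (hg : Sc g i) (hk : i ≤ k) (h1 : pw (k + 1) < c)
    (h2 : c ≤ pw k) (h : Tm (g - pw i + 1 - 2 * (c - pw (k + 1)))) : Tm (g + 1 - c) := by
  have e1 := pw_two k
  obtain ⟨n, rfl⟩ := Nat.exists_eq_add_of_le hk
  have e5 : (g - (g - pw i)) * pw n = pw (i + n) := by rw [pw_add]; ring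
  have e6 : 2 * g - (g - pw i) - (g - (g - pw i)) * pw n = g + pw i - pw (i + n) := by
    rw [e5]; ring
  have := Tm.step n hg.2 (by rw [e6]; exact hg.1.upl _ hk) h (by rw [e5]; linarith)
    (by linarith)
  rw [e6] at this
  have e7 : (g + pw i - pw (i + n) + (g - pw i + 1 - 2 * (c - pw (i + n + 1))) + 1) / 2 =
      g + 1 - c := by linarith
  rwa [e7] at this

lemma crec_dn {g c : ℚ} {i k : ℕ} (hg : Sc g i) (hk : i ≤ k) (h1 : pw (k + 1) < c)
    (h2 : c ≤ pw k) (h : Tm (g + 1 - c)) : Tm (g - pw i + 1 - 2 * (c - pw (k + 1))) := by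
  have e1 := pw_two k
  obtain ⟨n, rfl⟩ := Nat.exists_eq_add_of_le hk
  have e5 : (g - (g - pw i)) * pw n = pw (i + n) := by rw [pw_add]; ring
  have e5' : (g - (g - pw i)) * pw (n + 1) = pw (i + n + 1) := by
    rw [show i + n + 1 = i + (n + 1) by ring, pw_add i]; ring
  have := h.inv (n := n) hg.2 (by rw [e5]; linarith) (by rw [e5']; linarith)
  rw [e5] at this
  have e7 : 2 * (g + 1 - c) - 1 - (2 * g - (g - pw i) - pw (i + n)) =
      g - pw i + 1 - 2 * (c - pw (i + n + 1)) := by linarith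
  rwa [e7] at this

section below

variable {t : ℚ}

/-- the ancestors of a successor. -/
lemma anc (H : ∀ q, Fus q → q < t → Tm q) {r Y : ℚ} {iY : ℕ} (hr : 0 ≤ r) (hY : Fus Y)
    (hrY : r < Y) (hmin : ∀ z, Fus z → r < z → Y ≤ z) (hS : Str Y iY) {k : ℕ} (hk : k ≤ iY)
    (hb : r + pw k < t) : ∃ κ, Fus κ ∧ Mu k κ ∧ r < κ ∧ κ ≤ r + pw k := by
  obtain ⟨d, rfl⟩ := Nat.exists_eq_add_of_le hk
  clear hk
  induction d generalizing k with
  | zero =>
    refine ⟨Y, hY, hS.lv.mu, hrY, ?_⟩
    by_contra hc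
    push Not at hc
    have h1 := hS.dn (by linarith)
    have h2 := hmin _ h1 (by simp only [add_zero]; linarith)
    have := pw_pos (k + 0)
    linarith
  | succ d ih =>
    have e := pw_two k
    have e' := pw_pos (k + 1)
    obtain ⟨κ, h1, h2, h3, h4⟩ := @ih (k + 1) (by linarith) (by
      rw [show k + 1 + d = k + (d + 1) by ring]; exact hS)
    rcases h2.even_or with h5 | h5
    · exact ⟨κ, h1, h5, h3, by linarith⟩
    · by_cases h6 : Mu k κ
      · exact ⟨κ, h1, h6, h3, by linarith⟩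
      · have hlv := lv_of_not h2 h6
        obtain ⟨i, hi⟩ := exists_str H κ h1 (by linarith)
        have := hi.lv.unique hlv
        subst this
        exact ⟨κ + pw (k + 1), hi.up, h5, by linarith, by linarith⟩

/-- a fusible number with fusible numbers close below it is of limit type. -/
lemma lm_of_between {g Y : ℚ} {i : ℕ} (hg : Str g i) (hgF : Fus g) (hY : Fus Y)
    (h1 : g - pw i < Y) (h2 : Y < g) : Lm g i := by
  rcases hg.cases hgF with h | h | h
  · subst h
    linarith [hY.nonneg]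
  · exact absurd ⟨h1, h2⟩ (h.2.2.2.2 Y hY)
  · exact h

theorem tm_pow (H : ∀ q, Fus q → q < t → Tm q) :
    ∀ g, Fus g → g < t → ∀ i, Str g i → ∀ j, i ≤ j → Tm (g + 1 - pw j) := by
  apply Fus.strong_induction
  intro g hg ih hgt i hi j hij
  have hj := pw_two j
  have hjp := pw_pos (j + 1)
  rcases hi.cases hg with h | h | h
  · subst h
    have := Tm.base j
    simpa using this
  · have h1 := h.1.dn (by linarith [h.2.2.2.1, h.2.nonneg])
    have hp := pw_pos i
    obtain ⟨i', hi'⟩ := exists_str H _ h1 (by linarith)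
    have h3 := consec_lv h.2 hi' hi
    have h4 := ih _ h1 (by linarith) (by linarith) i' hi' j (by omega)
    have h5 := crec_upT (c := pw j) h hij (by linarith) le_rfl
    apply h5
    have e : g - pw i + 1 - 2 * (pw j - pw (j + 1)) = g - pw i + 1 - pw j := by linarith
    rw [e]; exact h4
  · have h1 := h.2.2 (j + 1) (by omega)
    obtain ⟨i', hi'⟩ := exists_str H _ h1 (by linarith)
    have h3 : Mu (j + 1) (g - pw (j + 1)) := (hi.lv.mu.mono (by omega)).sub (Mu.ofPw le_rfl)
    have h4 := ih _ h1 (by linarith) (by linarith) i' hi' (j + 1) ((hi'.lv _).mp h3)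
    have e : g - pw (j + 1) + 1 - pw (j + 1) = g + 1 - pw j := by linarith
    rwa [e] at h4

lemma Dm.pos {c' c : ℚ} (h : Dm c' c) (h0 : 0 < c') : 0 < c := by
  by_contra hc
  push Not at hc
  obtain ⟨k, hk⟩ := exists_pw_lt h0
  have h1 := N_pos_of_le hk.le (le_refl k)
  have h2 : N c k = 0 := N_zero_of_lt (lt_of_le_of_lt hc (pw_pos k)) le_rfl
  have := h k
  omega

/-- the domination and the monotonicity lemma. -/
theorem dom_mono (H : ∀ q, Fus q → q < t → Tm q) :
    ∀ g, Fus g → g < t → ∀ i, Str g i →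
      (∀ c c', 0 < c' → c' ≤ 1 → Dm c' c → c ≤ pw i → Tm (g + 1 - c) → Tm (g + 1 - c')) ∧
      (∀ ζ iζ, Fus ζ → ζ < g → Str ζ iζ → ∀ c, 0 < c → c ≤ pw iζ → c ≤ pw i →
        Tm (ζ + 1 - c) → Tm (g + 1 - c)) := by
  apply Fus.strong_induction
  intro g hg ih hgt i hi
  have hpi := pw_pos i
  constructor
  · intro c c' hc'0 hc'1 hdm hci hT
    have hc0 : 0 < c := hdm.pos hc'0
    have hc1 : c ≤ 1 := hci.trans (pw_le_one i)
    have hc'i : c' ≤ pw i := hdm.le_pw hc'0 hc'1 hci
    obtain ⟨m', h1', h2'⟩ := exists_lead hc'0 hc'1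
    have him' := lead_ge h1' hc'i
    rcases eq_or_lt_of_le h2' with h3' | h3'
    · rw [h3']
      exact tm_pow H g hg hgt i hi m' him'
    · obtain ⟨m, h1, h2⟩ := exists_lead hc0 hc1
      have him := lead_ge h1 hci
      obtain ⟨hmm, h3, hdm2⟩ := hdm.step h1' h3' h1 h2
      have hm2 := pw_two m
      have hm2' := pw_two m'
      rcases hi.cases hg with h | h | h
      · exfalso
        subst h
        have h4 := hT.fus
        obtain ⟨k, hk⟩ := h4.lt_one (by linarith)
        have hck : c = pw k := by linarith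
        have a1 : m + 1 ≤ k := by
          by_contra hcon
          have : pw m ≤ pw k := pw_le_pw (by omega)
          linarith
        have a2 := pw_le_pw a1
        linarith
      · have h4 := h.1.dn (by linarith [h.2.2.2.1, h.2.nonneg])
        obtain ⟨i', hi'⟩ := exists_str H _ h4 (by linarith)
        have h5 := consec_lv h.2 hi' hi
        have h6 := crec_dn h him h1 h2 hT
        have h7 := (ih _ h4 (by linarith) (by linarith) i' hi').1 (2 * (c - pw (m + 1)))
          (2 * (c' - pw (m' + 1))) (by linarith) (by have := pw_le_one m'; linarith) hdm2.double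
          (by have : pw m ≤ pw i' := pw_le_pw (by omega)
              linarith) h6
        exact crec_upT h him' h1' h2' h7
      · have h4 := h.2.2 (m + 1) (by omega)
        have hpm := pw_pos (m + 1)
        have hpm' := pw_pos (m' + 1)
        obtain ⟨i1, hi1⟩ := exists_str H _ h4 (by linarith)
        have h5 : Mu (m + 1) (g - pw (m + 1)) := (hi.lv.mu.mono (by omega)).sub (Mu.ofPw le_rfl)
        have h6 := (hi1.lv _).mp h5
        have h6' := pw_le_pw h6
        have e1 : g + 1 - c = g - pw (m + 1) + 1 - (c - pw (m + 1)) := by ring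
        rw [e1] at hT
        have h7 := (ih _ h4 (by linarith) (by linarith) i1 hi1).1 (c - pw (m + 1))
          (c' - pw (m' + 1)) (by linarith) (by linarith) hdm2 (by linarith) hT
        rcases Nat.eq_or_lt_of_le hmm with h8 | h8
        · subst h8
          have e2 : g - pw (m + 1) + 1 - (c' - pw (m + 1)) = g + 1 - c' := by ring
          rwa [e2] at h7
        · have h9 := h.2.2 (m' + 1) (by omega)
          obtain ⟨i2, hi2⟩ := exists_str H _ h9 (by linarith)
          have h10 : Mu (m' + 1) (g - pw (m' + 1)) :=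
            (hi.lv.mu.mono (by omega)).sub (Mu.ofPw le_rfl)
          have h11 := (hi2.lv _).mp h10
          have h11' := pw_le_pw h11
          have h12 : pw (m' + 1) < pw (m + 1) := pw_lt_pw (by omega)
          have h13 := (ih _ h9 (by linarith) (by linarith) i2 hi2).2 _ i1 h4 (by linarith) hi1
            (c' - pw (m' + 1)) (by linarith) (by linarith) (by linarith) h7
          have e2 : g - pw (m' + 1) + 1 - (c' - pw (m' + 1)) = g + 1 - c' := by ring
          rwa [e2] at h13
  · intro ζ iζ hζ hζg hSζ c hc0 hcζ hci hT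
    have hc1 : c ≤ 1 := hci.trans (pw_le_one i)
    obtain ⟨m, h1, h2⟩ := exists_lead hc0 hc1
    have him := lead_ge h1 hci
    have hiζm := lead_ge h1 hcζ
    have hm2 := pw_two m
    have hpm := pw_pos (m + 1)
    rcases hi.cases hg with h | h | h
    · subst h
      linarith [hζ.nonneg]
    · have h4 := h.1.dn (by linarith [h.2.2.2.1, h.2.nonneg])
      obtain ⟨i', hi'⟩ := exists_str H _ h4 (by linarith)
      have h5 := consec_lv h.2 hi' hi
      have h5' : pw i ≤ pw i' := pw_le_pw (by omega)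
      have h6 : ζ ≤ g - pw i := h.2.le_of_lt' hζ hζg
      have h7 : Tm (g - pw i + 1 - c) := by
        rcases eq_or_lt_of_le h6 with h8 | h8
        · rw [← h8]; exact hT
        · exact (ih _ h4 (by linarith) (by linarith) i' hi').2 ζ iζ hζ h8 hSζ c hc0 hcζ
            (by linarith) hT
      have h8 := (ih _ h4 (by linarith) (by linarith) i' hi').1 c (2 * (c - pw (m + 1)))
        (by linarith) (by have := pw_le_one m; linarith) (Dm.sigma h1 h2) (by linarith) h7
      exact crec_upT h him h1 h2 h8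
    · have h4 := h.2.2 (m + 1) (by omega)
      obtain ⟨i1, hi1⟩ := exists_str H _ h4 (by linarith)
      have h5 : Mu (m + 1) (g - pw (m + 1)) := (hi.lv.mu.mono (by omega)).sub (Mu.ofPw le_rfl)
      have h6 := (hi1.lv _).mp h5
      have h6' := pw_le_pw h6
      have h7 : ζ + pw m ≤ g := (hSζ.lv.mu.mono hiζm).le_of_lt (hi.lv.mu.mono him) hζg
      have h8 := (ih _ hζ hζg (by linarith) iζ hSζ).1 c (c - pw (m + 1)) (by linarith)
        (by linarith) (Dm.flat h1 h2) hcζ hT
      have h9 := (ih _ h4 (by linarith) (by linarith) i1 hi1).2 ζ iζ hζ (by linarith) hSζ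
        (c - pw (m + 1)) (by linarith) (by linarith) (by linarith) h8
      have e2 : g - pw (m + 1) + 1 - (c - pw (m + 1)) = g + 1 - c := by ring
      rwa [e2] at h9

lemma dom (H : ∀ q, Fus q → q < t → Tm q) {g : ℚ} {i : ℕ} (hg : Fus g) (hgt : g < t)
    (hi : Str g i) {c c' : ℚ} (h0 : 0 < c') (h1 : c' ≤ 1) (hd : Dm c' c) (hc : c ≤ pw i)
    (hT : Tm (g + 1 - c)) : Tm (g + 1 - c') :=
  (dom_mono H g hg hgt i hi).1 c c' h0 h1 hd hc hT

lemma mono (H : ∀ q, Fus q → q < t → Tm q) {g : ℚ} {i : ℕ} (hg : Fus g) (hgt : g < t)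
    (hi : Str g i) {ζ : ℚ} {iζ : ℕ} (hζ : Fus ζ) (hlt : ζ < g) (hSζ : Str ζ iζ) {c : ℚ}
    (h0 : 0 < c) (h1 : c ≤ pw iζ) (h2 : c ≤ pw i) (hT : Tm (ζ + 1 - c)) : Tm (g + 1 - c) :=
  (dom_mono H g hg hgt i hi).2 ζ iζ hζ hlt hSζ c h0 h1 h2 hT

end below

end Pool.Agent.Lib.MP_67db36_lc
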