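import Pool.Agent.Lib.MP_67db36_lc.SitA

/-!
All fusible numbers are tame.
-/

set_option autoImplicit false

namespace Pool.Agent.Lib.MP_67db36_lc

namespace Ctx

variable {t a b X Y : ℚ} {iY : ℕ}

theorem false (C : Ctx t a b X Y iY) : False := by
  have ht := C.ht
  have hat := C.at'
  have hbt := C.bt
  have hab := C.ab
  have hba := C.hba
  have hX := C.hX
  have hY := C.hY
  have ha1 := C.one_le_a
  have hb1 := C.one_le_b
  have hTa := C.H a C.ha (by linarith)
  -- the frame of `a`
  obtain ⟨y, iy, hy, hyF, hy1, hy2, hyt, hymin⟩ := succ_frame C.H (r := a - 1) (by linarith)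
    C.ha (by linarith) (by linarith)
  have hpiy := pw_pos iy
  have hpiy1 := pw_le_one iy
  obtain ⟨kz, z1, z2⟩ := exists_lead (c := y + 1 - a) (by linarith) (by linarith)
  have hkz := lead_ge z1 (show y + 1 - a ≤ pw iy by linarith)
  -- the frame of `b`
  obtain ⟨v, iv, hv, hvF, hv1, hv2, hvt, hvmin⟩ := succ_frame C.H (r := b - 1) (by linarith)
    C.ha (by linarith) (by linarith)
  have hpiv := pw_pos iv
  have hpiv1 := pw_le_one iv
  obtain ⟨kr, r1, r2⟩ := exists_lead (c := v - (b - 1)) (by linarith) (by linarith)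
  obtain ⟨hiYv, _⟩ := C.lowB hv hv1 r1 r2
  have L := lower C.H hTa (by linarith) hy hkz z1 z2
  have p1 := pw_two iy
  have p2 := pw_two (kz + 1)
  have p3 : pw (kz + 1) < pw iy := pw_lt_pw (by omega)
  have p4 := pw_pos (kz + 1)
  have hτ : (a + (b - 1)) / 2 = t - 1 := by linarith
  by_cases hval : b - 1 < a - pw iy + pw (kz + 1)
  · have hSC : iY ≤ iy + 1 ∧ pw (kz + 2) < Y + 1 - t := by
      by_contra hcon
      have e : pw (kz + 2) = pw (kz + 1 + 1) := rfl
      refine C.scB L C.hb (by linarith) (by linarith) (l := iy + 1)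
        (l' := kz + 2) (by omega) (by omega) (by rw [e]; linarith) ?_
      by_contra h3
      push Not at h3
      exact hcon ⟨by omega, h3.2⟩
    obtain ⟨c1, c2, c3⟩ := score C.H (z := a) (w := b - 1) C.ha hat hy hyF (by linarith) hy2 z1
      (by linarith) (by linarith) ha1 hv hvF hv1 hv2 hval C.hc C.sY (by rw [hτ]; exact hX)
      (by rw [hτ]; exact hY) hSC.1 hiYv
    subst c1
    exact C.finish hv hvF hv1 r1 r2 z1 z2 (by linarith) c2 (by rw [hτ] at c3; linarith) L hSC.2
  · push Not at hval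
    have S : St t (y + 1) y 0 iy := by
      refine ⟨hyF, hyt, ?_, ⟨iy, hy.1, le_rfl⟩, ?_, ?_, ?_, le_rfl⟩
      · intro z hz hzy
        have := hy.2.le_of_lt' hz hzy
        linarith
      · intro d _ _ hf
        simpa using hf
      · intro d _ _ hf hlt
        have := C.H _ hf hlt
        simpa using this
      · have := hy.1.lv.mu.add (Mu.one _)
        simpa using this
    by_cases hc : b - 1 < y - pw iy + 1
    · refine C.swapB (k := kz) S hy ?_ ?_ hkz ?_ ?_ ?_ ?_
      · intro d _ _ hf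
        have e : y + 1 - pw (0 + iy) - d = y - pw iy + 1 - 2 ^ 0 * d := by
          rw [zero_add]; ring
        rw [e]; exact hf
      · have := hy.2.1.add_one
        have e : y + 1 - pw (0 + iy) = y - pw iy + 1 := by rw [zero_add]; ring
        rw [e]; exact this
      · rw [zero_add]; linarith
      · rw [zero_add]; linarith
      · rw [zero_add]; linarith
      · rw [zero_add, zero_add]; linarith
    · push Not at hc
      exact C.sitA y hyF (y + 1) 0 iy S (by linarith) (by rw [zero_add]; linarith)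

end Ctx

/-- every fusible number is tame. -/
theorem Fus.tm : ∀ q, Fus q → Tm q := by
  intro q hq
  by_contra hcon
  obtain ⟨t, htF, htT, htmin⟩ := Fus.exists_min (fun q => ¬ Tm q) ⟨q, hq, hcon⟩
  have H : ∀ q, Fus q → q < t → Tm q := by
    intro r hr hrt
    by_contra hc
    exact absurd (htmin r hr hc) (not_le.mpr hrt)
  have ht1 : 1 ≤ t := by
    by_contra hc
    push Not at hc
    obtain ⟨k, rfl⟩ := htF.lt_one hc
    exact htT (Tm.base k)
  obtain ⟨a0, b0, ha0, hb0, h1, h2, he, _, _⟩ := htF.decomp (by linarith)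
  obtain ⟨a, ha, ⟨b, hb, hab, hba, hs⟩, hmin⟩ := Fus.exists_min
    (fun a => ∃ b, Fus b ∧ a - b < 1 ∧ b - a < 1 ∧ 2 * t = a + b + 1)
    ⟨a0, ha0, b0, hb0, h1, h2, by linarith⟩
  obtain ⟨Y, iY, hY, hYF, hY1, hY2, hYt, _⟩ := succ_frame H (r := t - 1) (by linarith)
    ha (by linarith) (by linarith)
  have C : Ctx t a b (Y - pw iY) Y iY := by
    refine ⟨H, htT, ha, hb, hab, hba, hs, ?_, hY.2, hY1, hY2, hY.1⟩
    intro a' b' ha' hb' hsum h3 h4
    exact hmin a' ha' ⟨b', hb', h3, h4, by linarith⟩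
  exact C.false

/-- the statement for the inductively defined fusible numbers. -/
theorem Fus.main {x y q : ℚ} {n : ℕ} (hc : Consec x y) (hq : Fus q)
    (h1 : y + 1 - (y - x) / 2 ^ n ≤ q) (h2 : q < y + 1 - (y - x) / 2 ^ (n + 1)) :
    Fus (2 * q - 1 - x - (2 - 1 / 2 ^ n) * (y - x)) := by
  have e : ∀ n : ℕ, (y - x) / 2 ^ n = (y - x) * pw n := by
    intro n
    unfold pw
    rw [one_div, inv_pow, div_eq_mul_inv]
  rw [e] at h1 h2
  have h3 := (Fus.tm q hq).inv hc h1 h2
  have e2 : 2 * q - 1 - x - (2 - 1 / 2 ^ n) * (y - x) =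
      2 * q - 1 - (2 * y - x - (y - x) * pw n) := by
    rw [← e]; ring
  rw [e2]
  exact h3.fus

theorem fus_iff {F : ℚ → Prop}
    (hF : ∀ q : ℚ, F q ↔ ∀ S : Set ℚ, (0 : ℚ) ∈ S →
      (∀ a ∈ S, ∀ b ∈ S, |a - b| < 1 → (a + b + 1) / 2 ∈ S) → q ∈ S) (q : ℚ) :
    F q ↔ Fus q := by
  rw [hF]
  constructor
  · intro h
    apply h {q | Fus q} Fus.zero
    intro a ha b hb hab
    rw [abs_lt] at hab
    exact Fus.fuse ha hb (by linarith) (by linarith)
  · intro h S h0 hS
    induction h with
    | zero => exact h0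
    | @fuse a b _ _ h1 h2 iha ihb =>
      exact hS a iha b ihb (by rw [abs_lt]; constructor <;> linarith)

end Pool.Agent.Lib.MP_67db36_lc
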