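import Pool.Agent.Lib.MP_67db36_lc.Basic

/-!
The set of fusible numbers: closure facts, the part below `1`, and well-foundedness
(by the minimal bad sequence argument).
-/

set_option autoImplicit false

namespace Pool.Agent.Lib.MP_67db36_lc

/-- the fusible numbers. -/
inductive Fus : ℚ → Prop
  | zero : Fus 0
  | fuse {a b : ℚ} : Fus a → Fus b → a - b < 1 → b - a < 1 → Fus ((a + b + 1) / 2)

lemma Fus.nonneg {g : ℚ} (h : Fus g) : 0 ≤ g := by
  induction h with
  | zero => exact le_rfl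
  | fuse _ _ _ _ ha hb => linarith

lemma Fus.fuse' {a b c : ℚ} (ha : Fus a) (hb : Fus b) (h1 : a - b < 1) (h2 : b - a < 1)
    (hc : 2 * c = a + b + 1) : Fus c := by
  have := Fus.fuse ha hb h1 h2
  have e : (a + b + 1) / 2 = c := by linarith
  rwa [e] at this

lemma Fus.add_half {g : ℚ} (h : Fus g) : Fus (g + 1 / 2) :=
  Fus.fuse' h h (by norm_num) (by norm_num) (by ring)

lemma Fus.add_one {g : ℚ} (h : Fus g) : Fus (g + 1) := by
  have := h.add_half.add_half
  have e : g + 1 / 2 + 1 / 2 = g + 1 := by ring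
  rwa [e] at this

lemma Fus.nat (n : ℕ) : Fus n := by
  induction n with
  | zero => simpa using Fus.zero
  | succ n ih => push_cast; exact ih.add_one

lemma Fus.add_one_sub_pw {g : ℚ} (h : Fus g) (i : ℕ) : Fus (g + 1 - pw i) := by
  induction i with
  | zero => simpa using h
  | succ i ih =>
    have h1 := pw_two i
    have h2 := pw_pos i
    have h3 := pw_le_one i
    exact Fus.fuse' h ih (by linarith) (by linarith) (by linarith)

lemma Fus.one_sub_pw (i : ℕ) : Fus (1 - pw i) := by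
  have := Fus.zero.add_one_sub_pw i
  simpa using this

lemma Fus.lt_one {g : ℚ} (h : Fus g) (h1 : g < 1) : ∃ k, g = 1 - pw k := by
  induction h with
  | zero => exact ⟨0, by simp⟩
  | @fuse a b ha hb h1' h2' iha ihb =>
    have ha0 := ha.nonneg
    have hb0 := hb.nonneg
    obtain ⟨i, rfl⟩ := iha (by linarith)
    obtain ⟨j, rfl⟩ := ihb (by linarith)
    have key : i = 0 ∨ j = 0 := by
      by_contra hc
      push Not at hc
      have e1 : pw i ≤ pw 1 := pw_le_pw (by omega)
      have e2 : pw j ≤ pw 1 := pw_le_pw (by omega)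
      rw [pw_one] at e1 e2
      linarith
    rcases key with rfl | rfl
    · refine ⟨j + 1, ?_⟩
      rw [pw_succ, pw_zero]; ring
    · refine ⟨i + 1, ?_⟩
      rw [pw_succ, pw_zero]; ring

lemma Fus.dyadic {g : ℚ} (h : Fus g) : ∃ i, Mu i g := by
  induction h with
  | zero => exact ⟨0, Mu.zero 0⟩
  | @fuse a b _ _ _ _ ha hb =>
    obtain ⟨i, hi⟩ := ha
    obtain ⟨j, hj⟩ := hb
    refine ⟨max i j + 1, ?_⟩
    exact (((hi.mono (le_max_left i j)).add (hj.mono (le_max_right i j))).add (Mu.one _)).half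

/-- fusible numbers obtained in at most `n` rounds. -/
def FusN : ℕ → ℚ → Prop
  | 0, q => q = 0
  | n + 1, q => FusN n q ∨ ∃ a b, FusN n a ∧ FusN n b ∧ a - b < 1 ∧ b - a < 1 ∧ q = (a + b + 1) / 2

lemma FusN.mono {m n : ℕ} (h : m ≤ n) {q : ℚ} (hq : FusN m q) : FusN n q := by
  induction h with
  | refl => exact hq
  | step _ ih => exact Or.inl ih

lemma Fus.exists_FusN {q : ℚ} (h : Fus q) : ∃ n, FusN n q := by
  induction h with
  | zero => exact ⟨0, rfl⟩
  | @fuse a b _ _ h1 h2 ha hb =>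
    obtain ⟨m, hm⟩ := ha
    obtain ⟨n, hn⟩ := hb
    exact ⟨max m n + 1, Or.inr ⟨a, b, hm.mono (le_max_left _ _), hn.mono (le_max_right _ _),
      h1, h2, rfl⟩⟩

lemma FusN.fus {n : ℕ} {q : ℚ} (h : FusN n q) : Fus q := by
  induction n generalizing q with
  | zero => rw [show q = 0 from h]; exact Fus.zero
  | succ n ih =>
    rcases h with h | ⟨a, b, ha, hb, h1, h2, rfl⟩
    · exact ih h
    · exact Fus.fuse (ih ha) (ih hb) h1 h2

/-- the number of rounds needed. -/
noncomputable def frk (q : ℚ) : ℕ := sInf {n | FusN n q}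

lemma frk_le {n : ℕ} {q : ℚ} (h : FusN n q) : frk q ≤ n := Nat.sInf_le h

lemma Fus.decomp {q : ℚ} (h : Fus q) (hq : 0 < q) : ∃ a b, Fus a ∧ Fus b ∧ a - b < 1 ∧
    b - a < 1 ∧ q = (a + b + 1) / 2 ∧ frk a < frk q ∧ frk b < frk q := by
  have hmem : FusN (frk q) q := Nat.sInf_mem (s := {n | FusN n q}) h.exists_FusN
  cases hk : frk q with
  | zero => rw [hk] at hmem; exact absurd (show q = 0 from hmem) hq.ne'
  | succ n =>
    rw [hk] at hmem
    rcases hmem with h1 | ⟨a, b, ha, hb, h1, h2, e⟩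
    · have := frk_le h1; omega
    · exact ⟨a, b, ha.fus, hb.fus, h1, h2, e, Nat.lt_succ_of_le (frk_le ha),
        Nat.lt_succ_of_le (frk_le hb)⟩

open Set.PartiallyWellOrderedOn in
theorem Fus.isPWO : {q : ℚ | Fus q}.IsPWO := by
  unfold Set.IsPWO
  rw [iff_not_exists_isMinBadSeq frk]
  rintro ⟨f, hf1, hf2⟩
  have hdec : ∀ m n, m < n → f n < f m := fun m n h => not_le.mp (hf1.2 m n h)
  have hpos : ∀ n, 0 < f n := fun n =>
    lt_of_le_of_lt (Fus.nonneg (hf1.1 (n + 1))) (hdec n (n + 1) (Nat.lt_succ_self n))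
  choose a b ha hb h1 h2 he hra hrb using fun n => Fus.decomp (hf1.1 n) (hpos n)
  -- the set of all components
  set C : Set ℚ := {x | ∃ n, Fus x ∧ x < f n ∧ frk x < frk (f n)} with hC
  have hCP : C.IsPWO := by
    unfold Set.IsPWO
    rw [iff_forall_not_isBadSeq]
    intro g hg
    obtain ⟨i, hgi, hlt, hrk⟩ := hg.1 0
    refine hf2 i (fun n => if n < i then f n else g (n - i)) (fun m hm => by simp [hm]) ?_ ?_
    · simpa using hrk
    · refine ⟨fun n => ?_, fun m n hmn => ?_⟩
      · by_cases h : n < i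
        · simp only [h, if_true]; exact hf1.1 n
        · simp only [h, if_false]
          obtain ⟨_, h', _⟩ := hg.1 (n - i)
          exact h'
      · by_cases hm : m < i
        · by_cases hn : n < i
          · simp only [hm, hn, if_true]; exact hf1.2 m n hmn
          · simp only [hm, hn, if_true, if_false, not_le]
            have e1 : g (n - i) ≤ g 0 := by
              rcases Nat.eq_zero_or_pos (n - i) with h0 | h0
              · rw [h0]
              · exact (not_le.mp (hg.2 0 (n - i) h0)).le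
            have e2 := hdec m i hm
            linarith
        · have hn : ¬ n < i := by omega
          simp only [hm, hn, if_false]
          exact hg.2 (m - i) (n - i) (by omega)
  have haC : ∀ n, a n ∈ C := fun n => ⟨n, ha n, by have := he n; have := h2 n; linarith [h1 n], hra n⟩
  have hbC : ∀ n, b n ∈ C := fun n => ⟨n, hb n, by have := he n; have := h1 n; linarith [h2 n], hrb n⟩
  obtain ⟨g, hg⟩ := hCP.exists_monotone_subseq haC
  have hCP' := hCP
  unfold Set.IsPWO at hCP'
  rw [Set.partiallyWellOrderedOn_iff_exists_lt] at hCP'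
  obtain ⟨m, n, hmn, hle⟩ := hCP' (fun n => b (g n)) (fun n => hbC (g n))
  have e1 : a (g m) ≤ a (g n) := hg hmn.le
  have e2 := hdec (g m) (g n) (g.lt_iff_lt.mpr hmn)
  have e3 := he (g m)
  have e4 := he (g n)
  linarith

theorem Fus.isWF : {q : ℚ | Fus q}.IsWF := Fus.isPWO.isWF

/-- least fusible number with a property. -/
lemma Fus.exists_min (P : ℚ → Prop) (h : ∃ q, Fus q ∧ P q) :
    ∃ q, Fus q ∧ P q ∧ ∀ r, Fus r → P r → q ≤ r := by
  obtain ⟨q0, hq0, hP0⟩ := h
  have hwf : {q : ℚ | Fus q ∧ P q}.IsWF := Fus.isWF.mono (fun q hq => hq.1)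
  have hne : {q : ℚ | Fus q ∧ P q}.Nonempty := ⟨q0, hq0, hP0⟩
  refine ⟨hwf.min hne, (hwf.min_mem hne).1, (hwf.min_mem hne).2, fun r hr hPr => ?_⟩
  exact hwf.min_le hne ⟨hr, hPr⟩

/-- strong induction on fusible numbers. -/
lemma Fus.strong_induction {P : ℚ → Prop}
    (h : ∀ q, Fus q → (∀ r, Fus r → r < q → P r) → P q) : ∀ q, Fus q → P q := by
  intro q hq
  by_contra hc
  obtain ⟨m, hm, hPm, hmin⟩ := Fus.exists_min (fun q => ¬ P q) ⟨q, hq, hc⟩
  apply hPm
  apply h m hm
  intro r hr hrm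
  by_contra hc2
  exact absurd (hmin r hr hc2) (not_le.mpr hrm)

/-- `x < y` are consecutive fusible numbers. -/
def Consec (x y : ℚ) : Prop := Fus x ∧ Fus y ∧ x < y ∧ ∀ z, Fus z → ¬ (x < z ∧ z < y)

lemma Fus.exists_succ (r : ℚ) : ∃ y, Fus y ∧ r < y ∧ ∀ z, Fus z → r < z → y ≤ z := by
  obtain ⟨n, hn⟩ := exists_nat_gt r
  obtain ⟨y, hy, h1, h2⟩ := Fus.exists_min (fun q => r < q) ⟨n, Fus.nat n, hn⟩
  exact ⟨y, hy, h1, h2⟩

end Pool.Agent.Lib.MP_67db36_lc
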