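import Pool.Agent.Lib.MP_67db36_lc.Chain

/-!
Lowering of `b`, raising of `b`, and the central lemma for a valid lowering of `a`.
-/

set_option autoImplicit false

namespace Pool.Agent.Lib.MP_67db36_lc

section generic

/-- two close limit-like points above a real contradict a large gap. -/
lemma lemZ {X Y τ m1 : ℚ} {iY q : ℕ} (hc : Consec X Y) (hS : Str Y iY) (hX : X ≤ τ) (hY : τ < Y)
    (hq : iY ≤ q) (hm : Mu q m1) (h1 : m1 - 2 * pw q ≤ τ) (h2 : τ < m1) (f1 : Fus m1)
    (f2 : Fus (m1 - pw (q + 1))) (f3 : Fus (m1 - pw q - pw (q + 1))) : False := by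
  have hYX := consec_gap hc hS
  have hp := pw_le_pw hq
  have hq2 := pw_two q
  have hqp := pw_pos (q + 1)
  have hYm : Y ≤ m1 := hc.le_of_lt f1 (by linarith)
  have hMY : Mu q Y := hS.lv.mu.mono hq
  rcases eq_or_lt_of_le hYm with h | h
  · exact hc.2.2.2 _ f2 ⟨by linarith, by linarith⟩
  · have h3 := hMY.le_of_lt hm h
    have hM2 : Mu q (m1 - 2 * pw q) := by
      have := (hm.sub (Mu.ofPw (le_refl q))).sub (Mu.ofPw (le_refl q))
      have e : m1 - pw q - pw q = m1 - 2 * pw q := by ring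
      rwa [e] at this
    have h4 := hM2.le_of_lt hMY (by linarith)
    exact hc.2.2.2 _ f3 ⟨by linarith, by linarith⟩

variable {t : ℚ}

/-- The central lemma: for a valid lowering of `z`, the frames of `z` and `w` coincide. -/
theorem score (H : ∀ q, Fus q → q < t → Tm q) {z w y v X Y : ℚ} {iy iv iY kz : ℕ}
    (hz : Fus z) (hzt : z + 1 / 2 ≤ t)
    (hy : Sc y iy) (hyF : Fus y) (hy1 : y - pw iy ≤ z - 1) (hy2 : z - 1 < y)
    (hk1 : pw (kz + 1) < y + 1 - z)
    (hw0 : 0 ≤ w) (hwz : z - 1 ≤ w) (hz1 : 1 ≤ z)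
    (hv : Sc v iv) (hvF : Fus v) (hv1 : v - pw iv ≤ w) (hv2 : w < v)
    (hlow : w < z - pw iy + pw (kz + 1))
    (hc : Consec X Y) (hS : Str Y iY) (hX : X ≤ (z + w) / 2) (hY : (z + w) / 2 < Y)
    (h1 : iY ≤ iy + 1) (h2 : iY ≤ iv + 1) :
    iy = iv ∧ iY = iy + 1 ∧
      (y + 1 - z) + (v - w) = 2 * pw iY + 2 * (Y - (z + w) / 2) := by
  have hiy := hy.one_le
  have hiv := hv.one_le
  have hkiy := lead_ge hk1 (show y + 1 - z ≤ pw iy by linarith)
  have e1 : pw (kz + 1) ≤ pw (iy + 1) := pw_le_pw (by omega)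
  have e2 := pw_two iy
  have e3 := pw_pos (iy + 1)
  have e4 : pw iy ≤ pw 1 := pw_le_pw hiy
  have e5 : pw iv ≤ pw 1 := pw_le_pw hiv
  rw [pw_one] at e4 e5
  have e6 := pw_two iv
  have e7 := pw_pos (iv + 1)
  have hwz' : w < z := by linarith
  have hvz : v ≤ z := hv.2.le_of_lt hz (by linarith)
  have hvmin : ∀ x, Fus x → w < x → v ≤ x := fun x hx hwx => hv.2.le_of_lt hx (by linarith)
  have hymin : ∀ x, Fus x → z - 1 < x → y ≤ x := fun x hx hwx => hy.2.le_of_lt hx (by linarith)
  by_cases hcase : iy ≤ iv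
  · -- `R_y ≥ R_v`
    obtain ⟨ν, n1, n2, n3, n4⟩ := anc H hw0 hvF hv2 hvmin hv.1 hcase (by linarith)
    have hMy : Mu iy y := hy.1.lv.mu
    have hMy1 : Mu iy (y - pw iy + 1) := (hMy.sub (Mu.ofPw le_rfl)).add (Mu.one _)
    have hνy : ν ≤ y - pw iy + 1 := by
      have a1 : Mu iy (ν - pw iy) := n2.sub (Mu.ofPw le_rfl)
      have := a1.le_of_lt hMy1 (by linarith)
      linarith
    have f1 : Fus ((y + 1 + ν) / 2) :=
      Fus.fuse' hyF n1 (by linarith) (by linarith) (by ring)
    have f1' : Fus ((y + 1 + ν) / 2 - pw (iy + 1)) := by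
      rcases eq_or_lt_of_le hνy with h | h
      · have e : (y + 1 + ν) / 2 - pw (iy + 1) = ν := by linarith
        rw [e]; exact n1
      · exact Fus.fuse' hy.2.1 n1 (by linarith) (by linarith) (by linarith)
    have hMm : Mu (iy + 1) ((y + 1 + ν) / 2) := ((hMy.add (Mu.one _)).add n2).half
    have hvν : v ≤ ν := hvmin ν n1 n3
    rcases Nat.eq_or_lt_of_le hcase with hii | hii
    · -- equal levels
      subst hii
      have hνv : ν = v := by
        rcases eq_or_lt_of_le hvν with h | h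
        · exact h.symm
        · have := hv.1.lv.mu.le_of_lt n2 h
          linarith
      subst hνv
      obtain ⟨j, rfl⟩ : ∃ j, iy = j + 1 := ⟨iy - 1, by omega⟩
      have hMj : Mu (j + 1) ((y + 1 + ν) / 2) := by
        have a1 : Mu j (y + pw (j + 1)) := by
          rcases hMy.even_or with h | h
          · exact absurd ((hy.1.lv j).mp h) (by omega)
          · exact h
        have a2 : Mu j (ν + pw (j + 1)) := by
          rcases n2.even_or with h | h
          · exact absurd ((hv.1.lv j).mp h) (by omega)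
          · exact h
        have a3 := ((a1.add a2).sub (Mu.ofPw (le_refl j))).add (Mu.one j)
        have a4 := pw_two j
        have e : y + pw (j + 1) + (ν + pw (j + 1)) - pw j + 1 = y + 1 + ν := by linarith
        rw [e] at a3
        exact a3.half
      have hYX := consec_gap hc hS
      have hYm : Y ≤ (y + 1 + ν) / 2 := hc.le_of_lt f1 (by linarith)
      have hMY : Mu (j + 1 + 1) Y := hS.lv.mu.mono h1
      have hYne : Y ≠ (y + 1 + ν) / 2 := by
        intro h
        have a1 : iY ≤ j + 1 := (hS.lv _).mp (by rw [h]; exact hMj)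
        have a2 := pw_le_pw a1
        exact hc.2.2.2 _ f1' ⟨by linarith, by linarith⟩
      have h3 := hMY.le_of_lt hMm (lt_of_le_of_ne hYm hYne)
      have hM2 : Mu (j + 1 + 1) ((y + 1 + ν) / 2 - pw (j + 1)) :=
        hMm.sub (Mu.ofPw (by omega))
      have h4 := hM2.le_of_lt hMY (by linarith)
      have hYeq : Y = (y + 1 + ν) / 2 - pw (j + 1 + 1) := by linarith
      have hiYeq : iY = j + 1 + 1 := by
        by_contra hne
        have a1 : iY ≤ j + 1 := by omega
        have a2 := hMj.sub (hS.lv.mu.mono a1)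
        rw [hYeq] at a2
        have e : (y + 1 + ν) / 2 - ((y + 1 + ν) / 2 - pw (j + 1 + 1)) = pw (j + 1 + 1) := by ring
        rw [e] at a2
        have := a2.not_pw
        omega
      refine ⟨rfl, hiYeq, ?_⟩
      rw [hiYeq]
      linarith
    · -- `ν` is a limit
      exfalso
      have hνv : ν ≠ v := by
        rintro rfl
        have := (hv.1.lv iy).mp n2
        omega
      have hvν' : v < ν := lt_of_le_of_ne hvν (Ne.symm hνv)
      obtain ⟨iν, hiν⟩ := exists_str H ν n1 (by linarith)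
      have a1 := (hiν.lv iy).mp n2
      have a2 := pw_le_pw a1
      have hLm := lm_of_between hiν n1 hvF (by linarith) hvν'
      have g1 := hLm.2.2 (iy + 1) (by omega)
      have e8 := pw_two (iy + 1)
      have f2 : Fus ((y + 1 + ν) / 2 - pw (iy + 1 + 1)) :=
        Fus.fuse' hyF g1 (by linarith) (by linarith) (by linarith)
      have f3 : Fus ((y + 1 + ν) / 2 - pw (iy + 1) - pw (iy + 1 + 1)) :=
        Fus.fuse' hy.2.1 g1 (by linarith) (by linarith) (by linarith)
      exact lemZ hc hS hX hY h1 hMm (by linarith) (by linarith) f1 f2 f3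
  · -- `R_v > R_y`
    exfalso
    push Not at hcase
    obtain ⟨ξ, n1, n2, n3, n4⟩ := anc H (r := z - 1) (by linarith) hyF hy2 hymin hy.1 hcase.le
      (by linarith)
    have hyξ : y ≤ ξ := hymin ξ n1 n3
    have hyξ' : y < ξ := by
      refine lt_of_le_of_ne hyξ ?_
      rintro rfl
      have := (hy.1.lv iv).mp n2
      omega
    obtain ⟨iξ, hiξ⟩ := exists_str H ξ n1 (by linarith)
    have a1 := (hiξ.lv iv).mp n2
    have a2 := pw_le_pw a1
    have hLm := lm_of_between hiξ n1 hyF (by linarith) hyξ'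
    have g1 := hLm.2.2 (iv + 1) (by omega)
    have e8 := pw_two (iv + 1)
    have hvξ : v + pw iv ≤ ξ + 1 :=
      hv.1.lv.mu.le_of_lt (n2.add (Mu.one _)) (by linarith)
    have f1 : Fus ((ξ + 1 + v) / 2) :=
      Fus.fuse' n1 hvF (by linarith) (by linarith) (by ring)
    have f2 : Fus ((ξ + 1 + v) / 2 - pw (iv + 1 + 1)) :=
      Fus.fuse' g1 hvF (by linarith) (by linarith) (by linarith)
    have f3 : Fus ((ξ + 1 + v) / 2 - pw (iv + 1) - pw (iv + 1 + 1)) :=
      Fus.fuse' g1 hv.2.1 (by linarith) (by linarith) (by linarith)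
    have hMm : Mu (iv + 1) ((ξ + 1 + v) / 2) := ((n2.add (Mu.one _)).add hv.1.lv.mu).half
    exact lemZ hc hS hX hY h2 hMm (by linarith) (by linarith) f1 f2 f3

end generic

namespace Ctx

variable {t a b X Y : ℚ} {iY : ℕ}

/-- consequences of the lowering of `b`. -/
lemma lowB (C : Ctx t a b X Y iY) {v : ℚ} {iv k : ℕ} (hv : Sc v iv)
    (hv1 : v - pw iv ≤ b - 1) (hk1 : pw (k + 1) < v - (b - 1)) (hk2 : v - (b - 1) ≤ pw k) :
    iY ≤ iv + 1 ∧ pw (k + 2) < Y + 1 - t := by
  have hiv := hv.one_le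
  have hbt := C.bt
  have hab := C.ab
  have hba := C.hba
  have hik := lead_ge hk1 (show v - (b - 1) ≤ pw iv by linarith)
  have e4 : pw iv ≤ pw 1 := pw_le_pw hiv
  rw [pw_one] at e4
  have e5 := pw_le_pw hik
  have e6 := pw_two k
  have e7 := pw_pos (k + 1)
  have f := lower C.H (C.H b C.hb hbt) hbt hv hik (by linarith) (by linarith)
  by_contra hcon
  have h1 := pw_two (k + 1)
  have h2 := pw_two iv
  refine C.scB C.ha f (by linarith) (by linarith) (l := iv + 1) (l' := k + 2)
    (by omega) (by omega) (by linarith) ?_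
  by_contra h3
  push Not at h3
  exact hcon ⟨by omega, h3.2⟩

/-- raising `b`. -/
lemma raise (C : Ctx t a b X Y iY) {κ : ℚ} {k l : ℕ} (hκ : Fus κ) (hk1 : 1 ≤ k)
    (hMκ : Mu k κ) (h1 : b - 1 < κ) (h2 : κ - (b - 1) ≤ pw k) (hkl : k < l)
    (hup : ∀ l', k + 1 ≤ l' → Fus (κ + pw k - pw l')) : Fus (b + pw k - pw l) := by
  have hbt := C.bt
  have e4 : pw k ≤ pw 1 := pw_le_pw hk1
  rw [pw_one] at e4
  have hpl := pw_pos l
  have hplk := pw_lt_pw hkl
  obtain ⟨iκ, hiκ⟩ := exists_str C.H κ hκ (by linarith)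
  have hik := (hiκ.lv k).mp hMκ
  have hpk := pw_le_pw hik
  have hTb := C.H b C.hb hbt
  have eb : b = κ + 1 - (κ - (b - 1)) := by ring
  rw [eb] at hTb
  by_cases hc : pw k < κ - (b - 1) + pw l
  · have := dom C.H hκ (by linarith) hiκ (c' := κ - (b - 1) - pw k + pw l) (by linarith)
      (by linarith) ?_ (by linarith) hTb
    · have e : κ + 1 - (κ - (b - 1) - pw k + pw l) = b + pw k - pw l := by ring
      rw [e] at this
      exact this.fus
    · refine Dm.top' (k := l) ?_ (by linarith) (by linarith) (by linarith)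
      have e : κ - (b - 1) - (κ - (b - 1) - pw k + pw l) = pw k - pw l := by ring
      rw [e]
      exact (Mu.ofPw hkl.le).sub (Mu.ofPw le_rfl)
  · push Not at hc
    obtain ⟨m, hm1, hm2⟩ := exists_lead (c := κ - (b - 1) + pw l) (by linarith) (by linarith)
    have hkm := lead_ge hm1 hc
    have hm3 := pw_two m
    have hm4 := pw_le_pw hkm
    have hm5 := pw_pos (m + 1)
    have hA := Dm.addA (r := κ - (b - 1)) (k := l) (m := m) (by linarith) hm1 hm2
    have h3 := dom C.H hκ (by linarith) hiκ (c' := κ - (b - 1) + pw l - pw (m + 1))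
      (by linarith) (by linarith) hA (by linarith) hTb
    have h4 := hup (m + 1) (by omega)
    obtain ⟨i', hi'⟩ := exists_str C.H _ h4 (by linarith)
    have h5 : Mu (m + 1) (κ + pw k - pw (m + 1)) :=
      ((hMκ.mono (by omega)).add (Mu.ofPw (by omega))).sub (Mu.ofPw le_rfl)
    have h6 := pw_le_pw ((hi'.lv _).mp h5)
    have h7 := hA.le_pw (by linarith) (by linarith) (show κ - (b - 1) ≤ pw iκ by linarith)
    have h8 := mono C.H h4 (by linarith) hi' hκ (by linarith) hiκ
      (c := κ - (b - 1) + pw l - pw (m + 1)) (by linarith) h7 (by linarith) h3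
    have e : κ + pw k - pw (m + 1) + 1 - (κ - (b - 1) + pw l - pw (m + 1)) =
      b + pw k - pw l := by ring
    rw [e] at h8
    exact h8.fus

/-- the end of the central argument. -/
lemma finish (C : Ctx t a b X Y iY) {v E : ℚ} {iv K kr : ℕ} (hv : Sc v iv) (hvF : Fus v)
    (hv1 : v - pw iv ≤ b - 1) (hkr1 : pw (kr + 1) < v - (b - 1)) (hkr2 : v - (b - 1) ≤ pw kr)
    (hK1 : pw (K + 1) < E) (hK2 : E ≤ pw K) (hE : E ≤ pw iv)
    (hiY : iY = iv + 1) (hsum : E + (v - (b - 1)) = 2 * pw iY + 2 * (Y + 1 - t))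
    (hlow : Fus (a - pw iv + pw (K + 1))) (hK3 : pw (K + 2) < Y + 1 - t) : False := by
  subst hiY
  have hbt := C.bt
  have hY := C.hY
  have h1 := pw_two iv
  have h2 := (C.lowB hv hv1 hkr1 hkr2).2
  have h3 := pw_pos (iv + 1)
  have hK := lead_ge hK1 hE
  have hkr := lead_ge hkr1 (show v - (b - 1) ≤ pw iv by linarith)
  have h4 := pw_two (iv + 1)
  -- both are larger than `Q`
  have hKeq : K = iv := by
    by_contra hne
    have a1 : iv + 1 ≤ K := by omega
    have a2 : E ≤ pw (iv + 1) := hK2.trans (pw_le_pw a1)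
    have a3 : kr = iv := by
      by_contra hne2
      have a4 : iv + 1 ≤ kr := by omega
      have a5 : v - (b - 1) ≤ pw (iv + 1) := hkr2.trans (pw_le_pw a4)
      linarith
    subst a3
    linarith
  subst hKeq
  have hkreq : kr = K := by
    by_contra hne2
    have a4 : K + 1 ≤ kr := by omega
    have a5 : v - (b - 1) ≤ pw (K + 1) := hkr2.trans (pw_le_pw a4)
    linarith
  subst hkreq
  have hTb := C.H b C.hb hbt
  have eb : b = v + 1 - (v - (b - 1)) := by ring
  rw [eb] at hTb
  have hiv := hv.one_le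
  have e4 : pw kr ≤ pw 1 := pw_le_pw hiv
  rw [pw_one] at e4
  have h5 := dom C.H hvF (by linarith) hv.1 (c' := v - (b - 1) - pw (kr + 1)) (by linarith)
    (by linarith) (Dm.flat hkr1 hkr2) hkr2 hTb
  have f1 : Fus (b + pw (kr + 1)) := by
    have e : v + 1 - (v - (b - 1) - pw (kr + 1)) = b + pw (kr + 1) := by ring
    rw [e] at h5
    exact h5.fus
  have f2 : Fus (a - pw (kr + 1)) := by
    have e : a - pw kr + pw (kr + 1) = a - pw (kr + 1) := by linarith
    rwa [e] at hlow
  have h6 := C.gap2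
  exact C.exch h3 f2 f1 (by linarith)

end Ctx

end Pool.Agent.Lib.MP_67db36_lc
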