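import Pool.Agent.Lib.MP_67db36_lc.SitB2

/-!
Situation A: `a` and `b - 1` lie in the same copy; and the exceptional entries into situation B.
-/

set_option autoImplicit false

namespace Pool.Agent.Lib.MP_67db36_lc

namespace St

variable {t lam W : ℚ} {h j : ℕ}

/-- transfer of consecutive pairs to the inner coordinates. -/
lemma consec (S : St t lam W h j) {x y : ℚ} (hc : Consec x y) (h1 : lam - pw (h + j) ≤ x)
    (h2 : y < lam) (h3 : y < t) :
    Consec (W + 1 - 2 ^ h * (lam - x)) (W + 1 - 2 ^ h * (lam - y)) := by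
  have hp := two_pow_pos h
  have hxy := hc.2.2.1
  have ex : lam - (lam - x) = x := by ring
  have ey : lam - (lam - y) = y := by ring
  refine ⟨(S.dn (lam - x) (by linarith) (by linarith) (by rw [ex]; exact hc.1)
    (by linarith)).fus, (S.dn (lam - y) (by linarith) (by linarith) (by rw [ey]; exact hc.2.1)
    (by linarith)).fus, ?_, ?_⟩
  · have : (2 : ℚ) ^ h * (lam - y) < 2 ^ h * (lam - x) :=
      mul_lt_mul_of_pos_left (by linarith) hp
    linarith
  · rintro z hz ⟨hz1, hz2⟩
    have e : (2 : ℚ) ^ h * (pw h * (W + 1 - z)) = W + 1 - z := by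
      rw [← mul_assoc, mul_comm ((2 : ℚ) ^ h), pw_mul_two_pow, one_mul]
    have a1 : pw h * (W + 1 - z) < lam - x := by
      apply lt_of_mul_lt_mul_left _ hp.le
      rw [e]; linarith
    have a2 : lam - y < pw h * (W + 1 - z) := by
      apply lt_of_mul_lt_mul_left _ hp.le
      rw [e]; linarith
    have := S.up (pw h * (W + 1 - z)) (by linarith) (by linarith) (by
      rw [e]
      have e' : W + 1 - (W + 1 - z) = z := by ring
      rw [e']; exact hz)
    exact hc.2.2.2 _ this ⟨by linarith, by linarith⟩

/-- the inner coordinate is not larger. -/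
lemma inner_le (S : St t lam W h j) {x : ℚ} (hx : x ≤ lam) :
    W + 1 - 2 ^ h * (lam - x) ≤ x := by
  have h1 : (1 : ℚ) ≤ 2 ^ h := one_le_pow₀ (by norm_num)
  have h2 := S.hWl
  nlinarith

end St

namespace Ctx

variable {t a b X Y : ℚ} {iY : ℕ}

/-- entry into situation B from a successor frame. -/
theorem swapB (C : Ctx t a b X Y iY) {eta y : ℚ} {h i k : ℕ} (S : St t eta y h i) (hy : Sc y i)
    (hη : ∀ d, 0 < d → d ≤ pw (h + i) → Fus (y - pw i + 1 - 2 ^ h * d) →
      Fus (eta - pw (h + i) - d))
    (hηF : Fus (eta - pw (h + i))) (hk : i ≤ k) (hk1 : pw (h + k + 1) < eta - a)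
    (hk2 : eta - a ≤ pw (h + k)) (hω : b - 1 < eta - pw (h + i))
    (hu : eta - pw (h + i) - (b - 1) ≤ eta - a - pw (h + k + 1)) : False := by
  have hp := two_pow_pos h
  have hR := pw_two (h + i)
  have hpk := pw_two (h + k)
  have hpk0 := pw_pos (h + k + 1)
  have hsk := scale h (k + 1)
  rw [show h + (k + 1) = h + k + 1 by ring] at hsk
  have ht := C.ht
  have hat := C.at'
  have hpik : pw (h + k) ≤ pw (h + i) := pw_le_pw (by omega)
  have hff : 0 < eta - a - pw (h + k + 1) := by linarith
  have haF : Fus (eta - (eta - a)) := by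
    have e : eta - (eta - a) = a := by ring
    rw [e]; exact C.ha
  have hTa : Tm (y + 1 - 2 ^ h * (eta - a)) :=
    S.dn _ (by linarith) (by linarith) haF (by linarith)
  have S' := S.sc C.H hy (le_refl i)
  have e1 : pw (h + 1 + i) = pw (h + i + 1) := by congr 1; ring
  rcases Nat.eq_or_lt_of_le hk with hik | hik
  · subst hik
    have hWm := hy.2.1
    have hyt := S.hWt
    have hpi := pw_pos i
    obtain ⟨i', hi'⟩ := exists_str C.H _ hWm (by linarith)
    have hii := consec_lv hy.2 hi' hy.1
    have e2 : eta - pw (h + i + 1) - pw (h + 1 + i) = eta - pw (h + i) := by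
      rw [e1]; linarith
    refine C.sitB _ hWm _ _ _ S' ?_ (by rw [e2]; exact hηF) (by rw [e2]; exact hω)
      (by rw [e2]; linarith) (by rw [e1]; linarith)
    intro d hd0 hd1 hT
    rw [e1] at hd1
    rw [e2]
    apply hη d hd0 (by linarith)
    have c1 : 0 < (2 : ℚ) ^ h * d := mul_pos hp hd0
    have c2 : (2 : ℚ) ^ h * d ≤ pw (i + 1) := by
      rw [← hsk]; exact mul_le_mul_of_nonneg_left hd1 hp.le
    have c4 := pw_two i
    have c5 : pw i ≤ pw i' := pw_le_pw (by omega)
    have c6 := pw_le_one i
    have e3 : (2 : ℚ) ^ (h + 1) * d = 2 * (2 ^ h * d) := by rw [pow_succ]; ring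
    rw [e3] at hT
    have h7 := dom C.H hWm (by linarith) hi' (c' := (2 * (2 ^ h * d)) / 2) (by linarith)
      (by linarith) Dm.half (by linarith) hT
    have e4 : (2 * ((2 : ℚ) ^ h * d)) / 2 = 2 ^ h * d := by ring
    rw [e4] at h7
    exact h7.fus
  · have hpki : pw (h + k) ≤ pw (h + i + 1) := pw_le_pw (by omega)
    have Fa : Fus (a - (pw (h + i + 1) - pw (h + k + 1))) := by
      have h1 := crec_dn (c := 2 ^ h * (eta - a)) hy hk
        (by have : (2 : ℚ) ^ h * pw (h + k + 1) < 2 ^ h * (eta - a) :=
              mul_lt_mul_of_pos_left hk1 hp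
            rwa [hsk] at this)
        (by rw [← scale h k]; exact mul_le_mul_of_nonneg_left hk2 hp.le) hTa
      have e3 : y - pw i + 1 - 2 * (2 ^ h * (eta - a) - pw (k + 1)) =
        y - pw i + 1 - 2 ^ (h + 1) * (eta - a - pw (h + k + 1)) := by
        rw [← hsk, pow_succ]; ring
      rw [e3] at h1
      have h2 := S'.up _ hff (by rw [e1]; linarith) h1.fus
      have e4 : eta - pw (h + i + 1) - (eta - a - pw (h + k + 1)) =
        a - (pw (h + i + 1) - pw (h + k + 1)) := by ring
      rwa [e4] at h2
    have Fb : Fus (b + (pw (h + i + 1) - pw (h + k + 1))) := by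
      have := C.raise (κ := eta - pw (h + i)) (k := h + i + 1) (l := h + k + 1) hηF
        (by omega) ((S.mu.sub (Mu.ofPw le_rfl)).mono (by omega)) hω (by linarith)
        (by omega) (by
          intro l' hl'
          obtain ⟨l, rfl⟩ := Nat.exists_eq_add_of_le (show h + 1 ≤ l' by omega)
          have := S'.pow (k := l) (by omega)
          have e5 : eta - pw (h + i) + pw (h + i + 1) - pw (h + 1 + l) =
            eta - pw (h + i + 1) - pw (h + 1 + l) := by linarith
          rw [e5]; exact this)
      have e6 : b + pw (h + i + 1) - pw (h + k + 1) =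
        b + (pw (h + i + 1) - pw (h + k + 1)) := by ring
      rwa [e6] at this
    exact C.exch (by linarith) Fa Fb (by linarith)

/-- the limit case of situation A. -/
theorem sitLim (C : Ctx t a b X Y iY) {lam W : ℚ} {h j i kf ku : ℕ} (S : St t lam W h j)
    (hLm : Lm W i) (hjk : j ≤ ku) (hlt : ku < kf) (hf1 : pw (h + kf + 1) < lam - a)
    (hf2 : lam - a ≤ pw (h + kf)) (hu1 : pw (h + ku + 1) < lam - (b - 1))
    (hu2 : lam - (b - 1) ≤ pw (h + ku)) : False := by
  have hij := S.lv_le hLm.1.lv
  have hp := two_pow_pos h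
  have ht := C.ht
  have hat := C.at'
  have hbt := C.bt
  have hab := C.ab
  have hba := C.hba
  have hX := C.hX
  have hY := C.hY
  have hYX := C.hYX
  have hYt := C.Yt
  have hWt := S.hWt
  have hb1 := C.one_le_b
  have hYa := C.Yle C.ha C.ta
  -- powers
  have e1 := pw_two (h + ku)
  have e2 := pw_two (h + kf)
  have e3 : pw (h + kf) ≤ pw (h + ku + 1) := pw_le_pw (by omega)
  have e4 : pw (h + ku) ≤ pw (h + j) := pw_le_pw (by omega)
  have e5 := pw_pos (h + kf + 1)
  have e6 := pw_pos (h + ku + 1)
  have sf : ∀ x y : ℚ, x < y → (2 : ℚ) ^ h * x < 2 ^ h * y := fun x y hxy =>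
    mul_lt_mul_of_pos_left hxy hp
  have sfl : ∀ x y : ℚ, x ≤ y → (2 : ℚ) ^ h * x ≤ 2 ^ h * y := fun x y hxy =>
    mul_le_mul_of_nonneg_left hxy hp.le
  have k1 : (2 : ℚ) ^ h * pw (h + kf + 1) = pw (kf + 1) := scale h (kf + 1)
  have k2 : (2 : ℚ) ^ h * pw (h + kf) = pw kf := scale h kf
  have k3 : (2 : ℚ) ^ h * pw (h + ku + 1) = pw (ku + 1) := scale h (ku + 1)
  have k4 : (2 : ℚ) ^ h * pw (h + ku) = pw ku := scale h ku
  have F1 := sf _ _ hf1
  have F2 := sfl _ _ hf2
  have U1 := sf _ _ hu1
  have U2 := sfl _ _ hu2
  rw [k1] at F1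
  rw [k2] at F2
  rw [k3] at U1
  rw [k4] at U2
  have q1 := pw_two ku
  have q2 := pw_two kf
  have q3 : pw kf ≤ pw (ku + 1) := pw_le_pw (by omega)
  have q4 : pw ku ≤ pw i := pw_le_pw (by omega)
  have q5 := pw_pos (kf + 1)
  have q6 := pw_le_one ku
  have hWi : pw i ≤ W := by
    have := (Mu.zero i).le_of_lt hLm.1.lv.mu hLm.2.1
    linarith
  have haF : Fus (lam - (lam - a)) := by
    have e : lam - (lam - a) = a := by ring
    rw [e]; exact C.ha
  have hTz : Tm (W + 1 - 2 ^ h * (lam - a)) :=
    S.dn _ (by linarith) (by linarith) haF (by linarith)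
  have hza : W + 1 - 2 ^ h * (lam - a) ≤ a := S.inner_le (by linarith)
  -- the frame of `z`
  obtain ⟨y, iy, hy, hyF, hy1, hy2, hyt, hymin⟩ := succ_frame C.H
    (r := W + 1 - 2 ^ h * (lam - a) - 1) (by linarith) S.hW (by linarith) hWt
  have hyW : y ≤ W - pw (kf + 1) := hymin _ (hLm.2.2 (kf + 1) (by omega)) (by linarith)
  have hyW2 : W - pw kf ≤ y - pw iy :=
    hy.2.le_of_lt' (hLm.2.2 kf (by omega)) (by linarith)
  have hiyk : kf + 1 ≤ iy := pw_le_iff.mp (by linarith)
  have hpiy := pw_pos iy
  have hpiy1 := pw_le_one iy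
  obtain ⟨kz, z1, z2⟩ := exists_lead (c := y + 1 - (W + 1 - 2 ^ h * (lam - a))) (by linarith)
    (by linarith)
  have hkz := lead_ge z1 (show y + 1 - (W + 1 - 2 ^ h * (lam - a)) ≤ pw iy by linarith)
  have z3 := pw_two kz
  -- the frame of `w`
  obtain ⟨v, iv, hv, hvF, hv1, hv2, hvt, hvmin⟩ := succ_frame C.H (r := b - 1) (by linarith)
    C.ha (by linarith) (by linarith)
  have G1 := S.pow hjk
  have G2 := S.pow (show j ≤ ku + 1 by omega)
  have eG2 : pw (h + (ku + 1)) = pw (h + ku + 1) := rfl
  rw [eG2] at G2
  have hvl : lam - pw (h + ku) ≤ v - pw iv := hv.2.le_of_lt' G1 (by linarith)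
  have hvu : v ≤ lam - pw (h + ku + 1) := hvmin _ G2 (by linarith)
  have hpiv1 := pw_le_one iv
  obtain ⟨kr, r1, r2⟩ := exists_lead (c := v - (b - 1)) (by linarith) (by linarith)
  obtain ⟨hiYv, _⟩ := C.lowB hv hv1 r1 r2
  have hXl : lam - pw (h + ku) ≤ X := C.leX G1 (by linarith)
  by_cases hval : W + 1 - 2 ^ h * (lam - (b - 1)) <
      W + 1 - 2 ^ h * (lam - a) - pw iy + pw (kz + 1)
  · -- valid lowering
    have L1 := lower C.H hTz (by linarith) hy hkz z1 z2
    have siy := scale h iy
    have skz := scale h (kz + 1)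
    have p1 : pw (h + iy) ≤ pw (h + kf + 1) := pw_le_pw (by omega)
    have p2 : pw (h + (kz + 1)) < pw (h + iy) := pw_lt_pw (by omega)
    have p3 := pw_pos (h + (kz + 1))
    have p4 := pw_two (h + iy)
    have p5 := pw_two (h + (kz + 1))
    have L2 : Fus (a - pw (h + iy) + pw (h + (kz + 1))) := by
      have := S.up (lam - a + pw (h + iy) - pw (h + (kz + 1))) (by linarith) (by linarith) (by
        have e : W + 1 - 2 ^ h * (lam - a + pw (h + iy) - pw (h + (kz + 1))) =
          W + 1 - 2 ^ h * (lam - a) - pw iy + pw (kz + 1) := by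
          rw [← siy, ← skz]; ring
        rw [e]; exact L1)
      have e : lam - (lam - a + pw (h + iy) - pw (h + (kz + 1))) =
        a - pw (h + iy) + pw (h + (kz + 1)) := by ring
      rwa [e] at this
    have hval2 : b - 1 < a - pw (h + iy) + pw (h + (kz + 1)) := by
      have : (2 : ℚ) ^ h * (lam - a + pw (h + iy) - pw (h + (kz + 1))) <
          2 ^ h * (lam - (b - 1)) := by
        have e : (2 : ℚ) ^ h * (lam - a + pw (h + iy) - pw (h + (kz + 1))) =
          2 ^ h * (lam - a) + pw iy - pw (kz + 1) := by
          rw [← siy, ← skz]; ring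
        rw [e]; linarith
      have := lt_of_mul_lt_mul_left this hp.le
      linarith
    have hSC : iY ≤ h + iy + 1 ∧ pw (h + (kz + 1) + 1) < Y + 1 - t := by
      by_contra hcon
      refine C.scB L2 C.hb (by linarith) (by linarith) (l := h + iy + 1)
        (l' := h + (kz + 1) + 1) (by omega) (by omega) (by linarith) ?_
      by_contra h3
      push Not at h3
      exact hcon ⟨by omega, h3.2⟩
    -- inner consecutive pairs
    have cv := S.consec hv.2 (by linarith) (by linarith) hvt
    have cY := S.consec C.hc (by linarith) (by linarith) (by linarith)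
    obtain ⟨ivn, hivn⟩ := exists_str C.H _ cv.2.1 (by
      have := S.inner_le (x := v) (by linarith)
      linarith)
    obtain ⟨iYn, hiYn⟩ := exists_str C.H _ cY.2.1 (by
      have := S.inner_le (x := Y) (by linarith)
      linarith)
    have gv := consec_gap cv hivn
    have gY := consec_gap cY hiYn
    have hiv : iv = h + ivn := by
      apply pw_inj
      have : (2 : ℚ) ^ h * pw iv = 2 ^ h * pw (h + ivn) := by
        rw [scale]; linarith
      exact mul_left_cancel₀ hp.ne' this
    have hiY : iY = h + iYn := by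
      apply pw_inj
      have : (2 : ℚ) ^ h * pw iY = 2 ^ h * pw (h + iYn) := by
        rw [scale, ← hYX]; linarith
      exact mul_left_cancel₀ hp.ne' this
    have hτ : t - 1 = lam - ((lam - a) + (lam - (b - 1))) / 2 := by linarith
    have hτi : (W + 1 - 2 ^ h * (lam - a) + (W + 1 - 2 ^ h * (lam - (b - 1)))) / 2 =
        W + 1 - 2 ^ h * (lam - (t - 1)) := by
      rw [hτ]; ring
    have scv : Sc (W + 1 - 2 ^ h * (lam - v)) ivn := sc_of_consec cv hivn
    have m1 := sf _ _ (show lam - v < lam - (b - 1) by linarith)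
    have m2 := sfl _ _ (show lam - (b - 1) ≤ lam - (v - pw iv) by linarith)
    have m3 := sfl _ _ (show lam - (t - 1) ≤ lam - X by linarith)
    have m4 := sf _ _ (show lam - Y < lam - (t - 1) by linarith)
    obtain ⟨c1, c2, c3⟩ := score C.H (z := W + 1 - 2 ^ h * (lam - a))
      (w := W + 1 - 2 ^ h * (lam - (b - 1))) (y := y) (v := W + 1 - 2 ^ h * (lam - v))
      (X := W + 1 - 2 ^ h * (lam - X)) (Y := W + 1 - 2 ^ h * (lam - Y))
      (iy := iy) (iv := ivn) (iY := iYn) (kz := kz) hTz.fus (by linarith) hy hyF (by linarith)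
      hy2 z1 (by linarith) (by linarith) (by linarith) scv cv.2.1 (by linarith) (by linarith)
      hval cY hiYn (by rw [hτi]; linarith) (by rw [hτi]; linarith) (by omega) (by omega)
    -- finish
    have sh : pw h * 2 ^ h = 1 := pw_mul_two_pow h
    have hpwh := pw_pos h
    rw [hτi] at c3
    have E1 : pw h * (y + 1 - (W + 1 - 2 ^ h * (lam - a))) + (v - (b - 1)) =
        2 * pw iY + 2 * (Y + 1 - t) := by
      have a1 := congrArg (fun x => pw h * x) c3
      beta_reduce at a1
      have a2 : pw h * (y + 1 - (W + 1 - 2 ^ h * (lam - a)) +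
          (W + 1 - 2 ^ h * (lam - v) - (W + 1 - 2 ^ h * (lam - (b - 1))))) =
          pw h * (y + 1 - (W + 1 - 2 ^ h * (lam - a))) + (pw h * 2 ^ h) * (v - (b - 1)) := by
        ring
      have a3 : pw h * (2 * pw iYn + 2 * (W + 1 - 2 ^ h * (lam - Y) -
          (W + 1 - 2 ^ h * (lam - (t - 1))))) =
          2 * (pw h * pw iYn) + 2 * ((pw h * 2 ^ h) * (Y - (t - 1))) := by ring
      rw [a2, a3, sh, ← pw_add, ← hiY] at a1
      linarith
    have E2 : pw (h + kz + 1) < pw h * (y + 1 - (W + 1 - 2 ^ h * (lam - a))) := by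
      rw [show h + kz + 1 = h + (kz + 1) by ring, pw_add]
      exact mul_lt_mul_of_pos_left z1 hpwh
    have E3 : pw h * (y + 1 - (W + 1 - 2 ^ h * (lam - a))) ≤ pw (h + kz) := by
      rw [pw_add]
      exact mul_le_mul_of_nonneg_left z2 hpwh.le
    have hivy : iv = h + iy := by omega
    refine C.finish (E := pw h * (y + 1 - (W + 1 - 2 ^ h * (lam - a)))) (K := h + kz) hv hvF
      hv1 r1 r2 E2 E3 (E3.trans (pw_le_pw (by omega))) (by omega) E1 ?_ ?_
    · rw [hivy]; exact L2
    · exact hSC.2
  · -- invalid lowering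
    push Not at hval
    have hMW : Mu iy (W - pw (ku + 1)) :=
      (hLm.1.lv.mu.mono (by omega)).sub (Mu.ofPw (by omega))
    have hMy : Mu iy (y - pw iy) := hy.1.lv.mu.sub (Mu.ofPw le_rfl)
    have p0 : pw (kz + 1) ≤ pw (iy + 1) := pw_le_pw (by omega)
    have p1 := pw_two iy
    have hyeq : y - pw iy = W - pw (ku + 1) := by
      apply le_antisymm
      · by_contra hcon
        push Not at hcon
        have := hMW.le_of_lt hMy hcon
        linarith only [this, hval, U1, z2, z3, p0, p1, hpiy]
      · linarith only [hyW2, q3]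
    have siy := scale h iy
    have skz := scale h (kz + 1)
    have skz0 := scale h kz
    have p2 : pw (h + iy) ≤ pw (h + kf + 1) := pw_le_pw (by omega)
    have p3 := pw_pos (h + iy)
    set eta := lam - pw (h + ku + 1) + pw (h + iy) with heta
    have hδ : (2 : ℚ) ^ h * (pw (h + ku + 1) - pw (h + iy)) = W - y := by
      rw [mul_sub, k3, siy]; linarith
    have hδle : pw (h + ku + 1) - pw (h + iy) ≤ W - y := by
      have h1 : (1 : ℚ) ≤ 2 ^ h := one_le_pow₀ (by norm_num)
      rw [← hδ]
      have : 0 ≤ pw (h + ku + 1) - pw (h + iy) := by linarith only [p2, e3, e2, e5, e1, e6]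
      exact le_mul_of_one_le_left this h1
    have hyt' : y < W := by linarith
    have Sy : St t eta y h iy := by
      refine ⟨hyF, hyt, fun z hz hz2 => S.hWs z hz (by linarith), ⟨iy, hy.1, le_rfl⟩, ?_, ?_,
        ?_, ?_⟩
      · intro d hd0 hd1 hfd
        have := S.up (pw (h + ku + 1) - pw (h + iy) + d) (by linarith) (by linarith) (by
          rw [mul_add, hδ]
          have e : W + 1 - (W - y + 2 ^ h * d) = y + 1 - 2 ^ h * d := by ring
          rw [e]; exact hfd)
        have e : lam - (pw (h + ku + 1) - pw (h + iy) + d) = eta - d := by rw [heta]; ring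
        rwa [e] at this
      · intro d hd0 hd1 hfd hlt
        have e : eta - d = lam - (pw (h + ku + 1) - pw (h + iy) + d) := by rw [heta]; ring
        rw [e] at hfd hlt
        have := S.dn _ (by linarith) (by linarith) hfd hlt
        rw [mul_add, hδ] at this
        have e : W + 1 - (W - y + 2 ^ h * d) = y + 1 - 2 ^ h * d := by ring
        rwa [e] at this
      · exact ((S.mu.mono (by omega)).sub (Mu.ofPw (by omega))).add (Mu.ofPw le_rfl)
      · have := S.hWl
        linarith
    have eta_a : (2 : ℚ) ^ h * (eta - a) = y + 1 - (W + 1 - 2 ^ h * (lam - a)) := by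
      have e : eta - a = lam - a - (pw (h + ku + 1) - pw (h + iy)) := by rw [heta]; ring
      rw [e, mul_sub, hδ]; ring
    have eH : eta - pw (h + iy) = lam - pw (h + ku + 1) := by rw [heta]; ring
    refine C.swapB (k := kz) Sy hy ?_ (by rw [eH]; exact G2) hkz ?_ ?_ ?_ ?_
    · intro d hd0 hd1 hfd
      rw [eH]
      have := S.up (pw (h + ku + 1) + d) (by linarith) (by linarith) (by
        rw [mul_add, k3]
        have e : W + 1 - (pw (ku + 1) + 2 ^ h * d) = y - pw iy + 1 - 2 ^ h * d := by
          rw [hyeq]; ring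
        rw [e]; exact hfd)
      have e : lam - (pw (h + ku + 1) + d) = lam - pw (h + ku + 1) - d := by ring
      rwa [e] at this
    · apply lt_of_mul_lt_mul_left _ hp.le
      rw [eta_a, show h + kz + 1 = h + (kz + 1) by ring, skz]
      exact z1
    · apply le_of_mul_le_mul_left _ hp
      rw [eta_a, skz0]
      exact z2
    · rw [eH]; linarith
    · rw [eH]
      have : (2 : ℚ) ^ h * (lam - (b - 1)) ≤
          2 ^ h * (lam - a + pw (h + iy) - pw (h + (kz + 1))) := by
        have e : (2 : ℚ) ^ h * (lam - a + pw (h + iy) - pw (h + (kz + 1))) =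
          2 ^ h * (lam - a) + pw iy - pw (kz + 1) := by
          rw [← siy, ← skz]; ring
        rw [e]; linarith
      have := le_of_mul_le_mul_left this hp
      have e : pw (h + (kz + 1)) = pw (h + kz + 1) := rfl
      rw [e] at this
      rw [heta]
      linarith

/-- Situation A. -/
theorem sitA (C : Ctx t a b X Y iY) :
    ∀ W, Fus W → ∀ lam h j, St t lam W h j → 0 < lam - a → lam - (b - 1) ≤ pw (h + j) →
      False := by
  apply Fus.strong_induction
  intro W hW ih lam h j S hf0 hu
  have hp := two_pow_pos h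
  have ht := C.ht
  have hat := C.at'
  have hbt := C.bt
  have hab := C.ab
  have hba := C.hba
  have hX := C.hX
  have hY := C.hY
  have hYX := C.hYX
  have hYt := C.Yt
  have hge := C.ge
  have hYa := C.Yle C.ha C.ta
  have haF : Fus (lam - (lam - a)) := by
    have e : lam - (lam - a) = a := by ring
    rw [e]; exact C.ha
  have hTa : Tm (W + 1 - 2 ^ h * (lam - a)) :=
    S.dn _ (by linarith) (by linarith) haF (by linarith)
  obtain ⟨i, hi, hij⟩ := S.lvW
  rcases eq_or_lt_of_le hW.nonneg with hW0 | hW0
  · -- `W = 0`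
    subst hW0
    have G := S.pow (le_refl j)
    have hXl := C.leX G (by linarith)
    obtain ⟨kY, hkY, hYeq⟩ := S.zero_form C.YF (by linarith) (by linarith) (by linarith)
    obtain ⟨kX, hkX, hXeq⟩ := S.zero_form C.XF (by linarith) (by linarith) (by linarith)
    have hpY := pw_pos iY
    have a1 : pw (h + kY) < pw (h + kX) := by linarith
    have a2 := pw_lt_iff.mp a1
    have G2 := S.pow (show j ≤ kX + 1 by omega)
    have e1 : pw (h + (kX + 1)) = pw (h + kX + 1) := rfl
    rw [e1] at G2
    have e2 := pw_two (h + kX)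
    have e3 := pw_pos (h + kX + 1)
    have a3 := C.hc.le_of_lt G2 (by linarith)
    have a4 : pw (h + kX + 1) ≤ pw (h + kY) := by linarith
    have a5 := pw_le_iff.mp a4
    have a6 : kY = kX + 1 := by omega
    subst a6
    rw [e1] at hYeq
    linarith
  · obtain ⟨kf, hjf, f1, f2⟩ := S.lead (f := lam - a) hf0 (by linarith)
    obtain ⟨ku, hju, u1, u2⟩ := S.lead (f := lam - (b - 1)) (by linarith) hu
    have hkuf : ku ≤ kf := by
      by_contra hcon
      push Not at hcon
      have : pw (h + ku) ≤ pw (h + kf + 1) := pw_le_pw (by omega)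
      linarith
    have e1 := pw_two (h + kf)
    have e2 := pw_two (h + ku)
    have e3 := pw_pos (h + kf + 1)
    have e4 := pw_pos (h + ku + 1)
    have skf : (2 : ℚ) ^ h * pw (h + kf + 1) = pw (kf + 1) := scale h (kf + 1)
    rcases hi.cases hW with hh | hh | hh
    · exact absurd hh hW0.ne'
    · -- successor
      have hpi := pw_pos i
      rcases Nat.eq_or_lt_of_le hkuf with hk | hk
      · subst hk
        have S' := S.sc C.H hh hju
        have e5 : pw (h + 1 + ku) = pw (h + ku + 1) := by congr 1; ring
        exact ih _ hh.2.1 (by linarith) _ _ _ S' (by linarith) (by rw [e5]; linarith)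
      · -- the inner recursion for `a`
        have hff : 0 < lam - a - pw (h + kf + 1) := by linarith
        have Tin : Tm (W - pw i + 1 - 2 ^ (h + 1) * (lam - a - pw (h + kf + 1))) := by
          have h1 := crec_dn (c := 2 ^ h * (lam - a)) hh (show i ≤ kf by omega)
            (by have : (2 : ℚ) ^ h * pw (h + kf + 1) < 2 ^ h * (lam - a) :=
                  mul_lt_mul_of_pos_left f1 hp
                rwa [skf] at this)
            (by rw [← scale h kf]; exact mul_le_mul_of_nonneg_left f2 hp.le) hTa
          have e : W - pw i + 1 - 2 * (2 ^ h * (lam - a) - pw (kf + 1)) =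
            W - pw i + 1 - 2 ^ (h + 1) * (lam - a - pw (h + kf + 1)) := by
            rw [← skf, pow_succ]; ring
          rwa [e] at h1
        have S0 := S.sc C.H hh hju
        have e5 : pw (h + 1 + ku) = pw (h + ku + 1) := by congr 1; ring
        rcases Nat.eq_or_lt_of_le (Nat.succ_le_of_lt hk) with hk2 | hk2
        · -- adjacent bits
          have hkf : kf = ku + 1 := by omega
          subst hkf
          have e6 := pw_two (h + ku + 1)
          have e7 : pw (h + (ku + 1)) = pw (h + ku + 1) := rfl
          have e8 : pw (h + (ku + 1) + 1) = pw (h + ku + 1 + 1) := rfl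
          rw [e7] at f2 e1
          rw [e8] at f1 e1 e3 Tin hff
          by_cases hcmp : lam - a - pw (h + ku + 1 + 1) < lam - (b - 1) - pw (h + ku + 1)
          · have F0 := S0.up _ hff (by rw [e5]; linarith) Tin.fus
            have eF : lam - pw (h + ku + 1) - (lam - a - pw (h + ku + 1 + 1)) =
              a - pw (h + ku + 1 + 1) := by linarith
            rw [eF] at F0
            have e9 := pw_two (h + ku + 1 + 1)
            have e10 := pw_pos (h + ku + 1 + 1 + 1)
            have G1 := S.two C.H hW0 (show j ≤ ku + 1 by omega)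
              (show ku + 1 + 2 ≤ ku + 3 by omega)
            have G2 := S.pow (show j ≤ ku + 1 by omega)
            have G3 := S.two C.H hW0 hju (show ku + 2 ≤ ku + 3 by omega)
            have G4 := S.two C.H hW0 hju (show ku + 2 ≤ ku + 2 by omega)
            have c1 : pw (h + (ku + 1) + 1) = pw (h + ku + 1 + 1) := rfl
            have c2 : pw (h + (ku + 3)) = pw (h + ku + 1 + 1 + 1) := rfl
            have c3 : pw (h + (ku + 1)) = pw (h + ku + 1) := rfl
            have c4 : pw (h + (ku + 2)) = pw (h + ku + 1 + 1) := rfl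
            rw [c1, c2] at G1
            rw [c3] at G2
            rw [c2] at G3
            rw [c4] at G4
            have hL : h + ku + 1 + 1 + 1 ≤ iY := by
              by_cases d1 : t - 1 < lam - (pw (h + ku + 1) + pw (h + ku + 1 + 1 + 1))
              · exact C.sandwich G4 G3 (by linarith) d1 (by linarith)
              · push Not at d1
                by_cases d2 : t - 1 < lam - pw (h + ku + 1)
                · exact C.sandwich G3 G2 d1 d2 (by linarith)
                · push Not at d2
                  exact C.sandwich G2 G1 d2 (by linarith) (by linarith)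
            exact C.scA F0 C.hb (l := h + ku + 1 + 1 + 1) (by linarith) (by linarith)
              (by omega) (by linarith) hL
          · push Not at hcmp
            have S1 := S.sc C.H hh (show j ≤ ku + 1 by omega)
            have e9 : pw (h + 1 + (ku + 1)) = pw (h + ku + 1 + 1) := by congr 1; ring
            have e10 : pw (h + (ku + 1) + 1) = pw (h + ku + 1 + 1) := rfl
            rw [e10] at S1
            have G2 := S.pow (show j ≤ ku + 1 by omega)
            rw [e7] at G2
            have e11 : lam - pw (h + ku + 1 + 1) - pw (h + 1 + (ku + 1)) =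
              lam - pw (h + ku + 1) := by rw [e9]; linarith
            refine C.sitB _ hh.2.1 _ _ _ S1 ?_ (by rw [e11]; exact G2) (by rw [e11]; linarith)
              (by rw [e11]; linarith) (by rw [e9]; linarith)
            intro d hd0 hd1 hT
            rw [e9] at hd1
            rw [e11]
            exact S0.up d hd0 (by rw [e5]; linarith) hT.fus
        · -- exchange
          have hk3 : ku + 2 ≤ kf := by omega
          have S1 := S.sc C.H hh (show j ≤ ku + 1 by omega)
          have e6 := pw_two (h + ku + 1)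
          have e9 : pw (h + 1 + (ku + 1)) = pw (h + ku + 1 + 1) := by congr 1; ring
          have e10 : pw (h + (ku + 1) + 1) = pw (h + ku + 1 + 1) := rfl
          rw [e10] at S1
          have e12 : pw (h + kf) ≤ pw (h + ku + 1 + 1) := pw_le_pw (by omega)
          have Fa : Fus (a - (pw (h + ku + 1 + 1) - pw (h + kf + 1))) := by
            have h2 := S1.up _ hff (by rw [e9]; linarith) Tin.fus
            have e4 : lam - pw (h + ku + 1 + 1) - (lam - a - pw (h + kf + 1)) =
              a - (pw (h + ku + 1 + 1) - pw (h + kf + 1)) := by ring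
            rwa [e4] at h2
          have Fb : Fus (b + pw (h + ku + 1 + 1) - pw (h + kf + 1)) := by
            by_cases hc : lam - pw (h + ku + 1) - (b - 1) ≤ pw (h + ku + 1 + 1)
            · have G2 := S.pow (show j ≤ ku + 1 by omega)
              have e7 : pw (h + (ku + 1)) = pw (h + ku + 1) := rfl
              rw [e7] at G2
              refine C.raise (κ := lam - pw (h + ku + 1)) (k := h + ku + 1 + 1)
                (l := h + kf + 1) G2 (by omega)
                ((S.mu.mono (by omega)).sub (Mu.ofPw (by omega))) (by linarith) hc (by omega) ?_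
              intro l' hl'
              obtain ⟨l, rfl⟩ := Nat.exists_eq_add_of_le (show h + 1 ≤ l' by omega)
              have := S1.pow (k := l) (by omega)
              have e5 : lam - pw (h + ku + 1) + pw (h + ku + 1 + 1) - pw (h + 1 + l) =
                lam - pw (h + ku + 1 + 1) - pw (h + 1 + l) := by linarith
              rw [e5]; exact this
            · push Not at hc
              have G3 := S0.pow (show ku ≤ ku + 1 by omega)
              rw [e9] at G3
              refine C.raise (κ := lam - pw (h + ku + 1) - pw (h + ku + 1 + 1))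
                (k := h + ku + 1 + 1) (l := h + kf + 1) G3 (by omega)
                (((S.mu.mono (by omega)).sub (Mu.ofPw (by omega))).sub (Mu.ofPw le_rfl))
                (by linarith) (by linarith) (by omega) ?_
              intro l' hl'
              obtain ⟨l, rfl⟩ := Nat.exists_eq_add_of_le (show h + 1 ≤ l' by omega)
              have := S0.pow (k := l) (by omega)
              have e5 : lam - pw (h + ku + 1) - pw (h + ku + 1 + 1) + pw (h + ku + 1 + 1) -
                pw (h + 1 + l) = lam - pw (h + ku + 1) - pw (h + 1 + l) := by linarith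
              rw [e5]; exact this
          have e6' : b + pw (h + ku + 1 + 1) - pw (h + kf + 1) =
            b + (pw (h + ku + 1 + 1) - pw (h + kf + 1)) := by ring
          rw [e6'] at Fb
          exact C.exch (by linarith) Fa Fb (by linarith)
    · -- limit
      rcases Nat.eq_or_lt_of_le hkuf with hk | hk
      · subst hk
        have S' := S.lm C.H hh hju
        have e5 : pw (h + (ku + 1)) = pw (h + ku + 1) := rfl
        have hpk := pw_pos (ku + 1)
        exact ih _ (hh.2.2 (ku + 1) (by omega)) (by linarith) _ _ _ S' (by linarith)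
          (by rw [e5]; linarith)
      · exact C.sitLim S hh hju hk f1 f2 u1 u2

end Ctx

end Pool.Agent.Lib.MP_67db36_lc
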