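import Pool.Agent.Lib.MP_67db36_lc.States

/-!
The situation where `a` lies in a copy `[ζ0, lam)` and `b - 1` just below `ζ0`.
-/

set_option autoImplicit false

namespace Pool.Agent.Lib.MP_67db36_lc

namespace Ctx

variable {t a b X Y : ℚ} {iY : ℕ}

/-- the run of limits. -/
theorem sitBL (C : Ctx t a b X Y iY) {lam W : ℚ} {h j i : ℕ} (S : St t lam W h j)
    (hLm : Lm W i) (hf : lam - a ≤ pw (h + j + 1))
    (hu : lam - pw (h + j) - (b - 1) ≤ pw (h + j + 2)) :
    ∀ Wc, Fus Wc → ∀ Sg g m, Wc = W - 2 ^ h * Sg → Lv Wc m → Mu (h + m) Sg → Mu (h + m) g →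
      0 ≤ g → g ≤ Sg → 0 < Sg → Sg + pw (h + m) ≤ pw (h + j + 1) → Dm (g + pw (h + m + 1)) Sg →
      0 < lam - a - Sg → lam - a - Sg ≤ pw (h + m) →
      0 < lam - pw (h + j) - (b - 1) - g →
      lam - pw (h + j) - (b - 1) - g ≤ lam - a - Sg →
      (∀ d, 0 < d → d ≤ pw (h + m) → Tm (Wc + 1 - 2 ^ h * d) →
        Fus (lam - pw (h + j) - g - d)) →
      Fus (lam - pw (h + j) - g) → False := by
  have hij := S.lv_le hLm.1.lv
  have hp := two_pow_pos h
  have hR := pw_two (h + j)
  have hR2 := pw_two (h + j + 1)
  have hRp := pw_pos (h + j + 1)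
  have hRp2 := pw_pos (h + j + 2)
  have hR1 := pw_le_one (h + j)
  have hsR := scale h j
  have ht := C.ht
  have hat := C.at'
  have hbt := C.bt
  have hX := C.hX
  have hY := C.hY
  have hYX := C.hYX
  have hYt := C.Yt
  -- the element `V`
  have hV := hLm.2.2 j hij
  have hVt : W - pw j + 1 ≤ t := S.hWs _ hV (by linarith [pw_pos j])
  obtain ⟨iV, hiV⟩ := exists_str C.H _ hV (by linarith)
  have hiVj : iV ≤ j :=
    (hiV.lv j).mp ((hLm.1.lv.mu.mono hij).sub (Mu.ofPw le_rfl))
  have hpV := pw_le_pw hiVj
  -- midpoints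
  have mid : ∀ S' g', Fus (W - 2 ^ h * S') → Fus (W - pw j + 1 - 2 ^ h * g') → 0 ≤ g' → 0 < S' →
      S' < pw (h + j) → S' + g' ≤ pw (h + j) → g' ≤ S' + pw (h + j) →
      Fus (lam - (S' + pw (h + j) + g') / 2) := by
    intro S' g' k1 k2 k3 k4 k5 k6 k7
    apply S.up _ (by linarith) (by linarith)
    have a1 : (2 : ℚ) ^ h * S' < pw j := by rw [← hsR]; exact mul_lt_mul_of_pos_left k5 hp
    have a2 : 0 ≤ (2 : ℚ) ^ h * g' := mul_nonneg hp.le k3
    have a3 : 0 < (2 : ℚ) ^ h * S' := mul_pos hp k4
    have a4 : (2 : ℚ) ^ h * S' + 2 ^ h * g' ≤ pw j := by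
      rw [← hsR, ← mul_add]; exact mul_le_mul_of_nonneg_left k6 hp.le
    have a5 := pw_le_one j
    have a6 := pw_pos j
    have e : (2 : ℚ) ^ h * ((S' + pw (h + j) + g') / 2) =
      (2 ^ h * S' + pw j + 2 ^ h * g') / 2 := by rw [← hsR]; ring
    rw [e]
    exact Fus.fuse' k1 k2 (by linarith) (by linarith) (by linarith)
  -- position of `t - 1`
  have hτ : t - 1 = lam - ((lam - a) + pw (h + j) + (lam - pw (h + j) - (b - 1))) / 2 := by
    linarith
  apply Fus.strong_induction
  intro Wc hWc ih Sg g m hWeq hLv hMS hMg hg0 hgS hS0 hSm hdm f1 f2 u1 u2 hsub hζ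
  have hpm := pw_pos (h + m)
  have hpm1 := pw_two (h + m)
  have hpm1p := pw_pos (h + m + 1)
  have hpm2 := pw_two (h + m + 1)
  have hsm := scale h m
  have hsm1 := scale h (m + 1)
  have hpmm := pw_two m
  have hSg0 : 0 < (2 : ℚ) ^ h * Sg := mul_pos hp hS0
  have hWcW : Wc < W := by linarith
  have hWct : Wc + 1 ≤ t := S.hWs _ hWc hWcW
  have hSgle : (2 : ℚ) ^ h * Sg ≤ pw (j + 1) := by
    have e := scale h (j + 1)
    rw [← e]
    apply mul_le_mul_of_nonneg_left _ hp.le
    have : Sg ≤ pw (h + j + 1) := by linarith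
    exact this
  have hjj := pw_two j
  have hpj1 := pw_pos (j + 1)
  -- elements `V + 1 - 2^h g'`
  have T0 : Tm (W - pw j + 1 - 2 ^ h * Sg) := by
    apply C.H _ _ (by linarith)
    have := hWc.add_one_sub_pw j
    have e : Wc + 1 - pw j = W - pw j + 1 - 2 ^ h * Sg := by rw [hWeq]; ring
    rwa [e] at this
  have hpj := pw_le_one j
  have G1 : Fus (W - pw j + 1 - 2 ^ h * (g + pw (h + m + 1))) := by
    have h1 : 0 < (2 : ℚ) ^ h * (g + pw (h + m + 1)) := mul_pos hp (by linarith)
    have h2 : (2 : ℚ) ^ h * (g + pw (h + m + 1)) ≤ pw j := by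
      rw [← hsR]; exact mul_le_mul_of_nonneg_left (by linarith) hp.le
    exact (dom C.H hV (by linarith) hiV h1 (by linarith) (hdm.two_pow_mul h) (by linarith) T0).fus
  have G0 : Fus (W - pw j + 1 - 2 ^ h * g) := by
    rcases eq_or_lt_of_le hg0 with hg | hg
    · rw [← hg, mul_zero, sub_zero]; exact hV.add_one
    · have h1 : 0 < (2 : ℚ) ^ h * g := mul_pos hp hg
      have h2 : (2 : ℚ) ^ h * g ≤ pw j := by
        rw [← hsR]; exact mul_le_mul_of_nonneg_left (by linarith) hp.le
      have hd : Dm g (g + pw (h + m + 1)) := by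
        intro k
        rw [N_split hMg hg0 hpm1p.le (by linarith)]
        omega
      exact (dom C.H hV (by linarith) hiV h1 (by linarith)
        ((hd.trans hdm).two_pow_mul h) (by linarith) T0).fus
  have hWc0 : 0 < Wc := by
    have h1 : pw i ≤ W := by
      have := (Mu.zero i).le_of_lt hLm.1.lv.mu hLm.2.1
      linarith
    have h2 := pw_le_pw hij
    linarith
  obtain ⟨ic, hic⟩ := exists_str C.H Wc hWc (by linarith)
  have hicm : ic = m := hic.lv.unique hLv
  subst hicm
  rcases hic.cases hWc with hh | hh | hh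
  · exact absurd hh hWc0.ne'
  · -- successor: final contradiction
    -- the lowering of `a`
    have hTa : Tm (W + 1 - 2 ^ h * (lam - a)) := by
      apply S.dn _ (by linarith) (by linarith)
      · have e : lam - (lam - a) = a := by ring
        rw [e]; exact C.ha
      · linarith
    have hmi : 0 < (2 : ℚ) ^ h * (lam - a - Sg) := mul_pos hp f1
    have hml : (2 : ℚ) ^ h * (lam - a - Sg) ≤ pw ic := by
      rw [← hsm]; exact mul_le_mul_of_nonneg_left f2 hp.le
    obtain ⟨ke, k1, k2⟩ := exists_lead hmi (hml.trans (pw_le_one _))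
    have hike := lead_ge k1 hml
    have ez : Wc + 1 - (W + 1 - 2 ^ h * (lam - a)) = 2 ^ h * (lam - a - Sg) := by
      rw [hWeq]; ring
    have hWza : W + 1 - 2 ^ h * (lam - a) < t := by linarith
    have L1 := lower C.H hTa hWza hh hike (by rw [ez]; exact k1) (by rw [ez]; exact k2)
    have hske := scale h (ke + 1)
    have hpke : pw (h + (ke + 1)) ≤ pw (h + ic + 1) := pw_le_pw (by omega)
    have hpke0 := pw_pos (h + (ke + 1))
    have L2 : Fus (lam - (lam - a + pw (h + ic) - pw (h + (ke + 1)))) := by
      apply S.up _ (by linarith) (by linarith)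
      have e : W + 1 - 2 ^ h * (lam - a + pw (h + ic) - pw (h + (ke + 1))) =
        W + 1 - 2 ^ h * (lam - a) - pw ic + pw (ke + 1) := by
        rw [← hsm, ← hske]; ring
      rw [e]; exact L1
    have hiY : iY ≤ h + ic + 1 := by
      by_contra hcon
      push Not at hcon
      have hab := C.ab
      have hba := C.hba
      have q1 := pw_two (h + (ke + 1))
      refine C.scB L2 C.hb (by linarith) (by linarith) (l := h + ic + 1)
        (l' := h + (ke + 1) + 1) (by omega) (by omega) (by linarith) (Or.inl hcon)
    have Mm : Mu (h + ic + 1) (lam - (Sg + pw (h + j) + g) / 2) := by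
      have hjm : j ≤ ic := by
        have : pw (h + ic) ≤ pw (h + j + 1) := by linarith
        have := pw_le_iff.mp this
        omega
      have m1 := (S.mu.mono (show h + j ≤ h + ic by omega))
      have m2 := ((hMS.add (Mu.ofPw (show h + j ≤ h + ic by omega))).add hMg).half
      exact (m1.mono (by omega)).sub m2
    have M1 := mid Sg g (by rw [← hWeq]; exact hWc) G0 hg0 hS0 (by linarith) (by linarith)
      (by linarith)
    have M2 := mid Sg (g + pw (h + ic + 1)) (by rw [← hWeq]; exact hWc) G1 (by linarith) hS0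
      (by linarith) (by linarith) (by linarith)
    have M3 := mid (Sg + pw (h + ic)) (g + pw (h + ic + 1)) (by
      rw [mul_add, hsm]
      have e : W - (2 ^ h * Sg + pw ic) = Wc - pw ic := by rw [hWeq]; ring
      rw [e]; exact hh.2.1) G1 (by linarith) (by linarith) (by linarith) (by linarith)
      (by linarith)
    refine lemZ C.hc C.sY C.hX C.hY hiY Mm (by linarith) (by linarith) M1 ?_ ?_
    · have e : lam - (Sg + pw (h + j) + g) / 2 - pw (h + ic + 1 + 1) =
        lam - (Sg + pw (h + j) + (g + pw (h + ic + 1))) / 2 := by linarith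
      rw [e]; exact M2
    · have e : lam - (Sg + pw (h + j) + g) / 2 - pw (h + ic + 1) - pw (h + ic + 1 + 1) =
        lam - (Sg + pw (h + ic) + pw (h + j) + (g + pw (h + ic + 1))) / 2 := by linarith
      rw [e]; exact M3
  · -- limit: strip one more bit
    obtain ⟨k0, k1, k2⟩ := exists_lead f1 (f2.trans (pw_le_one _))
    have hk0 := lead_ge k1 f2
    obtain ⟨k, rfl⟩ := Nat.exists_eq_add_of_le (show h ≤ k0 by omega)
    have hik : ic ≤ k := by omega
    have hsk := scale h (k + 1)
    rw [show h + (k + 1) = h + k + 1 by ring] at hsk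
    have hpk := pw_two (h + k)
    have hpk1 := pw_two (h + k + 1)
    have hpk0 := pw_pos (h + k + 1)
    have hpk00 := pw_pos (h + k + 2)
    have hpkm : pw (h + k) ≤ pw (h + ic) := pw_le_pw (by omega)
    have hWc' := hh.2.2 (k + 1) (by omega)
    have hWceq : Wc - pw (k + 1) = W - 2 ^ h * (Sg + pw (h + k + 1)) := by
      rw [mul_add, hsk, hWeq]; ring
    have hLv' : Lv (Wc - pw (k + 1)) (k + 1) := by
      apply lv_of_not
      · exact (hLv.mu.mono (by omega)).sub (Mu.ofPw le_rfl)
      · intro hM
        have a1 := (hLv.mu.mono hik).sub hM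
        have e : Wc - (Wc - pw (k + 1)) = pw (k + 1) := by ring
        rw [e] at a1
        have := a1.not_pw
        omega
    have hlt' : Wc - pw (k + 1) < Wc := by linarith [pw_pos (k + 1)]
    have hWct' : Wc - pw (k + 1) < t := by linarith
    obtain ⟨ic', hic'⟩ := exists_str C.H _ hWc' hWct'
    have hic'eq := hic'.lv.unique hLv'
    subst hic'eq
    obtain ⟨d1, d2⟩ := dm_step (A := h + ic) (B := h + k + 1) (by omega) hMg hMS hg0 hS0.le hdm
    have MS' : Mu (h + (k + 1)) (Sg + pw (h + k + 1)) :=
      (hMS.mono (by omega)).add (Mu.ofPw (by omega))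
    have Mg' : Mu (h + (k + 1)) g := hMg.mono (by omega)
    -- transfer of the copy property
    have hsub0 : ∀ d, 0 < d → d ≤ pw (h + k + 1) → Tm (Wc - pw (k + 1) + 1 - 2 ^ h * d) →
        Fus (lam - pw (h + j) - g - d) := by
      intro d hd0 hd1 hT
      apply hsub d hd0 (by linarith)
      have c1 : 0 < (2 : ℚ) ^ h * d := mul_pos hp hd0
      have c2 : (2 : ℚ) ^ h * d ≤ pw (k + 1) := by
        rw [← hsk]; exact mul_le_mul_of_nonneg_left hd1 hp.le
      have c3 : pw (k + 1) ≤ pw ic := pw_le_pw (by omega)
      exact mono C.H hWc (by linarith) hic hWc' hlt' hic' c1 c2 (by linarith) hT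
    by_cases hα : pw (h + k + 1) < lam - pw (h + j) - (b - 1) - g
    · -- both contain the bit
      refine ih _ hWc' hlt' (Sg + pw (h + k + 1)) (g + pw (h + k + 1)) (k + 1) hWceq hLv' MS'
        (Mg'.add (Mu.ofPw (by omega))) (by linarith) (by linarith) (by linarith) ?_ d1
        (by linarith) ?_ (by linarith) (by linarith) ?_ ?_
      · have e : pw (h + (k + 1)) = pw (h + k + 1) := rfl
        rw [e]; linarith
      · have e : pw (h + (k + 1)) = pw (h + k + 1) := rfl
        rw [e]; linarith
      · intro d hd0 hd1 hT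
        have hd1 : d ≤ pw (h + k + 1) := hd1
        have := hsub (pw (h + k + 1) + d) (by linarith) (by linarith) (by
          rw [mul_add, hsk]
          have e : Wc + 1 - (pw (k + 1) + 2 ^ h * d) = Wc - pw (k + 1) + 1 - 2 ^ h * d := by ring
          rw [e]; exact hT)
        have e : lam - pw (h + j) - g - (pw (h + k + 1) + d) =
          lam - pw (h + j) - (g + pw (h + k + 1)) - d := by ring
        rwa [e] at this
      · have := hsub (pw (h + k + 1)) (by linarith) (by linarith) (by
          rw [hsk]
          exact tm_pow C.H Wc hWc (by linarith) ic hic (k + 1) (by omega))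
        have e : lam - pw (h + j) - g - pw (h + k + 1) =
          lam - pw (h + j) - (g + pw (h + k + 1)) := by ring
        rwa [e] at this
    · push Not at hα
      by_cases hγ : lam - pw (h + j) - (b - 1) - g ≤ lam - a - Sg - pw (h + k + 1)
      · -- only `f` contains the bit
        refine ih _ hWc' hlt' (Sg + pw (h + k + 1)) g (k + 1) hWceq hLv' MS'
          Mg' hg0 (by linarith) (by linarith) ?_ d2
          (by linarith) ?_ (by linarith) (by linarith) hsub0 hζ
        · have e : pw (h + (k + 1)) = pw (h + k + 1) := rfl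
          rw [e]; linarith
        · have e : pw (h + (k + 1)) = pw (h + k + 1) := rfl
          rw [e]; linarith
      · -- success
        push Not at hγ
        have hTa : Tm (W + 1 - 2 ^ h * (lam - a)) := by
          apply S.dn _ (by linarith) (by linarith)
          · have e : lam - (lam - a) = a := by ring
            rw [e]; exact C.ha
          · linarith
        have A0 := hsub0 (lam - a - Sg - pw (h + k + 1)) (by linarith) (by linarith) (by
          have e : Wc - pw (k + 1) + 1 - 2 ^ h * (lam - a - Sg - pw (h + k + 1)) =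
            W + 1 - 2 ^ h * (lam - a) := by rw [hWceq]; ring
          rw [e]; exact hTa)
        have hζt : lam - pw (h + j) - g < t - 1 := by linarith
        have MM := mid (Sg + pw (h + k + 1)) g (by rw [← hWceq]; exact hWc') G0 hg0
          (by linarith) (by linarith) (by linarith) (by linarith)
        have hYM := C.Yle MM (by linarith)
        have hζF := hζ
        obtain ⟨iζ, hiζ⟩ := exists_str C.H _ hζF (by linarith)
        have hjk : j ≤ k := by
          have : pw (h + ic) ≤ pw (h + j + 1) := by linarith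
          have := pw_le_iff.mp this
          omega
        have Mζ : Mu (h + k + 1) (lam - pw (h + j) - g) :=
          ((S.mu.mono (by omega)).sub (Mu.ofPw (by omega))).sub (hMg.mono (by omega))
        have hiζk := pw_le_pw ((hiζ.lv _).mp Mζ)
        set c := ((lam - a - Sg - pw (h + k + 1)) + (lam - pw (h + j) - (b - 1) - g)) / 2 with hc
        have hTt0 : Tm (lam - pw (h + j) - g + 1 - c) := by
          apply C.H _ _ (by linarith)
          exact Fus.fuse' A0 C.hb (by linarith) (by linarith) (by rw [hc]; linarith)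
        have hMeq : lam - (Sg + pw (h + k + 1) + pw (h + j) + g) / 2 = t - 1 + c := by
          rw [hτ, hc]; ring
        rw [hMeq] at MM hYM
        refine C.SC0 hζF (by linarith) hiζ (c := c) (by linarith) hTt0 ?_
        have MMu : Mu (h + k + 2) (t - 1 + c) := by
          rw [← hMeq]
          have m1 := ((MS'.add (Mu.ofPw (show h + j ≤ h + (k + 1) by omega))).add Mg').half
          exact (S.mu.mono (by omega)).sub m1
        rcases eq_or_lt_of_le hYM with hM | hM
        · have e : Y + 1 - t = c := by linarith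
          rw [e]; exact Dm.refl _
        · have e : c - (Y + 1 - t) = t - 1 + c - Y := by ring
          by_cases hiY : h + k + 2 ≤ iY
          · refine Dm.top' (k := iY) ?_ (by linarith) (by linarith) (by linarith)
            rw [e]
            exact (MMu.mono hiY).sub C.sY.lv.mu
          · have hMY : Mu (h + k + 2) Y := C.sY.lv.mu.mono (by omega)
            have h9 := hMY.le_of_lt MMu hM
            refine Dm.top' (k := h + k + 2) ?_ (by linarith) (by linarith) (by linarith)
            rw [e]
            exact MMu.sub hMY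

end Ctx

end Pool.Agent.Lib.MP_67db36_lc
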