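import Pool.Agent.Lib.MP_67db36_lc.SitB

/-!
Situation B in general.
-/

set_option autoImplicit false

namespace Pool.Agent.Lib.MP_67db36_lc

namespace Ctx

variable {t a b X Y : ℚ} {iY : ℕ}

/-- Situation B: `a ∈ [ζ0, lam)`, `ζ0 = lam - 2^{-(h+j)}`, and `a - 2^{-(h+j)} ≤ b - 1 < ζ0`. -/
theorem sitB (C : Ctx t a b X Y iY) :
    ∀ W, Fus W → ∀ lam h j, St t lam W h j →
      (∀ d, 0 < d → d ≤ pw (h + j) → Tm (W + 1 - 2 ^ h * d) → Fus (lam - pw (h + j) - d)) →
      Fus (lam - pw (h + j)) → b - 1 < lam - pw (h + j) →
      lam - pw (h + j) - (b - 1) ≤ lam - a → lam - a ≤ pw (h + j) → False := by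
  apply Fus.strong_induction
  intro W hW ih lam h j S hsub hζ hω hfu hf
  have hp := two_pow_pos h
  have hR := pw_two (h + j)
  have hR2 := pw_two (h + j + 1)
  have hRp := pw_pos (h + j + 1)
  have hRp2 := pw_pos (h + j + 2)
  have hR1 := pw_le_one (h + j)
  have hsR := scale h j
  have ht := C.ht
  have hat := C.at'
  have hbt := C.bt
  have hab := C.ab
  have hba := C.hba
  have hX := C.hX
  have hY := C.hY
  have hYX := C.hYX
  have hYt := C.Yt
  have hge := C.ge
  have hgap2 := C.gap2
  obtain ⟨i, hi, hij⟩ := S.lvW
  have hpij := pw_le_pw hij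
  have hWt := S.hWt
  have haF : Fus (lam - (lam - a)) := by
    have e : lam - (lam - a) = a := by ring
    rw [e]; exact C.ha
  have hTa : Tm (W + 1 - 2 ^ h * (lam - a)) :=
    S.dn _ (by linarith) hf haF (by linarith)
  -- powers below `ζ0`
  have zpow : ∀ k, j ≤ k → Fus (lam - pw (h + j) - pw (h + k)) := by
    intro k hk
    apply hsub _ (pw_pos _) (pw_le_pw (by omega))
    rw [scale]
    exact tm_pow C.H W hW hWt i hi k (by omega)
  rcases eq_or_lt_of_le hW.nonneg with hW0 | hW0
  · -- `W = 0`
    subst hW0
    obtain ⟨k, hk, hak⟩ := S.zero_form C.ha (by linarith) (by linarith) hf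
    rcases Nat.eq_or_lt_of_le hk with hk | hk
    · -- `a = ζ0`
      subst hk
      obtain ⟨m, hm1, hm2⟩ := exists_lead (c := lam - pw (h + j) - (b - 1)) (by linarith)
        (by linarith)
      have hm := lead_ge hm1 (show lam - pw (h + j) - (b - 1) ≤ pw (h + j) by linarith)
      obtain ⟨k, rfl⟩ := Nat.exists_eq_add_of_le (show h ≤ m by omega)
      have e1 := pw_two (h + k)
      have e2 := pw_two (h + k + 1)
      have e3 := pw_pos (h + k + 1)
      have F1 := zpow (k + 1) (by omega)
      have F2 := zpow (k + 2) (by omega)
      rw [show h + (k + 1) = h + k + 1 by ring] at F1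
      rw [show h + (k + 2) = h + k + 1 + 1 by ring] at F2
      have hs := C.sandwich F1 F2 (l := h + k + 1 + 1) (by linarith) (by linarith) (by linarith)
      exact C.scA F1 C.hb (l := h + k + 1 + 1) (by linarith) (by linarith) (by omega)
        (by linarith) hs
    · have e1 : pw (h + k) ≤ pw (h + j + 1) := pw_le_pw (by omega)
      have F1 := S.pow (show j ≤ j + 1 by omega)
      rw [show h + (j + 1) = h + j + 1 by ring] at F1
      have hY1 := C.Yle F1 (by linarith)
      have hX1 := C.leX hζ (by linarith)
      obtain ⟨kY, hkY, hYeq⟩ := S.zero_form C.YF (by linarith) (by linarith) (by linarith)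
      obtain ⟨kX, hkX, hXeq⟩ := S.zero_form C.XF (by linarith) (by linarith) (by linarith)
      have hkX2 : kX = j := by
        by_contra hne
        have e2 : pw (h + kX) ≤ pw (h + j + 1) := pw_le_pw (by omega)
        linarith
      subst hkX2
      have hkY2 : kY = kX + 1 := by
        have a1 : pw (h + kY) < pw (h + kX) := by linarith [pw_pos iY]
        have a2 := pw_lt_iff.mp a1
        have a3 : pw (h + kX + 1) ≤ pw (h + kY) := by linarith
        have a4 := pw_le_iff.mp a3
        omega
      subst hkY2
      have e5 : pw (h + (kX + 1)) = pw (h + kX + 1) := rfl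
      have e6 := pw_pos (h + k)
      linarith
  · obtain ⟨k, hjk, hk1, hk2⟩ := S.lead (f := lam - a) (by linarith) hf
    have hpk := pw_two (h + k)
    have hpk1 := pw_two (h + k + 1)
    have hpk0 := pw_pos (h + k + 1)
    have hsk := scale h (k + 1)
    rw [show h + (k + 1) = h + k + 1 by ring] at hsk
    have hff : 0 < lam - a - pw (h + k + 1) := by linarith
    -- `2^h f^♭` is dominated by `2^h f`
    have hTflat : Tm (W + 1 - 2 ^ h * (lam - a - pw (h + k + 1))) := by
      have a1 := pw_le_one k
      have a2 : (2 : ℚ) ^ h * (lam - a) ≤ pw k := by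
        rw [← scale h k]; exact mul_le_mul_of_nonneg_left hk2 hp.le
      have a3 : 0 < (2 : ℚ) ^ h * (lam - a - pw (h + k + 1)) := mul_pos hp hff
      have a4 : (2 : ℚ) ^ h * (lam - a - pw (h + k + 1)) = 2 ^ h * (lam - a) - pw (k + 1) := by
        rw [mul_sub, hsk]
      have a5 := pw_pos (k + 1)
      refine dom C.H hW hWt hi (c := 2 ^ h * (lam - a)) a3 (by linarith) ?_ ?_ hTa
      · exact (Dm.flat hk1 hk2).two_pow_mul h
      · have : pw k ≤ pw i := pw_le_pw (by omega)
        linarith
    rcases Nat.eq_or_lt_of_le hjk with hjk | hjk
    · -- the leading bit is `R/2`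
      subst hjk
      have hzf : ∀ hh : lam - a - pw (h + j + 1) < lam - pw (h + j) - (b - 1), False := by
        intro hh
        have F0 := hsub _ hff (by linarith) hTflat
        -- bound on the gap
        have G1 := S.two C.H hW0 (le_refl j) (show j + 2 ≤ j + 2 from le_rfl)
        have G2 := zpow (j + 2) (by omega)
        have G3 := zpow (j + 1) (by omega)
        have e1 : pw (h + (j + 2)) = pw (h + j + 1 + 1) := rfl
        have e2 : pw (h + (j + 1)) = pw (h + j + 1) := rfl
        rw [e1] at G1 G2
        rw [e2] at G3
        have hL : h + j + 1 + 1 ≤ iY := by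
          by_cases c1 : t - 1 < lam - pw (h + j) - pw (h + j + 1 + 1)
          · exact C.sandwich G3 G2 (by linarith) c1 (by linarith)
          · push Not at c1
            by_cases c2 : t - 1 < lam - pw (h + j)
            · exact C.sandwich G2 hζ c1 c2 (by linarith)
            · push Not at c2
              exact C.sandwich hζ G1 c2 (by linarith) (by linarith)
        exact C.scA F0 C.hb (l := h + j + 1 + 1) (by linarith) (by linarith) (by omega)
          (by linarith) hL
      have hfu' : lam - pw (h + j) - (b - 1) ≤ lam - a - pw (h + j + 1) := by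
        by_contra hcon
        push Not at hcon
        exact hzf hcon
      rcases hi.cases hW with hh | hh | hh
      · exact absurd hh hW0.ne'
      · -- successor
        have S' := S.sc C.H hh (le_refl j)
        have e1 : pw (h + 1 + j) = pw (h + j + 1) := by congr 1; ring
        have hWm := hh.2.1
        have hWlt : W - pw i < W := by linarith [pw_pos i]
        obtain ⟨i', hi'⟩ := exists_str C.H _ hWm (by linarith)
        have hii := consec_lv hh.2 hi' hh.1
        have e2 : lam - pw (h + j + 1) - pw (h + 1 + j) = lam - pw (h + j) := by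
          rw [e1]; linarith
        refine ih _ hWm hWlt _ _ _ S' ?_ (by rw [e2]; exact hζ) (by rw [e2]; exact hω)
          (by rw [e2]; linarith) (by rw [e1]; linarith)
        intro d hd0 hd1 hT
        rw [e1] at hd1
        rw [e2]
        apply hsub d hd0 (by linarith)
        have c1 : 0 < (2 : ℚ) ^ h * d := mul_pos hp hd0
        have c2 : (2 : ℚ) ^ h * d ≤ pw (j + 1) := by
          rw [← hsk]; exact mul_le_mul_of_nonneg_left hd1 hp.le
        have c3 := pw_le_one (j + 1)
        obtain ⟨m, hm1, hm2⟩ := exists_lead c1 (by linarith)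
        have hm := lead_ge hm1 c2
        have c4 := pw_two m
        have c5 := pw_two j
        have c6 : pw j ≤ pw i' := pw_le_pw (by omega)
        have c7 := pw_le_one j
        apply crec_upT hh (show i ≤ m by omega) hm1 hm2
        have e3 : (2 : ℚ) ^ (h + 1) * d = 2 * (2 ^ h * d) := by rw [pow_succ]; ring
        rw [e3] at hT
        exact dom C.H hWm (by linarith) hi' (c := 2 * (2 ^ h * d)) (by linarith) (by linarith)
          (Dm.flat hm1 hm2).double (by linarith) hT
      · -- limit
        have S' := S.lm C.H hh (le_refl j)
        have e1 : pw (h + (j + 1)) = pw (h + j + 1) := rfl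
        have hWm := hh.2.2 (j + 1) (by omega)
        have hWlt : W - pw (j + 1) < W := by linarith [pw_pos (j + 1)]
        obtain ⟨i', hi'⟩ := exists_str C.H _ hWm (by linarith)
        have e2 : lam - pw (h + j + 1) - pw (h + (j + 1)) = lam - pw (h + j) := by
          rw [e1]; linarith
        have hMi' : Mu (j + 1) (W - pw (j + 1)) :=
          (hi.lv.mu.mono (by omega)).sub (Mu.ofPw le_rfl)
        have hi'j := pw_le_pw ((hi'.lv _).mp hMi')
        refine ih _ hWm hWlt _ _ _ S' ?_ (by rw [e2]; exact hζ) (by rw [e2]; exact hω)
          (by rw [e2]; linarith) (by rw [e1]; linarith)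
        intro d hd0 hd1 hT
        rw [e1] at hd1
        rw [e2]
        apply hsub d hd0 (by linarith)
        have c1 : 0 < (2 : ℚ) ^ h * d := mul_pos hp hd0
        have c2 : (2 : ℚ) ^ h * d ≤ pw (j + 1) := by
          rw [← hsk]; exact mul_le_mul_of_nonneg_left hd1 hp.le
        have c3 : pw (j + 1) ≤ pw i := pw_le_pw (by omega)
        exact mono C.H hW hWt hi hWm hWlt hi' c1 (by linarith) (by linarith) hT
    · -- the leading bit is smaller
      have hpkj : pw (h + k) ≤ pw (h + j + 1) := pw_le_pw (by omega)
      rcases hi.cases hW with hh | hh | hh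
      · exact absurd hh hW0.ne'
      · -- successor: exchange
        have S' := S.sc C.H hh (le_refl j)
        have e1 : pw (h + 1 + j) = pw (h + j + 1) := by congr 1; ring
        have Fa : Fus (a - (pw (h + j + 1) - pw (h + k + 1))) := by
          have h1 := crec_dn (c := 2 ^ h * (lam - a)) hh (show i ≤ k by omega)
            (by have : (2 : ℚ) ^ h * pw (h + k + 1) < 2 ^ h * (lam - a) :=
                  mul_lt_mul_of_pos_left hk1 hp
                rwa [hsk] at this)
            (by rw [← scale h k]; exact mul_le_mul_of_nonneg_left hk2 hp.le) hTa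
          have e3 : W - pw i + 1 - 2 * (2 ^ h * (lam - a) - pw (k + 1)) =
            W - pw i + 1 - 2 ^ (h + 1) * (lam - a - pw (h + k + 1)) := by
            rw [← hsk, pow_succ]; ring
          rw [e3] at h1
          have h2 := S'.up _ hff (by rw [e1]; linarith) h1.fus
          have e4 : lam - pw (h + j + 1) - (lam - a - pw (h + k + 1)) =
            a - (pw (h + j + 1) - pw (h + k + 1)) := by ring
          rwa [e4] at h2
        have Fb : Fus (b + (pw (h + j + 1) - pw (h + k + 1))) := by
          have := C.raise (κ := lam - pw (h + j)) (k := h + j + 1) (l := h + k + 1) hζ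
            (by omega) ((S.mu.sub (Mu.ofPw le_rfl)).mono (by omega)) hω (by linarith)
            (by omega) (by
              intro l' hl'
              obtain ⟨l, rfl⟩ := Nat.exists_eq_add_of_le (show h + 1 ≤ l' by omega)
              have := S'.pow (k := l) (by omega)
              have e5 : lam - pw (h + j) + pw (h + j + 1) - pw (h + 1 + l) =
                lam - pw (h + j + 1) - pw (h + 1 + l) := by linarith
              rw [e5]; exact this)
          have e6 : b + pw (h + j + 1) - pw (h + k + 1) =
            b + (pw (h + j + 1) - pw (h + k + 1)) := by ring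
          rwa [e6] at this
        exact C.exch (by linarith) Fa Fb (by linarith)
      · -- limit
        have hsand : h + j + 1 + 1 ≤ iY := by
          have G1 := S.two C.H hW0 (le_refl j) (show j + 2 ≤ j + 2 from le_rfl)
          have e1 : pw (h + (j + 2)) = pw (h + j + 1 + 1) := rfl
          rw [e1] at G1
          have G2 := S.pow (show j ≤ j + 1 by omega)
          have e2 : pw (h + (j + 1)) = pw (h + j + 1) := rfl
          rw [e2] at G2
          by_cases c1 : t - 1 < lam - (pw (h + j + 1) + pw (h + j + 1 + 1))
          · exact C.sandwich hζ G1 (by linarith) c1 (by linarith)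
          · push Not at c1
            exact C.sandwich G1 G2 c1 (by linarith) (by linarith)
        by_cases hc : lam - a - pw (h + k + 1) < lam - pw (h + j) - (b - 1)
        · have F0 := hsub _ hff (by linarith) hTflat
          have e7 : pw (h + k + 1 + 1) = pw (h + k + 2) := rfl
          exact C.scB F0 C.hb (l := h + j + 1) (l' := h + k + 1 + 1) (by linarith) (by linarith)
            (by omega) (by omega) (by linarith) (Or.inl (by omega))
        · push Not at hc
          -- the run of limits
          have hWm := hh.2.2 (k + 1) (by omega)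
          have hWlt : W - pw (k + 1) < W := by linarith [pw_pos (k + 1)]
          obtain ⟨i', hi'⟩ := exists_str C.H _ hWm (by linarith)
          have hMi' : Mu (k + 1) (W - pw (k + 1)) :=
            (hi.lv.mu.mono (by omega)).sub (Mu.ofPw le_rfl)
          have hi'j := pw_le_pw ((hi'.lv _).mp hMi')
          have hLv' : Lv (W - pw (k + 1)) (k + 1) := by
            apply lv_of_not hMi'
            intro hM
            have a1 := (hi.lv.mu.mono (show i ≤ k by omega)).sub hM
            have e : W - (W - pw (k + 1)) = pw (k + 1) := by ring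
            rw [e] at a1
            have := a1.not_pw
            omega
          have e8 : pw (h + (k + 1)) = pw (h + k + 1) := rfl
          have e9 : pw (h + (k + 1) + 1) = pw (h + k + 1 + 1) := rfl
          have hkj2 : pw (h + k + 1) ≤ pw (h + j + 1 + 1) := pw_le_pw (by omega)
          refine C.sitBL S hh (by linarith) (by
              have e : pw (h + j + 2) = pw (h + j + 1 + 1) := rfl
              rw [e]; linarith) _ hWm (pw (h + k + 1)) 0 (k + 1) (by rw [hsk]) hLv'
            (Mu.ofPw (by omega)) (Mu.zero _) le_rfl hpk0.le hpk0 (by rw [e8]; linarith) ?_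
            (by linarith) (by rw [e8]; linarith) (by linarith) (by linarith) ?_ ?_
          · rw [zero_add, e9]
            exact Dm.pw_le (by linarith)
          · intro d hd0 hd1 hT
            rw [e8] at hd1
            rw [sub_zero]
            apply hsub d hd0 (by linarith)
            have c1 : 0 < (2 : ℚ) ^ h * d := mul_pos hp hd0
            have c2 : (2 : ℚ) ^ h * d ≤ pw (k + 1) := by
              rw [← hsk]; exact mul_le_mul_of_nonneg_left hd1 hp.le
            have c3 : pw (k + 1) ≤ pw i := pw_le_pw (by omega)
            exact mono C.H hW hWt hi hWm hWlt hi' c1 (by linarith) (by linarith) hT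
          · rw [sub_zero]; exact hζ

end Ctx

end Pool.Agent.Lib.MP_67db36_lc
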