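import Pool.Agent.Lib.MP_67db36_lc.Moves

/-!
States: local copies `2^{-h} C_W` of the fusible numbers below a point `lam`.
-/

set_option autoImplicit false

namespace Pool.Agent.Lib.MP_67db36_lc

lemma scale (h k : ℕ) : (2 : ℚ) ^ h * pw (h + k) = pw k := by
  rw [pw_add, ← mul_assoc, mul_comm ((2 : ℚ) ^ h), pw_mul_two_pow, one_mul]

lemma two_pow_pos (h : ℕ) : (0 : ℚ) < 2 ^ h := by positivity

/-- `lam - d` is fusible iff `W + 1 - 2^h d` is, for `0 < d ≤ 2^{-(h+j)}`. -/
structure St (t lam W : ℚ) (h j : ℕ) : Prop where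
  hW : Fus W
  hWt : W < t
  hWs : ∀ z, Fus z → z < W → z + 1 ≤ t
  lvW : ∃ i, Str W i ∧ i ≤ j
  up : ∀ d, 0 < d → d ≤ pw (h + j) → Fus (W + 1 - 2 ^ h * d) → Fus (lam - d)
  dn : ∀ d, 0 < d → d ≤ pw (h + j) → Fus (lam - d) → lam - d < t → Tm (W + 1 - 2 ^ h * d)
  mu : Mu (h + j) lam
  hWl : W + 1 ≤ lam

namespace St

variable {t lam W : ℚ} {h j : ℕ}

lemma lv_le (S : St t lam W h j) {i : ℕ} (hi : Lv W i) : i ≤ j := by
  obtain ⟨i', h1, h2⟩ := S.lvW
  rwa [h1.lv.unique hi] at h2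

/-- sub-state in the successor case. -/
lemma sc (S : St t lam W h j) (H : ∀ q, Fus q → q < t → Tm q) {i k : ℕ} (hi : Sc W i)
    (hjk : j ≤ k) : St t (lam - pw (h + k + 1)) (W - pw i) (h + 1) k := by
  have hij := S.lv_le hi.1.lv
  have hpi := pw_pos i
  have h1 : W - pw i + 1 ≤ t := S.hWs _ hi.2.1 (by linarith)
  have e1 : pw (h + 1 + k) = pw (h + k + 1) := by congr 1; ring
  have e2 := pw_two (h + k)
  have e3 := pw_pos (h + k + 1)
  have e4 : pw (h + k) ≤ pw (h + j) := pw_le_pw (by omega)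
  have hs := scale h (k + 1)
  rw [show h + (k + 1) = h + k + 1 by ring] at hs
  have hp := two_pow_pos h
  have hk2 := pw_two k
  refine ⟨hi.2.1, by linarith, fun z hz hz2 => S.hWs z hz (by linarith), ?_, ?_, ?_, ?_, by
    have := S.hWl
    have : pw (h + k + 1) ≤ pw i := pw_le_pw (by omega)
    linarith⟩
  · obtain ⟨i', hi'⟩ := exists_str H _ hi.2.1 (by linarith)
    have := consec_lv hi.2 hi' hi.1
    exact ⟨i', hi', by omega⟩
  · intro d hd0 hd1 hf
    rw [e1] at hd1
    have h2 : (2 : ℚ) ^ h * d ≤ pw (k + 1) := by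
      rw [← hs]; exact mul_le_mul_of_nonneg_left hd1 hp.le
    have h3 : 0 < (2 : ℚ) ^ h * d := mul_pos hp hd0
    have h4 : Fus (W + 1 - (pw (k + 1) + 2 ^ h * d)) := by
      apply crec_up hi (show i ≤ k by omega) (by linarith) (by linarith)
      have e : W - pw i + 1 - 2 * (pw (k + 1) + 2 ^ h * d - pw (k + 1)) =
        W - pw i + 1 - 2 ^ (h + 1) * d := by rw [pow_succ]; ring
      rw [e]; exact hf
    have h5 := S.up (pw (h + k + 1) + d) (by linarith) (by linarith) (by
      rw [mul_add, hs]; exact h4)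
    have e : lam - (pw (h + k + 1) + d) = lam - pw (h + k + 1) - d := by ring
    rwa [e] at h5
  · intro d hd0 hd1 hf hlt
    rw [e1] at hd1
    have h2 : (2 : ℚ) ^ h * d ≤ pw (k + 1) := by
      rw [← hs]; exact mul_le_mul_of_nonneg_left hd1 hp.le
    have h3 : 0 < (2 : ℚ) ^ h * d := mul_pos hp hd0
    have e : lam - pw (h + k + 1) - d = lam - (pw (h + k + 1) + d) := by ring
    rw [e] at hf hlt
    have h4 := S.dn _ (by linarith) (by linarith) hf hlt
    rw [mul_add, hs] at h4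
    have h5 := crec_dn hi (show i ≤ k by omega) (by linarith) (by linarith) h4
    have e : W - pw i + 1 - 2 * (pw (k + 1) + 2 ^ h * d - pw (k + 1)) =
      W - pw i + 1 - 2 ^ (h + 1) * d := by rw [pow_succ]; ring
    rwa [e] at h5
  · exact (S.mu.mono (by omega)).sub (Mu.ofPw (by omega))

/-- sub-state in the limit case. -/
lemma lm (S : St t lam W h j) (H : ∀ q, Fus q → q < t → Tm q) {i k : ℕ} (hi : Lm W i)
    (hjk : j ≤ k) : St t (lam - pw (h + k + 1)) (W - pw (k + 1)) h (k + 1) := by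
  have hij := S.lv_le hi.1.lv
  have hpk := pw_pos (k + 1)
  have hf := hi.2.2 (k + 1) (by omega)
  have h1 : W - pw (k + 1) + 1 ≤ t := S.hWs _ hf (by linarith)
  have e2 := pw_two (h + k)
  have e3 := pw_pos (h + k + 1)
  have e4 : pw (h + k) ≤ pw (h + j) := pw_le_pw (by omega)
  have hs := scale h (k + 1)
  rw [show h + (k + 1) = h + k + 1 by ring] at hs
  have hp := two_pow_pos h
  refine ⟨hf, by linarith, fun z hz hz2 => S.hWs z hz (by linarith), ?_, ?_, ?_, ?_, by
    have := S.hWl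
    have : pw (h + k + 1) ≤ pw (k + 1) := pw_le_pw (by omega)
    linarith⟩
  · obtain ⟨i', hi'⟩ := exists_str H _ hf (by linarith)
    refine ⟨i', hi', (hi'.lv _).mp ((hi.1.lv.mu.mono (by omega)).sub (Mu.ofPw le_rfl))⟩
  · intro d hd0 hd1 hfd
    have hd1 : d ≤ pw (h + k + 1) := hd1
    have h5 := S.up (pw (h + k + 1) + d) (by linarith) (by linarith) (by
      rw [mul_add, hs]
      have e : W + 1 - (pw (k + 1) + 2 ^ h * d) = W - pw (k + 1) + 1 - 2 ^ h * d := by ring
      rw [e]; exact hfd)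
    have e : lam - (pw (h + k + 1) + d) = lam - pw (h + k + 1) - d := by ring
    rwa [e] at h5
  · intro d hd0 hd1 hfd hlt
    have hd1 : d ≤ pw (h + k + 1) := hd1
    have e : lam - pw (h + k + 1) - d = lam - (pw (h + k + 1) + d) := by ring
    rw [e] at hfd hlt
    have h4 := S.dn _ (by linarith) (by linarith) hfd hlt
    rw [mul_add, hs] at h4
    have e : W + 1 - (pw (k + 1) + 2 ^ h * d) = W - pw (k + 1) + 1 - 2 ^ h * d := by ring
    rwa [e] at h4
  · exact (S.mu.mono (by omega)).sub (Mu.ofPw (by omega))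

lemma pow (S : St t lam W h j) {k : ℕ} (hk : j ≤ k) : Fus (lam - pw (h + k)) := by
  apply S.up _ (pw_pos _) (pw_le_pw (by omega))
  rw [scale]
  exact S.hW.add_one_sub_pw k

lemma two (S : St t lam W h j) (H : ∀ q, Fus q → q < t → Tm q) (h0 : 0 < W) {k l : ℕ}
    (hk : j ≤ k) (hl : k + 2 ≤ l) : Fus (lam - (pw (h + k + 1) + pw (h + l))) := by
  obtain ⟨i, hi, hij⟩ := S.lvW
  have e1 : pw (h + l) ≤ pw (h + k + 1) := pw_le_pw (by omega)
  have e2 := pw_two (h + k)
  have e3 := pw_pos (h + l)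
  have e4 : pw (h + k) ≤ pw (h + j) := pw_le_pw (by omega)
  have e5 := pw_pos (h + k + 1)
  apply S.up _ (by linarith) (by linarith)
  rw [mul_add, show h + k + 1 = h + (k + 1) by ring, scale, scale]
  exact two_bit H S.hW h0 S.hWt hi (by omega) hl

/-- leads of numbers in the range of the state. -/
lemma lead (_S : St t lam W h j) {f : ℚ} (h0 : 0 < f) (h1 : f ≤ pw (h + j)) :
    ∃ k, j ≤ k ∧ pw (h + k + 1) < f ∧ f ≤ pw (h + k) := by
  obtain ⟨m, hm1, hm2⟩ := exists_lead h0 (h1.trans (pw_le_one _))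
  have := lead_ge hm1 h1
  obtain ⟨k, rfl⟩ := Nat.exists_eq_add_of_le (show h ≤ m by omega)
  exact ⟨k, by omega, hm1, hm2⟩

lemma zero_form (S : St t lam 0 h j) {x : ℚ} (hx : Fus x) (hxt : x < t) (h0 : x < lam)
    (h1 : lam - x ≤ pw (h + j)) : ∃ k, j ≤ k ∧ x = lam - pw (h + k) := by
  have h2 := S.dn (lam - x) (by linarith) h1 (by
    have e : lam - (lam - x) = x := by ring
    rwa [e]) (by linarith)
  have hp := two_pow_pos h
  have h3 : 0 < (2 : ℚ) ^ h * (lam - x) := mul_pos hp (by linarith)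
  obtain ⟨k, hk⟩ := h2.fus.lt_one (by linarith)
  have h4 : (2 : ℚ) ^ h * (lam - x) = 2 ^ h * pw (h + k) := by rw [scale]; linarith
  have h5 : lam - x = pw (h + k) := mul_left_cancel₀ hp.ne' h4
  refine ⟨k, ?_, by linarith⟩
  rw [h5] at h1
  have := pw_le_iff.mp h1
  omega

end St

/-- the domination step used along a run of limits. -/
lemma dm_step {g Sg : ℚ} {A B : ℕ} (hAB : A + 1 ≤ B) (hg : Mu A g) (hSg : Mu A Sg) (hg0 : 0 ≤ g)
    (hS0 : 0 ≤ Sg) (hd : Dm (g + pw (A + 1)) Sg) :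
    Dm (g + pw B + pw (B + 1)) (Sg + pw B) ∧ Dm (g + pw (B + 1)) (Sg + pw B) := by
  have e1 := pw_two A
  have e2 := pw_pos (A + 1)
  have e3 : pw B ≤ pw (A + 1) := pw_le_pw hAB
  have e4 := pw_two B
  have e5 := pw_pos (B + 1)
  have n1 : ∀ i, N (g + pw (A + 1)) i = N g i + N (pw (A + 1)) i := fun i =>
    N_split hg hg0 e2.le (by linarith) i
  have n2 : ∀ i, N (Sg + pw B) i = N Sg i + N (pw B) i := fun i =>
    N_split hSg hS0 (by linarith) (by linarith) i
  have n3 : ∀ i, N (pw (B + 1)) i ≤ N (pw (A + 1)) i := by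
    intro i
    rw [N_pw, N_pw]
    split_ifs <;> omega
  constructor
  · intro i
    have a1 : N (g + (pw B + pw (B + 1))) i = N g i + N (pw B + pw (B + 1)) i :=
      N_split hg hg0 (by linarith) (by linarith) i
    have a2 : N (pw B + pw (B + 1)) i = N (pw B) i + N (pw (B + 1)) i :=
      N_split (Mu.ofPw le_rfl) (pw_pos _).le e5.le (by linarith) i
    have a3 := hd i
    have a4 := n1 i
    have a5 := n2 i
    have a6 := n3 i
    rw [add_assoc, a1, a2, a5]
    omega
  · intro i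
    have a1 : N (g + pw (B + 1)) i = N g i + N (pw (B + 1)) i :=
      N_split hg hg0 e5.le (by linarith) i
    have a3 := hd i
    have a4 := n1 i
    have a5 := n2 i
    have a6 := n3 i
    rw [a1, a5]
    omega

end Pool.Agent.Lib.MP_67db36_lc
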