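import Pool.Agent.Lib.MP_67db36_lc.FusWF

/-!
Tame fusible numbers, the local structure of the fusible numbers below a bound `t` under which
every fusible number is tame, and the domination and monotonicity lemmas.
-/

set_option autoImplicit false

namespace Pool.Agent.Lib.MP_67db36_lc

/-! ### consecutive fusible numbers -/

lemma Consec.nonneg {x y : ℚ} (h : Consec x y) : 0 ≤ x := h.1.nonneg

lemma Consec.gap_le {x y : ℚ} (h : Consec x y) : y ≤ x + 1 / 2 := by
  by_contra hc
  push Not at hc
  exact h.2.2.2 _ h.1.add_half ⟨by linarith, hc⟩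

lemma Consec.le_of_lt {x y z : ℚ} (h : Consec x y) (hz : Fus z) (hxz : x < z) : y ≤ z := by
  by_contra hc
  push Not at hc
  exact h.2.2.2 z hz ⟨hxz, hc⟩

lemma Consec.le_of_lt' {x y z : ℚ} (h : Consec x y) (hz : Fus z) (hzy : z < y) : z ≤ x := by
  by_contra hc
  push Not at hc
  exact h.2.2.2 z hz ⟨hc, hzy⟩

lemma Consec.unique {x y x' y' r : ℚ} (h : Consec x y) (h' : Consec x' y') (h1 : x ≤ r)
    (h2 : r < y) (h3 : x' ≤ r) (h4 : r < y') : x = x' ∧ y = y' := by
  have e1 : x' ≤ x := h.le_of_lt' h'.1 (by linarith)
  have e2 : x ≤ x' := h'.le_of_lt' h.1 (by linarith)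
  have e : x = x' := le_antisymm e2 e1
  subst e
  refine ⟨rfl, le_antisymm (h.le_of_lt h'.2.1 (by linarith)) (h'.le_of_lt h.2.1 (by linarith))⟩

/-! ### tame fusible numbers -/

/-- hereditarily tame fusible numbers. -/
inductive Tm : ℚ → Prop
  | base (k : ℕ) : Tm (1 - pw k)
  | step {x y z : ℚ} (n : ℕ) (hc : Consec x y) (hs : Fus (2 * y - x - (y - x) * pw n)) (hz : Tm z)
      (h1 : x + 1 - (y - x) * pw n ≤ z) (h2 : z < x + 1) :
      Tm ((2 * y - x - (y - x) * pw n + z + 1) / 2)

lemma Tm.fus {q : ℚ} (h : Tm q) : Fus q := by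
  induction h with
  | base k => exact Fus.one_sub_pw k
  | @step x y z n hc hs hz h1 h2 ih =>
    have e1 := hc.gap_le
    have e2 := hc.2.2.1
    have e3 := pw_pos n
    have e4 := pw_le_one n
    have e5 : (y - x) * pw n ≤ y - x := by nlinarith
    exact Fus.fuse hs ih (by linarith) (by linarith)

lemma Tm.inv {x y w : ℚ} {n : ℕ} (hw : Tm w) (hc : Consec x y)
    (h1 : y + 1 - (y - x) * pw n ≤ w) (h2 : w < y + 1 - (y - x) * pw (n + 1)) :
    Tm (2 * w - 1 - (2 * y - x - (y - x) * pw n)) := by
  have hm : 0 < y - x := by linarith [hc.2.2.1]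
  have hp := pw_pos n
  have hp1 := pw_le_one n
  have hps := pw_succ n
  have hb : (y - x) * pw n ≤ y - x := by nlinarith
  have hb2 : 0 < (y - x) * pw (n + 1) := mul_pos hm (pw_pos _)
  cases hw with
  | base k =>
    exfalso
    have := pw_pos k
    have := hc.nonneg
    linarith
  | @step x' y' z' n' hc' hs' hz' h1' h2' =>
    have hm' : 0 < y' - x' := by linarith [hc'.2.2.1]
    have hp' := pw_pos n'
    have hp1' := pw_le_one n'
    have hps' := pw_succ n'
    have hb' : (y' - x') * pw n' ≤ y' - x' := by nlinarith
    have hb2' : 0 < (y' - x') * pw (n' + 1) := mul_pos hm' (pw_pos _)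
    have hb3' : (y' - x') * pw n' = 2 * ((y' - x') * pw (n' + 1)) := by rw [hps']; ring
    have hb3 : (y - x) * pw n = 2 * ((y - x) * pw (n + 1)) := by rw [hps]; ring
    obtain ⟨rfl, rfl⟩ := hc.unique hc'
      (r := (2 * y' - x' - (y' - x') * pw n' + z' + 1) / 2 - 1)
      (by linarith) (by linarith) (by linarith) (by linarith)
    have hn : n = n' := by
      have a1 : (y - x) * pw (n + 1) < (y - x) * pw n' := by linarith
      have a2 : (y - x) * pw (n' + 1) < (y - x) * pw n := by linarith
      have b1 := pw_lt_iff.mp (lt_of_mul_lt_mul_left a1 hm.le)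
      have b2 := pw_lt_iff.mp (lt_of_mul_lt_mul_left a2 hm.le)
      omega
    subst hn
    have e : 2 * ((2 * y - x - (y - x) * pw n + z' + 1) / 2) - 1 -
        (2 * y - x - (y - x) * pw n) = z' := by ring
    rw [e]
    exact hz'

/-! ### exact levels -/

/-- `2^{-i}` is the exact dyadic level of `g`. -/
def Lv (g : ℚ) (i : ℕ) : Prop := ∀ j, Mu j g ↔ i ≤ j

lemma Lv.mu {g : ℚ} {i : ℕ} (h : Lv g i) : Mu i g := (h i).mpr le_rfl

lemma Lv.unique {g : ℚ} {i j : ℕ} (h : Lv g i) (h' : Lv g j) : i = j :=
  le_antisymm ((h j).mp h'.mu) ((h' i).mp h.mu)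

/-- if `κ` is a multiple of `2^{-(k+1)}` but not of `2^{-k}`, its level is `k+1`. -/
lemma lv_of_not {g : ℚ} {k : ℕ} (h : Mu (k + 1) g) (h' : ¬ Mu k g) : Lv g (k + 1) := by
  intro j
  constructor
  · intro hj
    by_contra hc
    exact h' (hj.mono (by omega))
  · exact fun hj => h.mono hj

lemma Mu.even_or {g : ℚ} {k : ℕ} (h : Mu (k + 1) g) : Mu k g ∨ Mu k (g + pw (k + 1)) := by
  obtain ⟨z, rfl⟩ := h
  rcases Int.even_or_odd z with ⟨m, rfl⟩ | ⟨m, rfl⟩
  · left
    refine ⟨m, ?_⟩
    rw [pw_succ]; push_cast; ring
  · right
    refine ⟨m + 1, ?_⟩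
    rw [pw_succ]; push_cast; ring

/-- the local structure of a fusible number `g` of level `i`. -/
structure Str (g : ℚ) (i : ℕ) : Prop where
  lv : Lv g i
  up : Fus (g + pw i)
  upl : ∀ j, i ≤ j → Fus (g + pw i - pw j)
  dn : 0 < g → Fus (g - pw i)
  ty : 0 < g → (∀ j, i ≤ j → Fus (g - pw j)) ∨ (∀ z, Fus z → ¬(g - pw i < z ∧ z < g))

lemma str_base (k : ℕ) : Str (1 - pw k) k where
  lv := by
    intro j
    constructor
    · intro h
      have := (Mu.one j).sub h
      have e : 1 - (1 - pw k) = pw k := by ring
      rw [e] at this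
      exact this.not_pw
    · intro h
      exact (Mu.one j).sub (Mu.ofPw h)
  up := by
    have e : 1 - pw k + pw k = ((1 : ℕ) : ℚ) := by simp
    rw [e]; exact Fus.nat 1
  upl := by
    intro j _
    have e : 1 - pw k + pw k - pw j = 1 - pw j := by ring
    rw [e]; exact Fus.one_sub_pw j
  dn := by
    intro h
    cases k with
    | zero => simp at h
    | succ k =>
      have e : 1 - pw (k + 1) - pw (k + 1) = 1 - pw k := by have := pw_two k; linarith
      rw [e]; exact Fus.one_sub_pw k
  ty := by
    intro h
    right
    rintro z hz ⟨h1, h2⟩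
    obtain ⟨m, rfl⟩ := hz.lt_one (by have := pw_pos k; linarith)
    cases k with
    | zero => simp at h
    | succ k =>
      have e := pw_two k
      have a1 : pw m < pw k := by linarith
      have a2 : pw (k + 1) < pw m := by linarith
      have b1 := pw_lt_iff.mp a1
      have b2 := pw_lt_iff.mp a2
      omega

lemma consec_gap {x y : ℚ} {i : ℕ} (hc : Consec x y) (hy : Str y i) : y - x = pw i := by
  have h0 : 0 < y := lt_of_le_of_lt hc.nonneg hc.2.2.1
  rcases hy.ty h0 with h | h
  · exfalso
    obtain ⟨j, hj⟩ := exists_pw_lt (show (0 : ℚ) < y - x by linarith [hc.2.2.1])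
    have h1 := h (max i j) (le_max_left _ _)
    have h2 := pw_le_pw (le_max_right i j)
    have h3 := pw_pos (max i j)
    exact hc.2.2.2 _ h1 ⟨by linarith, by linarith⟩
  · have h1 := hc.le_of_lt' (hy.dn h0) (by linarith [pw_pos i])
    have h2 : ¬ (y - pw i < x) := fun h3 => h x hc.1 ⟨h3, hc.2.2.1⟩
    push Not at h2
    linarith

lemma consec_lv {x y : ℚ} {i j : ℕ} (hc : Consec x y) (hx : Str x i) (hy : Str y j) :
    i + 1 ≤ j := by
  have h1 := consec_gap hc hy
  have h2 := hx.upl (i + 1) (by omega)
  have h3 := pw_two i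
  have h4 := pw_pos (i + 1)
  have h5 := hc.le_of_lt h2 (by linarith)
  exact pw_le_iff.mp (by linarith)

section below

variable {t : ℚ}

theorem exists_str (H : ∀ q, Fus q → q < t → Tm q) :
    ∀ g, Fus g → g < t → ∃ i, Str g i := by
  apply Fus.strong_induction
  intro g hg ih hgt
  have hT := H g hg hgt
  cases hT with
  | base k => exact ⟨k, str_base k⟩
  | @step x y z n hc hs hz h1 h2 =>
    have hm : 0 < y - x := by linarith [hc.2.2.1]
    have hx0 := hc.nonneg
    have hgap := hc.gap_le
    have hp := pw_pos n
    have hp1 := pw_le_one n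
    have hb : (y - x) * pw n ≤ y - x := by nlinarith
    have hgx : x + 1 ≤ (2 * y - x - (y - x) * pw n + z + 1) / 2 := by linarith
    obtain ⟨ix, hx⟩ := ih x hc.1 (by linarith) (by linarith)
    obtain ⟨iy, hy⟩ := ih y hc.2.1 (by linarith) (by linarith)
    obtain ⟨iz, hz'⟩ := ih z hz.fus (by linarith) (by linarith)
    have hyx := consec_gap hc hy
    have hlv := consec_lv hc hx hy
    have hprod : (y - x) * pw n = pw (iy + n) := by rw [hyx, pw_add]
    rw [hprod] at h1 hs hgx hgt hg ⊢
    have hprod2 : (y - x) * pw (n + 1) = pw (iy + n + 1) := by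
      rw [hyx, show iy + n + 1 = iy + (n + 1) by ring, pw_add iy]
    have hsy : 2 * y - x - pw (iy + n) = y + pw iy - pw (iy + n) := by linarith
    have hmx : Mu (iy + n) x := hx.lv.mu.mono (by omega)
    have hmy : Mu (iy + n) y := hy.lv.mu.mono (by omega)
    have hpp := pw_pos (iy + n)
    rcases eq_or_lt_of_le h1 with h1 | h1
    · -- left end point
      have hgeq : (2 * y - x - pw (iy + n) + z + 1) / 2 = y + 1 - pw (iy + n) := by linarith
      rw [hgeq]
      cases n with
      | zero =>
        refine ⟨ix, ?_⟩
        have e : y + 1 - pw (iy + 0) = x + 1 := by simp only [add_zero]; linarith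
        rw [e]
        refine ⟨?_, ?_, ?_, ?_, ?_⟩
        · intro j
          constructor
          · intro h
            have := h.sub (Mu.one j)
            have e : x + 1 - 1 = x := by ring
            rw [e] at this
            exact (hx.lv j).mp this
          · intro h
            exact ((hx.lv j).mpr h).add (Mu.one j)
        · have := hx.up.add_one
          have e : x + pw ix + 1 = x + 1 + pw ix := by ring
          rwa [e] at this
        · intro j hj
          have := (hx.upl j hj).add_one
          have e : x + pw ix - pw j + 1 = x + 1 + pw ix - pw j := by ring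
          rwa [e] at this
        · intro _
          exact hc.1.add_one_sub_pw ix
        · intro _
          left
          intro j _
          exact hc.1.add_one_sub_pw j
      | succ n =>
        refine ⟨iy + (n + 1), ?_⟩
        have h2pw := pw_two (iy + n)
        have hidx : iy + (n + 1) = iy + n + 1 := by ring
        rw [hidx] at *
        refine ⟨?_, ?_, ?_, ?_, ?_⟩
        · apply lv_of_not
          · exact (hmy.add (Mu.one _)).sub (Mu.ofPw le_rfl)
          · intro h
            have h3 : Mu (iy + n) (y + 1) := (hy.lv.mu.mono (by omega)).add (Mu.one _)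
            have := h3.sub h
            have e : y + 1 - (y + 1 - pw (iy + n + 1)) = pw (iy + n + 1) := by ring
            rw [e] at this
            have := this.not_pw
            omega
        · have e : y + 1 - pw (iy + n + 1) + pw (iy + n + 1) = y + 1 := by ring
          rw [e]; exact hc.2.1.add_one
        · intro j _
          have e : y + 1 - pw (iy + n + 1) + pw (iy + n + 1) - pw j = y + 1 - pw j := by ring
          rw [e]; exact hc.2.1.add_one_sub_pw j
        · intro _
          have e : y + 1 - pw (iy + n + 1) - pw (iy + n + 1) = y + 1 - pw (iy + n) := by linarith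
          rw [e]; exact hc.2.1.add_one_sub_pw _
        · intro _
          left
          intro j hj
          rcases Nat.eq_or_lt_of_le hj with hj | hj
          · rw [← hj]
            have e : y + 1 - pw (iy + n + 1) - pw (iy + n + 1) = y + 1 - pw (iy + n) := by linarith
            rw [e]; exact hc.2.1.add_one_sub_pw _
          · obtain ⟨j, rfl⟩ : ∃ j', j = j' + 1 := ⟨j - 1, by omega⟩
            have e1 := pw_two j
            have e2 : pw j ≤ pw (iy + n + 1) := pw_le_pw (by omega)
            have e3 := pw_pos j
            have e4 : pw iy ≤ pw 1 := pw_le_pw (by omega)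
            rw [pw_one] at e4
            have e5 : pw (iy + n) ≤ pw iy := pw_le_pw (by omega)
            refine Fus.fuse' (hy.upl (iy + n) (by omega)) (hc.1.add_one_sub_pw j)
              ?_ ?_ ?_
            · linarith
            · linarith
            · linarith
    · -- interior
      have hmz := hz'.lv.mu
      have hA : Mu (iy + n) (x + 1 - pw (iy + n)) := (hmx.add (Mu.one _)).sub (Mu.ofPw le_rfl)
      have hB : Mu (iy + n) (x + 1) := hmx.add (Mu.one _)
      have hiz : iy + n + 1 ≤ iz := by
        by_contra hcon
        have hz2 : Mu (iy + n) z := hmz.mono (by omega)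
        have := hA.le_of_lt hz2 h1
        linarith
      have hz1 : x + 1 - pw (iy + n) ≤ z - pw iz := by
        have := (hA.mono (show iy + n ≤ iz by omega)).le_of_lt hmz h1
        linarith
      have hz2 : z + pw iz ≤ x + 1 := by
        exact hmz.le_of_lt (hB.mono (show iy + n ≤ iz by omega)) h2
      have hz0 : 0 < z := by
        have e4 : pw (iy + n) ≤ pw 1 := pw_le_pw (by omega)
        rw [pw_one] at e4
        linarith
      have hpiz := pw_pos iz
      have hpz1 := pw_two iz
      have hpy1 : pw iy ≤ pw 1 := pw_le_pw (by omega)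
      rw [pw_one] at hpy1
      have hpyn : pw (iy + n) ≤ pw iy := pw_le_pw (by omega)
      have hM1 : Mu (iy + n) (2 * y - x - pw (iy + n) + 1) :=
        ((((show Mu (iy+n) (2 * y) by
          have := hmy.add hmy; rwa [← two_mul] at this).sub hmx).sub (Mu.ofPw le_rfl)).add
            (Mu.one _))
      refine ⟨iz + 1, ?_, ?_, ?_, ?_, ?_⟩
      · apply lv_of_not
        · have := ((hM1.mono (show iy + n ≤ iz by omega)).add hmz).half
          have e : (2 * y - x - pw (iy + n) + 1 + z) / 2 =
            (2 * y - x - pw (iy + n) + z + 1) / 2 := by ring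
          rwa [e] at this
        · intro h
          obtain ⟨iz, rfl⟩ : ∃ k, iz = k + 1 := ⟨iz - 1, by omega⟩
          have h3 := h.double
          have h4 := h3.sub (hM1.mono (show iy + n ≤ iz by omega))
          have e : 2 * ((2 * y - x - pw (iy + n) + z + 1) / 2) -
            (2 * y - x - pw (iy + n) + 1) = z := by ring
          rw [e] at h4
          have := (hz'.lv _).mp h4
          omega
      · exact Fus.fuse' hs hz'.up (by linarith) (by linarith) (by linarith)
      · intro j hj
        obtain ⟨j, rfl⟩ : ∃ j', j = j' + 1 := ⟨j - 1, by omega⟩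
        have e1 := pw_two j
        have e2 : pw j ≤ pw iz := pw_le_pw (by omega)
        have e3 := pw_pos j
        exact Fus.fuse' hs (hz'.upl j (by omega)) (by linarith) (by linarith) (by linarith)
      · intro _
        exact Fus.fuse' hs (hz'.dn hz0) (by linarith) (by linarith) (by linarith)
      · intro _
        rcases hz'.ty hz0 with h | h
        · left
          intro j hj
          obtain ⟨j, rfl⟩ : ∃ j', j = j' + 1 := ⟨j - 1, by omega⟩
          have e1 := pw_two j
          have e2 : pw j ≤ pw iz := pw_le_pw (by omega)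
          have e3 := pw_pos j
          exact Fus.fuse' hs (h j (by omega)) (by linarith) (by linarith) (by linarith)
        · right
          rintro w hw ⟨hw1, hw2⟩
          have hpn := pw_two (iy + n)
          have hTw := H w hw (by linarith)
          have := hTw.inv (n := n) hc (by rw [hprod]; linarith) (by rw [hprod2]; linarith)
          rw [hprod] at this
          exact h _ this.fus ⟨by linarith, by linarith⟩

end below

end Pool.Agent.Lib.MP_67db36_lc
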